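import Pool.Agent.P.MP_f981b0_an.R1.Dual
import Pool.Agent.P.MP_f981b0_an.R1.Three

set_option autoImplicit false

noncomputable section

namespace Pool.Agent.P.MP_f981b0_an.TB

open MeasureTheory Metric Set R1

/-- Hahn-Banach for a functional dominated by the norm of a linear image. -/
lemma exists_dual_of_le {V Y : Type*} [NormedAddCommGroup Y] [NormedSpace ℂ Y]
    [AddCommGroup V] [Module ℂ V] (A : V →ₗ[ℂ] Y) (l : V →ₗ[ℂ] ℂ) {C : ℝ} (hC : 0 ≤ C)
    (h : ∀ v, ‖l v‖ ≤ C * ‖A v‖) : ∃ m : Y →L[ℂ] ℂ, ‖m‖ ≤ C ∧ ∀ v, m (A v) = l v := by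
  have h1 : ∀ v, l.compLeftInverse A ⟨A v, v, rfl⟩ = l v := fun v =>
    LinearMap.compLeftInverse_apply_of_bdd l A ⟨C, h⟩ v _ rfl
  obtain ⟨m, hm, hn⟩ := exists_extension_norm_eq (LinearMap.range A) (l.compLeftInverse A)
  refine ⟨m, ?_, fun v => (hm ⟨A v, v, rfl⟩).trans (h1 v)⟩
  rw [hn]
  refine ContinuousLinearMap.opNorm_le_bound _ hC ?_
  rintro ⟨y, v, rfl⟩
  rw [h1]
  exact h v

/-- The bounded analytic functions on the disc, as a vector space. -/
def HinfSub : Submodule ℂ (ℂ → ℂ) where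
  carrier := {p | Hinf p}
  add_mem' := fun hp hq => hp.add' hq
  zero_mem' := hinf_const 0
  smul_mem' := fun c _ hp => (hinf_const c).mul' hp

theorem exists_rep {ρ : ℂ → ℝ} (hm : Measurable ρ) (h0 : ∀ z, 0 ≤ ρ z) (h1 : ∀ z, ρ z ≤ 1)
    (h : BPE ρ) : ∃ r C : ℝ, 0 < r ∧ r ≤ 1 ∧ 0 ≤ C ∧ ∀ w ∈ ball (0 : ℂ) r, ∀ w' ∈ ball (0 : ℂ) r,
      ∃ χ : ℂ → ℂ, Test χ ∧ (∀ z, ‖χ z‖ ≤ C) ∧ ∀ p : ℂ → ℂ, Hinf p →
        ∫ z in ball (0 : ℂ) 1, χ z * ρ z * p z = dslope p w w' := by
  obtain ⟨r0, C, hr0, hr1, hC⟩ := h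
  set μ : Measure ℂ := volume.restrict (ball (0 : ℂ) 1) with hμ
  have : IsFiniteMeasure μ := isFiniteMeasure_restrict.2 measure_ball_lt_top.ne
  have hρ : IntegrableOn (fun z => (ρ z : ℂ)) (ball 0 1) :=
    Integrable.of_bound (C := 1) (by fun_prop : Measurable fun z => (ρ z : ℂ)).aestronglyMeasurable
      (Filter.Eventually.of_forall fun z => by
        rw [Complex.norm_real, Real.norm_of_nonneg (h0 z)]; exact h1 z)
  have hint : ∀ p : HinfSub, Integrable (fun z => (ρ z : ℂ) * p.1 z) μ := fun p =>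
    Hinf.integrableOn_mul p.2 hρ
  let A : HinfSub →ₗ[ℂ] Lp ℂ 1 μ :=
    { toFun := fun p => (hint p).toL1 _
      map_add' := fun p q => by
        rw [← Integrable.toL1_add]
        congr 1
        funext z
        simp [mul_add]
      map_smul' := fun c p => by
        rw [RingHom.id_apply, ← Integrable.toL1_smul]
        congr 1
        funext z
        simp [mul_left_comm] }
  have hA : ∀ p : HinfSub, ‖A p‖ = ∫ z in ball (0 : ℂ) 1, ρ z * ‖p.1 z‖ := fun p => by
    change ‖(hint p).toL1 _‖ = _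
    rw [Integrable.norm_toL1_eq_lintegral_enorm, ← integral_norm_eq_lintegral_enorm (hint p).1]
    simp only [norm_mul, Complex.norm_real, Real.norm_of_nonneg (h0 _), hμ]
  refine ⟨r0 / 4, 2 * |C| / (r0 / 2), by positivity, by linarith, by positivity,
    fun w hw w' hw' => ?_⟩
  rw [mem_ball_zero_iff] at hw hw'
  have hsub : ball w (r0 / 2) ⊆ ball (0 : ℂ) r0 :=
    ball_subset_ball' (by rw [dist_zero_right]; linarith)
  have hw1 : w ∈ ball (0 : ℂ) 1 := mem_ball_zero_iff.2 (by linarith)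
  have hd : ∀ p : HinfSub, DifferentiableAt ℂ p.1 w := fun p =>
    p.2.diff.differentiableAt (isOpen_ball.mem_nhds hw1)
  let l : HinfSub →ₗ[ℂ] ℂ :=
    { toFun := fun p => dslope p.1 w w'
      map_add' := fun p q => by
        rcases eq_or_ne w' w with rfl | hne
        · simp only [dslope_same]
          exact deriv_add (hd p) (hd q)
        · simp only [dslope_of_ne _ hne, slope_def_field, Submodule.coe_add, Pi.add_apply]
          ring
      map_smul' := fun c p => by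
        rcases eq_or_ne w' w with rfl | hne
        · simp only [dslope_same]
          exact deriv_const_smul c (hd p)
        · simp only [dslope_of_ne _ hne, slope_def_field, Submodule.coe_smul, Pi.smul_apply,
            smul_eq_mul, RingHom.id_apply]
          ring }
  have hl : ∀ p : HinfSub, ‖l p‖ ≤ 2 * |C| / (r0 / 2) * ‖A p‖ := fun p => by
    have hb : ∀ y ∈ ball (0 : ℂ) r0, ‖p.1 y‖ ≤ |C| * ‖A p‖ := fun y hy => by
      refine (hC p.1 p.2 y hy).trans ?_
      rw [← hA]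
      exact mul_le_mul_of_nonneg_right (le_abs_self C) (norm_nonneg _)
    have h2 : ‖dslope p.1 w w'‖ ≤ 2 * |C| * ‖A p‖ / (r0 / 2) := by
      refine Complex.norm_dslope_le_div_of_mapsTo_ball
        (p.2.diff.mono (hsub.trans (ball_subset_ball hr1))) (fun y hy => ?_) ?_
      · rw [mem_closedBall, dist_eq_norm]
        have := norm_sub_le (p.1 y) (p.1 w)
        linarith [hb y (hsub hy), hb w (hsub (mem_ball_self (by positivity)))]
      · rw [mem_ball, dist_eq_norm]
        linarith [norm_sub_le w' w]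
    rwa [div_mul_eq_mul_div]
  obtain ⟨m, hm1, hm2⟩ := exists_dual_of_le A l (by positivity) hl
  obtain ⟨φ, hφm, hφb, hφ⟩ := dual_L1 μ m
  have hb : ∀ z, ‖(ball (0 : ℂ) 1).indicator φ z‖ ≤ 2 * |C| / (r0 / 2) := fun z =>
    (norm_indicator_le_norm_self _ _).trans ((hφb z).trans hm1)
  refine ⟨(ball (0 : ℂ) 1).indicator φ, ⟨hφm.indicator measurableSet_ball, ⟨_, hb⟩,
    fun z hz => indicator_of_notMem (by simpa using hz) _⟩, hb, fun p hp => ?_⟩
  refine Eq.trans ?_ (hm2 ⟨p, hp⟩)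
  rw [hφ]
  refine integral_congr_ae ?_
  filter_upwards [(hint ⟨p, hp⟩).coeFn_toL1, ae_restrict_mem measurableSet_ball] with z hz hz'
  rw [indicator_of_mem hz', mul_assoc]
  exact congrArg _ hz.symm

end Pool.Agent.P.MP_f981b0_an.TB
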