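import Pool.Agent.P.MP_f981b0_an.TB.Defs

set_option autoImplicit false

noncomputable section

namespace Pool.Agent.P.MP_f981b0_an.TB

open MeasureTheory Metric Set R1
open scoped CompactlySupported

/-- Minimax by separation: if every nonzero finite measure sees a member of the convex set `A`
with mean below `c`, then a member of `A` is below `c` everywhere. -/
lemma exists_lt_of_forall_measure {K : Type*} [TopologicalSpace K] [CompactSpace K] [T2Space K]
    [MeasurableSpace K] [BorelSpace K] {A : Set C(K, ℝ)} (hA : Convex ℝ A) (hne : A.Nonempty)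
    {c : ℝ} (h : ∀ (τ : Measure K) [IsFiniteMeasure τ], 0 < τ.real univ →
      ∃ g ∈ A, ∫ x, g x ∂τ < c * τ.real univ) : ∃ g ∈ A, ∀ x, g x < c := by
  by_contra hcon
  set B : Set C(K, ℝ) := {g | MapsTo g univ (Iio c)} with hB
  have hBo : IsOpen B := ContinuousMap.isOpen_setOfPred_mapsTo isCompact_univ isOpen_Iio
  have hBc : Convex ℝ B := fun g hg g' hg' a b ha hb hab x hx =>
    convex_Iio c (hg hx) (hg' hx) ha hb hab
  have hd : Disjoint B A := disjoint_left.2 fun g hg hg' => hcon ⟨g, hg', fun x => hg trivial⟩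
  obtain ⟨l, u, hl1, hl2⟩ := geometric_hahn_banach_open hBc hBo hA hd
  have hpos : ∀ g : C(K, ℝ), 0 ≤ g → 0 ≤ l g := by
    intro g hg
    by_contra hneg
    push Not at hneg
    set b : C(K, ℝ) := ContinuousMap.const K (c - 1) with hb
    have h1 : l b < u := hl1 b fun x _ => by simp [hb]
    have h2 := hl1 (b - ((u - l b) / (-l g)) • g) fun x _ => by
      have : 0 ≤ (u - l b) / (-l g) * g x :=
        mul_nonneg (div_nonneg (by linarith) (by linarith)) (hg x)
      simp only [hb, mem_Iio, ContinuousMap.sub_apply, ContinuousMap.const_apply,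
        ContinuousMap.smul_apply, smul_eq_mul] at this ⊢
      linarith
    rw [map_sub, map_smul, smul_eq_mul, div_neg, neg_mul, div_mul_cancel₀ _ hneg.ne] at h2
    linarith
  let Λ : C_c(K, ℝ) →ₚ[ℝ] ℝ :=
    { toFun := fun g => l g.toContinuousMap
      map_add' := fun g g' => map_add l g.toContinuousMap g'.toContinuousMap
      map_smul' := fun a g => map_smul l a g.toContinuousMap
      monotone' := fun g g' hgg' => by
        have := hpos (g'.toContinuousMap - g.toContinuousMap) fun x => sub_nonneg.2 (hgg' x)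
        rw [map_sub] at this
        exact sub_nonneg.1 this }
  set τ := RealRMK.rieszMeasure Λ with hτ
  have hint : ∀ g : C(K, ℝ), ∫ x, g x ∂τ = l g := fun g =>
    RealRMK.integral_rieszMeasure Λ ⟨g, HasCompactSupport.of_compactSpace _⟩
  have hconst : ∀ a : ℝ, a < c → a * τ.real univ < u := fun a ha => by
    have := hl1 (ContinuousMap.const K a) fun x _ => ha
    rw [← hint] at this
    simpa [mul_comm] using this
  rcases (measureReal_nonneg (μ := τ) (s := univ)).eq_or_lt with h0 | h0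
  · obtain ⟨g, hg⟩ := hne
    have h1 : τ = 0 := by
      rw [← Measure.measure_univ_eq_zero]
      exact (measureReal_eq_zero_iff (measure_ne_top _ _)).1 h0.symm
    have h2 := hconst (c - 1) (by linarith)
    have h3 := hl2 g hg
    rw [← hint, h1] at h3
    rw [← h0] at h2
    simp at h2 h3
    linarith
  · obtain ⟨g, hg, hlt⟩ := h τ h0
    have h2 := hconst ((∫ x, g x ∂τ) / τ.real univ) (by rwa [div_lt_iff₀ h0])
    have h3 := hl2 g hg
    rw [div_mul_cancel₀ _ h0.ne', hint] at h2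
    linarith

lemma Dens.integrable {h : ℂ → ℝ} (hh : Dens h) : Integrable h := by
  obtain ⟨B, hB⟩ := hh.bdd
  refine Integrable.mono' (g := (ball (0 : ℂ) 1).indicator fun _ => B)
    ((integrable_indicator_iff measurableSet_ball).2 (integrableOn_const measure_ball_lt_top.ne))
    hh.meas.aestronglyMeasurable (Filter.Eventually.of_forall fun z => ?_)
  rw [Real.norm_of_nonneg (hh.nonneg z)]
  by_cases hz : z ∈ ball (0 : ℂ) 1
  · rw [indicator_of_mem hz]
    exact hB z
  · rw [indicator_of_notMem hz, hh.supp z (by simpa using hz)]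

lemma Dens.test {h : ℂ → ℝ} (hh : Dens h) {f : ℂ → ℂ} (hf : Measurable f) (h1 : ∀ z, ‖f z‖ ≤ 1) :
    Test fun z => f z * (h z : ℝ) := by
  obtain ⟨B, hB⟩ := hh.bdd
  have := hh.meas
  refine ⟨by fun_prop, ⟨B, fun z => ?_⟩, fun z hz => by simp [hh.supp z hz]⟩
  rw [norm_mul, Complex.norm_real, Real.norm_of_nonneg (hh.nonneg z)]
  exact (mul_le_of_le_one_left (hh.nonneg z) (h1 z)).trans (hB z)

lemma Dens.comb {h h' : ℂ → ℝ} (hh : Dens h) (hh' : Dens h') {a b : ℝ} (ha : 0 ≤ a) (hb : 0 ≤ b) :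
    Dens fun z => a * h z + b * h' z := by
  obtain ⟨B, hB⟩ := hh.bdd
  obtain ⟨B', hB'⟩ := hh'.bdd
  have := hh.meas
  have := hh'.meas
  exact ⟨by fun_prop, fun z => add_nonneg (mul_nonneg ha (hh.nonneg z))
    (mul_nonneg hb (hh'.nonneg z)), ⟨a * B + b * B', fun z => add_le_add
      (mul_le_mul_of_nonneg_left (hB z) ha) (mul_le_mul_of_nonneg_left (hB' z) hb)⟩,
    fun z hz => by simp [hh.supp z hz, hh'.supp z hz]⟩

lemma Dens.indicator {w : ℂ → ℝ} (hw : Dens w) {G : Set ℂ} (hG : MeasurableSet G) :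
    Dens (G.indicator w) := by
  obtain ⟨B, hB⟩ := hw.bdd
  exact ⟨hw.meas.indicator hG, fun z => indicator_nonneg (fun z _ => hw.nonneg z) z,
    ⟨B, fun z => (indicator_le_self' (fun z _ => hw.nonneg z) z).trans (hB z)⟩,
    fun z hz => by simp [Set.indicator, hw.supp z hz]⟩

lemma dens_of_good {ρ : ℂ → ℝ} {c C ε : ℝ} {w : ℂ → ℝ} (hw : TC.Good ρ c C ε w) : Dens w :=
  ⟨hw.meas, hw.nonneg, hw.bdd, hw.supp⟩

lemma cauchy_comb {h h' : ℂ → ℝ} (hh : Dens h) (hh' : Dens h') {f : ℂ → ℂ} (hf : Measurable f)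
    (h1 : ∀ z, ‖f z‖ ≤ 1) {a b : ℝ} (ha : 0 ≤ a) (hb : 0 ≤ b) (hab : a + b = 1) (ζ : ℂ) :
    ‖cauchy (fun z => f z * ((a * h z + b * h' z : ℝ) : ℂ)) ζ‖ ^ 2 ≤
      a * ‖cauchy (fun z => f z * (h z : ℝ)) ζ‖ ^ 2 +
        b * ‖cauchy (fun z => f z * (h' z : ℝ)) ζ‖ ^ 2 := by
  have e : cauchy (fun z => f z * ((a * h z + b * h' z : ℝ) : ℂ)) ζ =
      a * cauchy (fun z => f z * (h z : ℝ)) ζ + b * cauchy (fun z => f z * (h' z : ℝ)) ζ := by
    unfold cauchy
    rw [← integral_const_mul, ← integral_const_mul, ← integral_add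
      ((integrable_cauchy (hh.test hf h1) ζ).const_mul _)
      ((integrable_cauchy (hh'.test hf h1) ζ).const_mul _)]
    congr 1
    funext z
    push_cast
    ring
  rw [e]
  generalize cauchy (fun z => f z * (h z : ℝ)) ζ = x
  generalize cauchy (fun z => f z * (h' z : ℝ)) ζ = y
  have h2 : ‖a * x + b * y‖ ≤ a * ‖x‖ + b * ‖y‖ := by
    refine (norm_add_le _ _).trans ?_
    simp [abs_of_nonneg ha, abs_of_nonneg hb]
  refine (pow_le_pow_left₀ (norm_nonneg _) h2 2).trans ?_
  obtain rfl : b = 1 - a := by linarith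
  nlinarith [mul_nonneg (mul_nonneg ha hb) (sq_nonneg (‖x‖ - ‖y‖))]

lemma cauchy_far {h : ℂ → ℝ} (hh : Dens h) {C : ℝ} (hC : 0 < C) (hm : ∫ z, h z ≤ C)
    {f : ℂ → ℂ} (hf : Measurable f) (h1 : ∀ z, ‖f z‖ ≤ 1) {ζ : ℂ} (hζ : 2 ≤ ‖ζ‖) :
    ‖cauchy (fun z => f z * (h z : ℝ)) ζ‖ ^ 2 ≤ C * ∫ z, ‖f z‖ ^ 2 * h z := by
  have hi := hh.integrable
  have hi1 : Integrable fun z => ‖f z‖ * h z :=
    hi.bdd_mul (c := 1) hf.norm.aestronglyMeasurable
      (Filter.Eventually.of_forall fun z => by simpa using h1 z)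
  have hi2 : Integrable fun z => ‖f z‖ ^ 2 * h z :=
    hi.bdd_mul (c := 1) (hf.norm.pow_const 2).aestronglyMeasurable
      (Filter.Eventually.of_forall fun z => by simpa using h1 z)
  set a := ∫ z, ‖f z‖ * h z with ha
  have h2 : ‖cauchy (fun z => f z * (h z : ℝ)) ζ‖ ≤ a := by
    refine norm_integral_le_of_norm_le hi1 (Filter.Eventually.of_forall fun z => ?_)
    rw [norm_div, norm_mul, Complex.norm_real, Real.norm_of_nonneg (hh.nonneg z)]
    rcases le_or_gt 1 ‖z‖ with hz | hz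
    · simp [hh.supp z hz]
    · refine div_le_self (mul_nonneg (norm_nonneg _) (hh.nonneg z)) ?_
      have := norm_sub_norm_le ζ z
      rw [norm_sub_rev] at this
      linarith
  have h3 : ∫ z, 2 * a * C * (‖f z‖ * h z) ≤ ∫ z, (C ^ 2 * (‖f z‖ ^ 2 * h z) + a ^ 2 * h z) := by
    refine integral_mono (hi1.const_mul _) ((hi2.const_mul _).add (hi.const_mul _)) fun z => ?_
    have := mul_nonneg (sq_nonneg (C * ‖f z‖ - a)) (hh.nonneg z)
    simp only
    nlinarith
  rw [integral_add (hi2.const_mul _) (hi.const_mul _), integral_const_mul, integral_const_mul,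
    integral_const_mul, ← ha] at h3
  refine (pow_le_pow_left₀ (norm_nonneg _) h2 2).trans ?_
  have h4 := mul_le_mul_of_nonneg_left hm (sq_nonneg a)
  refine le_of_mul_le_mul_left ?_ hC
  nlinarith

theorem good_sup {ρ : ℂ → ℝ} {c C ε : ℝ} (hC : 0 < C) {w : ℂ → ℝ} (hw : TC.Good ρ c C ε w)
    {ι : Type} (s : Finset ι)
    (f : ι → ℂ → ℂ) (hf : ∀ i, Measurable (f i)) (h1 : ∀ z, ∑ i ∈ s, ‖f i z‖ ^ 2 ≤ 1)
    {δ : ℝ} (hδ : 0 < δ) :
    ∃ h : ℂ → ℝ, Dens h ∧ (∀ z, h z ≤ w z) ∧ (∫ z, w z) - δ ≤ ∫ z, h z ∧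
      ∀ ζ, ∑ i ∈ s, ‖cauchy (fun z => f i z * (h z : ℝ)) ζ‖ ^ 2 ≤
        C * (1 + C / δ) + C ^ 2 + 1 := by
  have hwd := dens_of_good hw
  have hf1 : ∀ i ∈ s, ∀ z, ‖f i z‖ ≤ 1 := fun i hi z => by
    have := (Finset.single_le_sum (f := fun i => ‖f i z‖ ^ 2) (fun _ _ => sq_nonneg _) hi).trans
      (h1 z)
    exact (sq_le_one_iff₀ (norm_nonneg _)).1 this
  have : CompactSpace (closedBall (0 : ℂ) 2) :=
    isCompact_iff_compactSpace.1 (isCompact_closedBall 0 2)
  have hcont : ∀ h, Dens h → ∀ i ∈ s,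
      Continuous fun ζ => ‖cauchy (fun z => f i z * (h z : ℝ)) ζ‖ ^ 2 := fun h hh i hi =>
    (continuous_cauchy (hh.test (hf i) (hf1 i hi))).norm.pow 2
  let Φ : ∀ h, Dens h → C(closedBall (0 : ℂ) 2, ℝ) := fun h hh =>
    ⟨fun x => ∑ i ∈ s, ‖cauchy (fun z => f i z * (h z : ℝ)) x‖ ^ 2,
      continuous_finsetSum s fun i hi => (hcont h hh i hi).comp continuous_subtype_val⟩
  let A : Set C(closedBall (0 : ℂ) 2, ℝ) := {g | ∃ h : ℂ → ℝ, Dens h ∧ (∀ z, h z ≤ w z) ∧
    (∫ z, w z) - δ ≤ ∫ z, h z ∧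
      ∀ x : closedBall (0 : ℂ) 2, ∑ i ∈ s, ‖cauchy (fun z => f i z * (h z : ℝ)) x‖ ^ 2 ≤ g x}
  have hA : Convex ℝ A := by
    rintro g ⟨h, hh, hw1, hm1, hg⟩ g' ⟨h', hh', hw2, hm2, hg'⟩ a b ha hb hab
    refine ⟨fun z => a * h z + b * h' z, hh.comb hh' ha hb, fun z => ?_, ?_, fun x => ?_⟩
    · have := add_le_add (mul_le_mul_of_nonneg_left (hw1 z) ha)
        (mul_le_mul_of_nonneg_left (hw2 z) hb)
      rwa [← add_mul, hab, one_mul] at this
    · rw [integral_add (hh.integrable.const_mul _) (hh'.integrable.const_mul _),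
        integral_const_mul, integral_const_mul]
      have := add_le_add (mul_le_mul_of_nonneg_left hm1 ha) (mul_le_mul_of_nonneg_left hm2 hb)
      rwa [← add_mul, hab, one_mul] at this
    · refine (Finset.sum_le_sum fun i hi =>
        cauchy_comb hh hh' (hf i) (hf1 i hi) ha hb hab x).trans ?_
      rw [Finset.sum_add_distrib, ← Finset.mul_sum, ← Finset.mul_sum]
      exact add_le_add (mul_le_mul_of_nonneg_left (hg x) ha)
        (mul_le_mul_of_nonneg_left (hg' x) hb)
  obtain ⟨g, ⟨h, hh, hw1, hm1, hg⟩, hlt⟩ := exists_lt_of_forall_measure hA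
    ⟨Φ w hwd, w, hwd, fun _ => le_rfl, by linarith, fun _ => le_rfl⟩
    (c := C * (1 + C / δ) + 1) fun τ _ hτ => by
      have hu : (τ.map Subtype.val).real univ = τ.real univ := by
        rw [map_measureReal_apply measurable_subtype_coe MeasurableSet.univ, preimage_univ]
      obtain ⟨G, hG, hG1, hG2⟩ := hw.bound (τ.map Subtype.val) (C * τ.real univ / δ)
        (by positivity)
      rw [hu] at hG1
      have hd := hwd.indicator hG
      refine ⟨Φ _ hd, ⟨_, hd, indicator_le_self' (fun z _ => hwd.nonneg z), ?_,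
        fun _ => le_rfl⟩, ?_⟩
      · rw [integral_indicator hG, ← integral_add_compl hG hwd.integrable]
        have : C * τ.real univ / (C * τ.real univ / δ) = δ := by field_simp
        linarith
      · have h2 := hG2 ι s (fun i => G.indicator (f i)) (fun i => (hf i).indicator hG) fun z => by
          by_cases hz : z ∈ G
          · simpa [hz] using h1 z
          · simp [hz]
        have h3 : ∀ i, (fun x => G.indicator (f i) x * (w x : ℂ)) =
            fun z => f i z * (G.indicator w z : ℝ) := fun i => by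
          funext z
          by_cases hz : z ∈ G <;> simp [hz]
        simp only [h3, hu] at h2
        have h4 : ∫ x, Φ _ hd x ∂τ = ∑ i ∈ s, ∫ z,
            ‖cauchy (fun z => f i z * (G.indicator w z : ℝ)) z‖ ^ 2 ∂τ.map Subtype.val := by
          change ∫ x : closedBall (0 : ℂ) 2, ∑ i ∈ s, _ ∂τ = _
          rw [integral_finsetSum]
          · refine Finset.sum_congr rfl fun i hi => ?_
            rw [integral_map measurable_subtype_coe.aemeasurable
              (hcont _ hd i hi).aestronglyMeasurable]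
          · intro i hi
            exact ((hcont _ hd i hi).comp continuous_subtype_val).integrable_of_hasCompactSupport
              (HasCompactSupport.of_compactSpace _)
        rw [h4]
        refine h2.trans_lt ?_
        have : C * (τ.real univ + C * τ.real univ / δ) = C * (1 + C / δ) * τ.real univ := by
          ring
        rw [this, add_mul]
        linarith
  refine ⟨h, hh, hw1, hm1, fun ζ => ?_⟩
  rcases le_total ‖ζ‖ 2 with hζ | hζ
  · have := (hg ⟨ζ, mem_closedBall_zero_iff.2 hζ⟩).trans (hlt _).le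
    nlinarith
  · have hm : ∫ z, h z ≤ C := (integral_mono hh.integrable hwd.integrable hw1).trans hw.mass_le
    have hi : ∀ i ∈ s, Integrable fun z => ‖f i z‖ ^ 2 * h z := fun i hi =>
      hh.integrable.bdd_mul (c := 1) ((hf i).norm.pow_const 2).aestronglyMeasurable
        (Filter.Eventually.of_forall fun z => by simpa using hf1 i hi z)
    refine (Finset.sum_le_sum fun i hi => cauchy_far hh hC hm (hf i) (hf1 i hi) hζ).trans ?_
    rw [← Finset.mul_sum, ← integral_finsetSum _ hi]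
    have h2 : ∫ z, ∑ i ∈ s, ‖f i z‖ ^ 2 * h z ≤ ∫ z, h z := by
      refine integral_mono (integrable_finsetSum _ hi) hh.integrable fun z => ?_
      simp only [← Finset.sum_mul]
      exact mul_le_of_le_one_left (hh.nonneg z) (h1 z)
    have h3 : 0 ≤ C * (1 + C / δ) := by positivity
    nlinarith

theorem cheap2_of_not_bpe (H : TC.GoodOfRoute) {ρ : ℂ → ℝ} (hm : Measurable ρ) (h0 : ∀ z, 0 ≤ ρ z)
    (h1 : ∀ z, ρ z ≤ 1) (h : ¬ BPE ρ) : Cheap2 ρ := by
  obtain ⟨c, C, ε0, hc, hC, hε0, H⟩ := H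
  have : IsFiniteMeasure (volume.restrict (ball (0 : ℂ) 1)) :=
    isFiniteMeasure_restrict.2 measure_ball_lt_top.ne
  have hρ : IntegrableOn ρ (ball 0 1) :=
    Integrable.of_bound (C := 1) hm.aestronglyMeasurable
      (Filter.Eventually.of_forall fun z => by rw [Real.norm_of_nonneg (h0 z)]; exact h1 z)
  have hR := (bpe_or_route ρ hρ h0).resolve_left h
  refine ⟨√(C * (1 + C / (c / 2)) + C ^ 2 + 1), c / 2, Real.sqrt_nonneg _, by positivity,
    fun ε hε => ?_⟩
  have hε' : 0 < min ε0 (ε / C) := lt_min hε0 (by positivity)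
  obtain ⟨w, hw⟩ := H ρ hρ h0 _ hε' (min_le_left _ _) (hR _ hε')
  refine ⟨w, dens_of_good hw, ?_, fun s f hf hs => ?_⟩
  · rw [← setIntegral_eq_integral_of_forall_compl_eq_zero (s := ball (0 : ℂ) 1)
      fun z hz => by rw [hw.supp z (by simpa using hz), mul_zero]]
    refine hw.cost.trans ?_
    rw [mul_comm, ← le_div_iff₀ hC]
    exact min_le_right _ _
  · obtain ⟨g, hg, hg1, hg2, hg3⟩ := good_sup hC hw s f hf hs (half_pos hc)
    refine ⟨g, hg, hg1, by linarith [hw.mass_ge], fun ζ => ?_⟩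
    rw [Real.sq_sqrt (by positivity)]
    exact hg3 ζ

end Pool.Agent.P.MP_f981b0_an.TB
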