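import Pool.Agent.P.MP_f981b0_an.TB.Rad
import Pool.Agent.P.MP_f981b0_an.TB.Sup
import Pool.Agent.P.MP_f981b0_an.TB.Rep

set_option autoImplicit false

noncomputable section

namespace Pool.Agent.P.MP_f981b0_an.TB

open MeasureTheory Metric Set Filter Topology R1

section Ell2

variable {ι : Type*}

theorem norm_sum_mul_le (s : Finset ι) (c x : ι → ℂ) {A B : ℝ} (hA : 0 ≤ A) (hB : 0 ≤ B)
    (hc : ∑ i ∈ s, ‖c i‖ ^ 2 ≤ A ^ 2) (hx : ∑ i ∈ s, ‖x i‖ ^ 2 ≤ B ^ 2) :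
    ‖∑ i ∈ s, c i * x i‖ ≤ A * B := by
  have h1 : ‖∑ i ∈ s, c i * x i‖ ≤ ∑ i ∈ s, ‖c i‖ * ‖x i‖ :=
    (norm_sum_le _ _).trans (Finset.sum_le_sum fun i _ => (norm_mul _ _).le)
  have h2 := Finset.sum_mul_sq_le_sq_mul_sq s (fun i => ‖c i‖) fun i => ‖x i‖
  have h3 : (∑ i ∈ s, ‖c i‖ ^ 2) * ∑ i ∈ s, ‖x i‖ ^ 2 ≤ A ^ 2 * B ^ 2 :=
    mul_le_mul hc hx (Finset.sum_nonneg fun i _ => by positivity) (by positivity)
  refine h1.trans (abs_le_of_sq_le_sq' ?_ (by positivity)).2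
  rw [mul_pow]
  exact h2.trans h3

theorem sum_sq_le_of_dual (s : Finset ι) (x : ι → ℂ) {M : ℝ} (hM : 0 ≤ M)
    (h : ∀ c : ι → ℂ, ∑ i ∈ s, ‖c i‖ ^ 2 ≤ 1 → ‖∑ i ∈ s, c i * x i‖ ≤ M) :
    ∑ i ∈ s, ‖x i‖ ^ 2 ≤ M ^ 2 := by
  set S := ∑ i ∈ s, ‖x i‖ ^ 2 with hS
  have hS0 : 0 ≤ S := Finset.sum_nonneg fun i _ => by positivity
  rcases hS0.eq_or_lt with h0 | h0
  · rw [← h0]
    positivity
  have hq : 0 < √S := Real.sqrt_pos.2 h0
  have h1 := h (fun i => ((√S)⁻¹ : ℝ) * (starRingEnd ℂ) (x i)) (by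
    simp only [norm_mul, Complex.norm_real, Complex.norm_conj, mul_pow, Real.norm_eq_abs, sq_abs]
    rw [← Finset.mul_sum, ← hS, inv_pow, Real.sq_sqrt hS0, inv_mul_cancel₀ h0.ne'])
  have h2 : ∑ i ∈ s, (((√S)⁻¹ : ℝ) : ℂ) * (starRingEnd ℂ) (x i) * x i = ((√S : ℝ) : ℂ) := by
    have : ∀ i, (((√S)⁻¹ : ℝ) : ℂ) * (starRingEnd ℂ) (x i) * x i =
        (((√S)⁻¹ * ‖x i‖ ^ 2 : ℝ) : ℂ) := fun i => by
      rw [mul_assoc, Complex.conj_mul']
      push_cast
      ring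
    simp only [this]
    rw [← Complex.ofReal_sum, ← Finset.mul_sum, ← hS]
    congr 1
    field_simp
    exact (Real.sq_sqrt hS0).symm
  rw [h2, Complex.norm_real, Real.norm_of_nonneg hq.le] at h1
  calc S = √S ^ 2 := (Real.sq_sqrt hS0).symm
    _ ≤ M ^ 2 := by gcongr

theorem norm_le_of_sum_sq {s : Finset ι} {x : ι → ℂ} {M : ℝ} (hM : 0 ≤ M)
    (h : ∑ i ∈ s, ‖x i‖ ^ 2 ≤ M ^ 2) {i : ι} (hi : i ∈ s) : ‖x i‖ ≤ M :=
  (abs_le_of_sq_le_sq' ((Finset.single_le_sum (f := fun i => ‖x i‖ ^ 2)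
    (fun _ _ => by positivity) hi).trans h) hM).2

end Ell2

section Tests

theorem test_mul {χ d : ℂ → ℂ} (h : Test χ) (hd : Measurable d) {B : ℝ}
    (hB : ∀ z, ‖z‖ < 1 → ‖d z‖ ≤ B) : Test fun z => χ z * d z := by
  obtain ⟨A, hA⟩ := h.bdd
  have hA0 : 0 ≤ A := (norm_nonneg _).trans (hA 0)
  have hB0 : 0 ≤ B := (norm_nonneg _).trans (hB 0 (by simp))
  refine ⟨h.meas.mul hd, ⟨A * B, fun z => ?_⟩, fun z hz => by simp [h.supp z hz]⟩
  by_cases hz : 1 ≤ ‖z‖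
  · simp only [h.supp z hz, zero_mul, norm_zero]
    positivity
  · rw [norm_mul]
    exact mul_le_mul (hA z) (hB z (not_le.1 hz)) (norm_nonneg _) hA0

theorem test_const_mul {χ : ℂ → ℂ} (h : Test χ) (c : ℂ) : Test fun z => c * χ z := by
  simpa only [mul_comm c] using test_mul h (d := fun _ => c) measurable_const (B := ‖c‖)
    fun _ _ => le_rfl

theorem test_sub_mul {χ : ℂ → ℂ} (h : Test χ) (w : ℂ) : Test fun z => (z - w) * χ z := by
  simpa only [mul_comm (χ _)] using test_mul h (d := fun z => z - w) (by fun_prop)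
    (B := 1 + ‖w‖) fun z hz => (norm_sub_le _ _).trans (by linarith)

theorem test_sum {ι : Type*} (s : Finset ι) {φ : ι → ℂ → ℂ} (h : ∀ i, Test (φ i)) :
    Test fun z => ∑ i ∈ s, φ i z := by
  choose B hB using fun i => (h i).bdd
  exact ⟨Finset.measurable_sum _ fun i _ => (h i).meas, ⟨∑ i ∈ s, B i, fun z =>
    (norm_sum_le _ _).trans (Finset.sum_le_sum fun i _ => hB i z)⟩,
    fun z hz => Finset.sum_eq_zero fun i _ => (h i).supp z hz⟩

theorem test_intOn {φ : ℂ → ℂ} (h : Test φ) : IntegrableOn φ (ball 0 1) := by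
  obtain ⟨B, hB⟩ := h.bdd
  exact Measure.integrableOn_of_bounded measure_ball_lt_top.ne h.meas.aestronglyMeasurable
    (Eventually.of_forall hB)

theorem test_setIntegral {φ : ℂ → ℂ} (h : Test φ) : ∫ z in ball (0 : ℂ) 1, φ z = ∫ z, φ z :=
  setIntegral_eq_integral_of_forall_compl_eq_zero fun z hz => h.supp z (by simpa using hz)

theorem test_integrable {φ : ℂ → ℂ} (h : Test φ) : Integrable φ :=
  (test_intOn h).integrable_of_forall_notMem_eq_zero fun z hz => h.supp z (by simpa using hz)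

theorem Dens.const_mul {g : ℂ → ℝ} (h : Dens g) {c : ℝ} (hc : 0 ≤ c) : Dens fun z => c * g z := by
  obtain ⟨B, hB⟩ := h.bdd
  exact ⟨h.meas.const_mul c, fun z => mul_nonneg hc (h.nonneg z),
    ⟨c * B, fun z => mul_le_mul_of_nonneg_left (hB z) hc⟩, fun z hz => by simp [h.supp z hz]⟩

theorem Dens.intOn_mul {g γ : ℂ → ℝ} (h : Dens g) (hγ : IntegrableOn γ (ball 0 1)) :
    IntegrableOn (fun z => g z * γ z) (ball 0 1) := by
  obtain ⟨B, hB⟩ := h.bdd
  exact hγ.bdd_mul (c := B) h.meas.aestronglyMeasurable (Eventually.of_forall fun z => by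
    rw [Real.norm_of_nonneg (h.nonneg z)]
    exact hB z)

theorem dens_indicator {c : ℝ} (hc : 0 ≤ c) : Dens ((ball (0 : ℂ) 1).indicator fun _ => c) :=
  ⟨measurable_const.indicator measurableSet_ball, fun z => indicator_nonneg (fun _ _ => hc) z,
    ⟨c, fun z => indicator_le' (fun _ _ => le_rfl) (fun _ _ => hc) z⟩,
    fun z hz => indicator_of_notMem (by simpa using hz) _⟩

theorem norm_cauchy_le {φ : ℂ → ℂ} (h : Test φ) {B : ℝ} (hB : ∀ z, ‖φ z‖ ≤ B) (w : ℂ) :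
    ‖cauchy φ w‖ ≤ 10 * B := by
  have hB0 : 0 ≤ B := (norm_nonneg _).trans (hB 0)
  refine Dom.norm_integral_le (((dom_ball 0 w one_pos).const_mul hB0).mono (fun z => ?_)
    (by linarith))
  by_cases hz : z ∈ ball (0 : ℂ) 1
  · rw [indicator_of_mem hz, norm_div, div_eq_mul_inv]
    gcongr
    exact hB z
  · rw [indicator_of_notMem hz, h.supp z (by simpa using hz)]
    simp

theorem cauchy_const_mul (c : ℂ) (φ : ℂ → ℂ) (w : ℂ) :
    cauchy (fun z => c * φ z) w = c * cauchy φ w := by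
  simp only [cauchy, mul_div_assoc]
  exact integral_const_mul _ _

theorem cauchy_sum {ι : Type*} (s : Finset ι) (c : ι → ℂ) {φ : ι → ℂ → ℂ} (h : ∀ i, Test (φ i))
    (w : ℂ) : cauchy (fun z => ∑ i ∈ s, c i * φ i z) w = ∑ i ∈ s, c i * cauchy (φ i) w := by
  simp only [← cauchy_const_mul]
  simp only [cauchy, Finset.sum_div]
  exact integral_finsetSum _ fun i _ => integrable_cauchy (test_const_mul (h i) _) w

theorem cauchy_sub_mul {φ : ℂ → ℂ} (h : Test φ) (w ζ : ℂ) :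
    cauchy (fun z => (z - w) * φ z) ζ = (∫ z in ball (0 : ℂ) 1, φ z) + (ζ - w) * cauchy φ ζ := by
  rw [test_setIntegral h, cauchy, cauchy, ← integral_const_mul,
    ← integral_add (test_integrable h) ((integrable_cauchy h ζ).const_mul _)]
  refine integral_congr_ae ?_
  have : ∀ᵐ z : ℂ, z ≠ ζ := by simp [ae_iff]
  filter_upwards [this] with z hz
  have h1 := sub_ne_zero.2 hz
  field_simp
  ring

theorem sum_sq_cauchy_le {ι : Type*} (s : Finset ι) {φ : ι → ℂ → ℂ} (h : ∀ i, Test (φ i))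
    {B : ℝ} (hB0 : 0 ≤ B) (hB : ∀ z, ∑ i ∈ s, ‖φ i z‖ ^ 2 ≤ B ^ 2) (w : ℂ) :
    ∑ i ∈ s, ‖cauchy (φ i) w‖ ^ 2 ≤ (10 * B) ^ 2 := by
  refine sum_sq_le_of_dual s _ (by positivity) fun c hc => ?_
  rw [← cauchy_sum s c h]
  refine norm_cauchy_le (test_sum s fun i => test_const_mul (h i) _) (fun z => ?_) w
  simpa using norm_sum_mul_le s c (fun i => φ i z) zero_le_one hB0 (by simpa using hc) (hB z)

theorem sum_sq_cauchy_div_le {ι : Type*} (s : Finset ι) {φ : ι → ℂ → ℂ} (h : ∀ i, Test (φ i))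
    {D : ℝ} (hD0 : 0 ≤ D) (hD : ∀ ζ, ∑ i ∈ s, ‖cauchy (φ i) ζ‖ ^ 2 ≤ D ^ 2) {w : ℂ}
    (hw : w ∉ closedBall (0 : ℂ) 1) (ζ : ℂ) :
    ∑ i ∈ s, ‖cauchy (fun z => φ i z / (z - w)) ζ‖ ^ 2 ≤ (2 * D / (‖w - 0‖ - 1)) ^ 2 := by
  have hp := pos_of_notMem hw
  refine sum_sq_le_of_dual s _ (by positivity) fun c hc => ?_
  have ht : Test fun z => ∑ i ∈ s, c i * φ i z := test_sum s fun i => test_const_mul (h i) _
  rw [← cauchy_sum s c fun i => (h i).div hw]
  have : (fun z => ∑ i ∈ s, c i * (φ i z / (z - w))) =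
      fun z => (∑ i ∈ s, c i * φ i z) / (z - w) := by
    funext z
    simp only [Finset.sum_div, mul_div_assoc]
  rw [this, ← cauchy_div ht hw]
  refine norm_dslope_le hp ((differentiableOn_cauchy ht).mono ball_subset_compl) (fun z => ?_) _
  rw [cauchy_sum s c h]
  simpa using norm_sum_mul_le s c (fun i => cauchy (φ i) z) zero_le_one hD0 (by simpa using hc)
    (hD z)

end Tests

variable {X : Type*} [TopologicalSpace X] [CompactSpace X]
variable {E : Type*} [NormedAddCommGroup E] [NormedSpace ℂ E]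

omit [CompactSpace X] in
theorem cc_apply (a : C(X, ℂ)) {φ : ℂ → ℂ} (h : Test φ) (x : X) : cc a φ x = cauchy φ (a x) :=
  ContinuousMap.mkD_apply_of_continuous ((continuous_cauchy h).comp a.continuous)

omit [CompactSpace X] in
theorem cc_const_mul (a : C(X, ℂ)) {φ : ℂ → ℂ} (h : Test φ) (c : ℂ) :
    cc a (fun z => c * φ z) = c • cc a φ := by
  ext x
  rw [cc_apply a (test_const_mul h c), cauchy_const_mul, ContinuousMap.smul_apply, cc_apply a h,
    smul_eq_mul]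

omit [CompactSpace X] in
theorem cc_sub_mul (a : C(X, ℂ)) {φ : ℂ → ℂ} (h : Test φ) (w : ℂ) :
    cc a (fun z => (z - w) * φ z) =
      (∫ z in ball (0 : ℂ) 1, φ z) • 1 + (a * cc a φ - w • cc a φ) := by
  ext x
  rw [cc_apply a (test_sub_mul h w), cauchy_sub_mul h]
  simp only [ContinuousMap.add_apply, ContinuousMap.smul_apply, ContinuousMap.one_apply,
    ContinuousMap.sub_apply, ContinuousMap.mul_apply, cc_apply a h, smul_eq_mul]
  ring

omit [CompactSpace X] in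
theorem cc_div (a : C(X, ℂ)) {φ : ℂ → ℂ} (h : Test φ) {w : ℂ} (hw : w ∉ closedBall (0 : ℂ) 1) :
    cc a (fun z => φ z / (z - w)) = qq (cau h) a w := by
  ext x
  rw [cc_apply a (h.div hw), qq_apply a (diffAt_of_notMem (differentiableOn_cauchy h) hw)]
  exact (cauchy_div h hw _).symm

theorem norm_sum_smul_le (u : ℕ → E) (s : Finset ℕ) (c : ℕ → ℂ) {M : ℝ} (hM : 0 ≤ M)
    (hc : ∑ n ∈ s, ‖c n‖ ^ 2 ≤ M ^ 2) : ‖∑ n ∈ s, c n • u n‖ ≤ M * rad u s := by
  have hr : 0 ≤ rad u s := Real.sqrt_nonneg _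
  refine NormedSpace.norm_le_dual_bound ℂ _ (by positivity) fun e => ?_
  simp only [map_sum, map_smul, smul_eq_mul]
  refine (norm_sum_mul_le s c (fun n => e (u n)) hM (by positivity) hc
    (sum_sq_dual_le u s e)).trans_eq ?_
  ring

end Pool.Agent.P.MP_f981b0_an.TB
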