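import Pool.Agent.P.MP_f981b0_an.TB.Rad

set_option autoImplicit false

noncomputable section

namespace Pool.Agent.P.MP_f981b0_an.TB

open Metric Set R1 Filter Topology

variable {X : Type*} [TopologicalSpace X] [CompactSpace X]
variable {E : Type*} [NormedAddCommGroup E] [NormedSpace ℂ E]

/-- Composition of a continuous map into `E` with a functional. -/
def cmp (σ : C(X, E)) : StrongDual ℂ E →L[ℂ] C(X, ℂ) :=
  LinearMap.mkContinuous
    { toFun := fun e => ⟨fun x => e (σ x), e.continuous.comp σ.continuous⟩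
      map_add' := fun e e' => by ext x; simp
      map_smul' := fun c e => by ext x; simp } ‖σ‖ fun e => by
    refine (ContinuousMap.norm_le _ (by positivity)).2 fun x => ?_
    rw [mul_comm]
    exact (e.le_opNorm _).trans (mul_le_mul_of_nonneg_left (σ.norm_coe_le_norm x) (norm_nonneg _))

@[simp] theorem cmp_apply (σ : C(X, E)) (e : StrongDual ℂ E) (x : X) : cmp σ e x = e (σ x) := rfl

/-- Uniform approximation of a vector valued function by elementary tensors. -/
theorem exists_tensor_approx (σ : C(X, E)) {δ : ℝ} (hδ : 0 < δ) :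
    ∃ (s : Finset E) (ψ : E → C(X, ℂ)), ∀ x, ‖σ x - ∑ y ∈ s, ψ y x • y‖ ≤ δ := by
  obtain ⟨t, -, ht, hcov⟩ := finite_cover_balls_of_compact (isCompact_range σ.continuous) hδ
  set s := ht.toFinset
  let φ : E → X → ℝ := fun y x => max 0 (δ - ‖σ x - y‖)
  have hφ : ∀ y, Continuous (φ y) := fun y => by
    have := σ.continuous
    fun_prop
  have hφ0 : ∀ y x, 0 ≤ φ y x := fun y x => le_max_left _ _
  have hS : ∀ x, 0 < ∑ y ∈ s, φ y x := fun x => by
    obtain ⟨y, hy, hxy⟩ := mem_iUnion₂.1 (hcov (mem_range_self x))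
    refine Finset.sum_pos' (fun y _ => hφ0 y x) ⟨y, ht.mem_toFinset.2 hy, ?_⟩
    rw [mem_ball, dist_eq_norm] at hxy
    exact lt_max_of_lt_right (by linarith)
  have hc : ∀ y, Continuous fun x => ((φ y x / ∑ z ∈ s, φ z x : ℝ) : ℂ) := fun y =>
    Complex.continuous_ofReal.comp
      ((hφ y).div (continuous_finsetSum _ fun z _ => hφ z) fun x => (hS x).ne')
  refine ⟨s, fun y => ⟨_, hc y⟩, fun x => ?_⟩
  have h1 : ∑ y ∈ s, φ y x / ∑ z ∈ s, φ z x = 1 := by
    rw [← Finset.sum_div, div_self (hS x).ne']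
  have h2 : σ x - ∑ y ∈ s, ((φ y x / ∑ z ∈ s, φ z x : ℝ) : ℂ) • y =
      ∑ y ∈ s, ((φ y x / ∑ z ∈ s, φ z x : ℝ) : ℂ) • (σ x - y) := by
    simp only [smul_sub, Finset.sum_sub_distrib, ← Finset.sum_smul]
    rw [← Complex.ofReal_sum, h1]
    simp
  simp only [ContinuousMap.coe_mk]
  rw [h2]
  refine (norm_sum_le _ _).trans ?_
  calc ∑ y ∈ s, ‖((φ y x / ∑ z ∈ s, φ z x : ℝ) : ℂ) • (σ x - y)‖
      ≤ ∑ y ∈ s, (φ y x / ∑ z ∈ s, φ z x) * δ := by
        refine Finset.sum_le_sum fun y _ => ?_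
        have h0 : 0 ≤ φ y x / ∑ z ∈ s, φ z x := div_nonneg (hφ0 y x) (hS x).le
        rw [norm_smul, Complex.norm_real, Real.norm_of_nonneg h0]
        rcases le_total ‖σ x - y‖ δ with h | h
        · exact mul_le_mul_of_nonneg_left h h0
        · have : φ y x = 0 := max_eq_left (by linarith)
          simp [this]
    _ = δ := by rw [← Finset.sum_mul, h1, one_mul]

/-- Weak integration of a continuous vector valued function gives a compact operator. -/
theorem exists_compact_int [CompleteSpace E] (hE : Refl E) (σ : C(X, E))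
    (W : C(X, ℂ) →L[ℂ] E →L[ℂ] ℂ) :
    ∃ D : E →L[ℂ] E, IsCompactOperator D ∧ ∀ y (e : StrongDual ℂ E), e (D y) = W (cmp σ e) y := by
  let J := LinearIsometryEquiv.ofSurjective (NormedSpace.inclusionInDoubleDualLi ℂ (E := E)) hE
  let D : E →L[ℂ] E := (J.symm : StrongDual ℂ (StrongDual ℂ E) →L[ℂ] E).comp (W.comp (cmp σ)).flip
  have hD : ∀ y (e : StrongDual ℂ E), e (D y) = W (cmp σ e) y := fun y e => by
    have : J (D y) = (W.comp (cmp σ)).flip y := J.apply_symm_apply _
    exact congrArg (fun Φ : StrongDual ℂ (StrongDual ℂ E) => Φ e) this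
  refine ⟨D, ?_, hD⟩
  have hcl : D ∈ closure {A : E →L[ℂ] E | IsCompactOperator A} := by
    refine Metric.mem_closure_iff.2 fun ε hε => ?_
    obtain ⟨s, ψ, hψ⟩ := exists_tensor_approx σ (δ := ε / (2 * (‖W‖ + 1))) (by positivity)
    refine ⟨∑ y ∈ s, (W (ψ y)).smulRight y, ?_, ?_⟩
    · refine (compactOperator (RingHom.id ℂ) E E).sum_mem fun y _ => ?_
      exact (isCompactOperator_of_locallyCompactSpace_dom (W (ψ y))).clm_comp
        (ContinuousLinearMap.toSpanSingleton ℂ y)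
    · rw [dist_eq_norm]
      have h1 : ‖D - ∑ y ∈ s, (W (ψ y)).smulRight y‖ ≤ ‖W‖ * (ε / (2 * (‖W‖ + 1))) := by
        refine ContinuousLinearMap.opNorm_le_bound _ (by positivity) fun h => ?_
        refine NormedSpace.norm_le_dual_bound ℂ _ (by positivity) fun e => ?_
        have h2 : e ((D - ∑ y ∈ s, (W (ψ y)).smulRight y) h) =
            W (cmp σ e - ∑ y ∈ s, e y • ψ y) h := by
          simp [hD, map_sum, mul_comm]
        have h3 : ‖cmp σ e - ∑ y ∈ s, e y • ψ y‖ ≤ ‖e‖ * (ε / (2 * (‖W‖ + 1))) := by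
          refine (ContinuousMap.norm_le _ (by positivity)).2 fun x => ?_
          have : (cmp σ e - ∑ y ∈ s, e y • ψ y) x = e (σ x - ∑ y ∈ s, ψ y x • y) := by
            simp [map_sum, mul_comm]
          rw [this]
          exact (e.le_opNorm _).trans (mul_le_mul_of_nonneg_left (hψ x) (norm_nonneg _))
        rw [h2]
        refine (W.le_opNorm₂ _ _).trans ?_
        calc ‖W‖ * ‖cmp σ e - ∑ y ∈ s, e y • ψ y‖ * ‖h‖
            ≤ ‖W‖ * (‖e‖ * (ε / (2 * (‖W‖ + 1)))) * ‖h‖ := by gcongr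
          _ = _ := by ring
      refine h1.trans_lt ?_
      rw [mul_div_assoc', div_lt_iff₀ (by positivity)]
      nlinarith [norm_nonneg W]
  rwa [isClosed_setOfPred_isCompactOperator.closure_eq] at hcl

/-- A bound on all normalised combinations gives a weak square sum bound. -/
theorem sum_sq_le_of_comb (y : ℕ → E) (t : Finset ℕ) {M : ℝ}
    (h : ∀ c : ℕ → ℂ, ∑ n ∈ t, ‖c n‖ ^ 2 ≤ 1 → ‖∑ n ∈ t, c n • y n‖ ≤ M) (e : StrongDual ℂ E) :
    ∑ n ∈ t, ‖e (y n)‖ ^ 2 ≤ (‖e‖ * M) ^ 2 := by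
  set S := ∑ n ∈ t, ‖e (y n)‖ ^ 2 with hS
  have hS0 : 0 ≤ S := Finset.sum_nonneg fun n _ => by positivity
  rcases hS0.eq_or_lt with h0 | hpos
  · rw [← h0]; positivity
  have hq : 0 < √S := Real.sqrt_pos.2 hpos
  have h1 := h (fun n => (starRingEnd ℂ) (e (y n)) / ((√S : ℝ) : ℂ)) (by
    simp only [norm_div, Complex.norm_conj, Complex.norm_real, div_pow, Real.norm_of_nonneg hq.le]
    rw [← Finset.sum_div, Real.sq_sqrt hS0, ← hS, div_self hpos.ne'])
  have h2 : e (∑ n ∈ t, ((starRingEnd ℂ) (e (y n)) / ((√S : ℝ) : ℂ)) • y n) = ((√S : ℝ) : ℂ) := by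
    simp only [map_sum, map_smul, smul_eq_mul, div_mul_eq_mul_div, Complex.conj_mul']
    rw [← Finset.sum_div, div_eq_iff (by exact_mod_cast hq.ne'), ← Complex.ofReal_mul,
      Real.mul_self_sqrt hS0, hS]
    push_cast
    rfl
  have h3 := (e.le_opNorm _).trans (mul_le_mul_of_nonneg_left h1 (norm_nonneg e))
  rw [h2, Complex.norm_real, Real.norm_of_nonneg hq.le] at h3
  rw [← Real.sq_sqrt hS0]
  gcongr

section Res

variable {T P : E →L[ℂ] E} {u : ℕ → E} {r C : ℝ}

theorem Inj.eq (hinj : Inj T P) {w : ℂ} {x y : E} (hx : P x = x) (hy : P y = y)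
    (h : T x - w • x = T y - w • y) : x = y := by
  refine sub_eq_zero.1 (hinj w (x - y) (by rw [map_sub, hx, hy]) ?_)
  rw [map_sub, smul_sub, sub_eq_sub_iff_sub_eq_sub, h]

/-- First order local resolvents: bounded and Lipschitz in the weak square sum sense. -/
theorem exists_res1 (hc : P * T = T * P) (hinj : Inj T P) (h2 : Res2 T P u r C) (hr1 : r ≤ 1) :
    ∃ s : ℕ → ℂ → E, (∀ m, ∀ w ∈ ball (0 : ℂ) r, T (s m w) - w • s m w = P (u m)) ∧
      (∀ w ∈ ball (0 : ℂ) r, ∀ (t : Finset ℕ) (c : ℕ → ℂ), ∑ n ∈ t, ‖c n‖ ^ 2 ≤ 1 →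
        ‖∑ n ∈ t, c n • s n w‖ ≤ (‖T‖ + 1) * C) ∧
      ∀ m, ∀ w ∈ ball (0 : ℂ) r, ∀ w' ∈ ball (0 : ℂ) r, ‖s m w - s m w'‖ ≤ C * ‖w - w'‖ := by
  have hPT : ∀ x, P (T x) = T (P x) := fun x => congrArg (fun L : E →L[ℂ] E => L x) hc
  have hex : ∀ m w, ∃ y : E, w ∈ ball (0 : ℂ) r → P y = y ∧ T y - w • y = P (u m) := by
    intro m w
    by_cases hw : w ∈ ball (0 : ℂ) r
    · obtain ⟨x, hx, -, hx'⟩ := h2 w hw w hw {m} (fun _ => 1) (by simp)
      refine ⟨T x - w • x, fun _ => ⟨?_, by simpa using hx'⟩⟩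
      rw [map_sub, map_smul, hPT, hx]
    · exact ⟨0, fun h => absurd h hw⟩
  choose s hs using hex
  have key : ∀ w ∈ ball (0 : ℂ) r, ∀ w' ∈ ball (0 : ℂ) r, ∀ (t : Finset ℕ) (c : ℕ → ℂ),
      ∑ n ∈ t, ‖c n‖ ^ 2 ≤ 1 → ∃ x : E, ‖x‖ ≤ C ∧ ∑ n ∈ t, c n • s n w = T x - w' • x ∧
        ∑ n ∈ t, c n • s n w' = T x - w • x := by
    intro w hw w' hw' t c hc
    obtain ⟨x, hx, hxC, hx'⟩ := h2 w hw w' hw' t c hc
    have hP : ∀ z ∈ ball (0 : ℂ) r, P (∑ n ∈ t, c n • s n z) = ∑ n ∈ t, c n • s n z := by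
      intro z hz
      simp only [map_sum, map_smul, (hs _ z hz).1]
    have hT : ∀ z ∈ ball (0 : ℂ) r, T (∑ n ∈ t, c n • s n z) - z • ∑ n ∈ t, c n • s n z =
        ∑ n ∈ t, c n • P (u n) := by
      intro z hz
      rw [map_sum, Finset.smul_sum, ← Finset.sum_sub_distrib]
      refine Finset.sum_congr rfl fun n _ => ?_
      rw [← (hs n z hz).2, map_smul, smul_sub, smul_comm]
    have hQ : ∀ z : ℂ, P (T x - z • x) = T x - z • x := fun z => by
      rw [map_sub, map_smul, hPT, hx]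
    refine ⟨x, hxC, hinj.eq (w := w) (hP w hw) (hQ _) (by rw [hT w hw, hx']),
      hinj.eq (w := w') (hP w' hw') (hQ _) ?_⟩
    rw [hT w' hw', ← hx']
    simp only [map_sub, map_smul, smul_sub, smul_comm w w']
    abel
  refine ⟨s, fun m w hw => (hs m w hw).2, fun w hw t c hc => ?_, fun m w hw w' hw' => ?_⟩
  · obtain ⟨x, hx, h1, -⟩ := key w hw w hw t c hc
    have hw1 : ‖w‖ ≤ 1 := (mem_ball_zero_iff.1 hw).le.trans hr1
    rw [h1]
    refine (norm_sub_le _ _).trans ?_
    rw [norm_smul, add_mul]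
    have := T.le_opNorm x
    gcongr
    exact this.trans (by gcongr)
  · obtain ⟨x, hx, h1, h3⟩ := key w hw w' hw' {m} (fun _ => 1) (by simp)
    simp only [Finset.sum_singleton, one_smul] at h1 h3
    rw [h1, h3, sub_sub_sub_cancel_left, ← sub_smul, norm_smul, mul_comm]
    gcongr

end Res

omit [CompactSpace X] in
/-- Radial retraction. -/
theorem exists_retract (a : C(X, ℂ)) {ρ : ℝ} (hρ : 0 < ρ) :
    ∃ b : C(X, ℂ), (∀ x, ‖b x‖ ≤ ρ) ∧ ∀ x, ‖a x‖ ≤ ρ → b x = a x := by
  have hm : ∀ x, 0 < max ‖a x‖ ρ := fun x => lt_max_of_lt_right hρ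
  have hc : Continuous fun x => ((ρ / max ‖a x‖ ρ : ℝ) : ℂ) * a x := by
    refine (Complex.continuous_ofReal.comp (continuous_const.div ?_ fun x => (hm x).ne')).mul
      a.continuous
    have := a.continuous
    fun_prop
  refine ⟨⟨_, hc⟩, fun x => ?_, fun x hx => ?_⟩
  · simp only [ContinuousMap.coe_mk]
    rw [norm_mul, Complex.norm_real, Real.norm_of_nonneg (div_nonneg hρ.le (hm x).le),
      div_mul_eq_mul_div, div_le_iff₀ (hm x)]
    exact mul_le_mul_of_nonneg_left (le_max_left _ _) hρ.le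
  · simp [max_eq_right hx, hρ.ne']

theorem compact_of_res2 [CompleteSpace E] {Θ : C(X, ℂ) →ₐ[ℂ] (E →L[ℂ] E)} {a : C(X, ℂ)}
    {T P : E →L[ℂ] E} {u : ℕ → E} {v : ℕ → StrongDual ℂ E} (H : Setup Θ a T P u v)
    (hinj : Inj T P) (hno : NoLoc T P) {r C : ℝ} (hr : 0 < r) (hr1 : r ≤ 1)
    (h2 : Res2 T P u r C) (f : C(X, ℂ)) (hf : ∀ x, r / 2 ≤ ‖a x‖ → f x = 0) :
    IsCompactOperator (P * Θ f : E →L[ℂ] E) := by
  have hΘ := H.cont
  have hPT : ∀ x, P (T x) = T (P x) := fun x => congrArg (fun L : E →L[ℂ] E => L x) H.comm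
  have hPP : ∀ x, P (P x) = P x := fun x => congrArg (fun L : E →L[ℂ] E => L x) H.idem
  have hC : 0 ≤ C := by
    obtain ⟨x, -, hx, -⟩ := h2 0 (mem_ball_self hr) 0 (mem_ball_self hr) ∅ 0 (by simp)
    exact (norm_nonneg _).trans hx
  obtain ⟨s, hs1, hs2, hs3⟩ := exists_res1 H.comm hinj h2 hr1
  obtain ⟨b, hb1, hb2⟩ := exists_retract a (half_pos hr)
  have hb : ∀ x, b x ∈ ball (0 : ℂ) r := fun x => mem_ball_zero_iff.2 (by linarith [hb1 x])
  have hfb : f * b = f * a := by
    ext x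
    rcases le_total (r / 2) ‖a x‖ with h | h
    · simp [hf x h]
    · simp [hb2 x h]
  have hσ : ∀ m, Continuous fun x => s m (b x) := fun m => by
    have hL : LipschitzOnWith C.toNNReal (s m) (ball 0 r) :=
      LipschitzOnWith.of_dist_le_mul fun w hw w' hw' => by
        rw [dist_eq_norm, dist_eq_norm, Real.coe_toNNReal _ hC]
        exact hs3 m w hw w' hw'
    exact hL.continuousOn.comp_continuous b.continuous hb
  let σ : ℕ → C(X, E) := fun m => ⟨_, hσ m⟩
  have hσa : ∀ m x, σ m x = s m (b x) := fun m x => rfl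
  choose D hD1 hD2 using fun m => exists_compact_int H.refl (σ m)
    ((ContinuousLinearMap.compL ℂ E E ℂ (v m)).comp (clm Θ hΘ))
  have hD3 : ∀ m y (e : StrongDual ℂ E), e (D m y) = v m (Θ (cmp (σ m) e) y) := hD2
  set K := 10 * ‖clm Θ hΘ‖ * ((‖T‖ + 1) * C) with hK
  have hK0 : 0 ≤ K := by positivity
  have hrad : ∀ t, 0 ≤ rad v t := fun t => Real.sqrt_nonneg _
  have hDn : ∀ t : Finset ℕ, ‖∑ m ∈ t, D m‖ ≤ K * rad v t := fun t => by
    have := hrad t
    refine ContinuousLinearMap.opNorm_le_bound _ (by positivity) fun y => ?_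
    refine NormedSpace.norm_le_dual_bound ℂ _ (by positivity) fun e => ?_
    have h1 := rad_bound_row Θ hΘ v y t (fun m => cmp (σ m) e) (M := ‖e‖ * ((‖T‖ + 1) * C))
      (by positivity) fun x =>
        sum_sq_le_of_comb (fun m => s m (b x)) t (hs2 _ (hb x) t) e
    simp only [sum_apply, map_sum, hD3]
    exact h1.trans_eq (by rw [hK]; ring)
  have hsum : Summable D := by
    refine summable_iff_vanishing_norm.2 fun ε hε => ?_
    obtain ⟨N, hN⟩ := H.hv.tail (ε := ε / (2 * (K + 1))) (by positivity)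
    refine ⟨Finset.range N, fun t ht => (hDn t).trans_lt ?_⟩
    have h1 := hN t fun i hi => by
      by_contra hlt
      exact Finset.disjoint_left.1 ht hi (Finset.mem_range.2 (not_le.1 hlt))
    refine (mul_le_mul_of_nonneg_left h1 hK0).trans_lt ?_
    rw [mul_div_assoc', div_lt_iff₀ (by positivity)]
    nlinarith
  obtain ⟨A, hA⟩ := hsum
  have hAc : IsCompactOperator A :=
    isCompactOperator_of_tendsto hA.tendsto_sum_nat (Eventually.of_forall fun n =>
      (compactOperator (RingHom.id ℂ) E E).sum_mem fun m _ => hD1 m)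
  have hAe : ∀ y (e : StrongDual ℂ E), HasSum (fun m => v m (Θ (cmp (σ m) e) y)) (e (A y)) := by
    intro y e
    have := (e.comp (ContinuousLinearMap.apply ℂ E y)).hasSum hA
    simpa [hD3] using this
  -- the commutation identity
  have hcomm : ∀ y, T (P y - A y) - (P (Θ a y) - A (Θ b y)) = 0 := by
    intro y
    rw [SeparatingDual.eq_zero_iff_forall_dual_eq_zero (R := ℂ)]
    intro e
    have h1 := hAe y (e.comp T)
    have h3 := (H.hK y (e.comp P)).add (hAe (Θ b y) e)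
    have h4 : ∀ m, v m (Θ (cmp (σ m) (e.comp T)) y) =
        v m y * (e.comp P) (u m) + v m (Θ (cmp (σ m) e) (Θ b y)) := by
      intro m
      have : cmp (σ m) (e.comp T) = e (P (u m)) • 1 + cmp (σ m) e * b := by
        ext x
        simp [hσa, ← hs1 m _ (hb x), mul_comm]
      rw [this, map_add, map_mul, map_smul, map_one]
      simp [mul_comm (v m y)]
    simp only [h4] at h1
    have h5 := h1.unique h3
    simp only [ContinuousLinearMap.comp_apply, map_sub, hPT] at h5 ⊢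
    rw [h5]
    ring
  have hbn : ‖b‖ ≤ 1 := (ContinuousMap.norm_le _ zero_le_one).2 fun x => by linarith [hb1 x]
  have hres : ∀ w, w ∉ closedBall (0 : ℂ) 1 → w ∈ resolventSet ℂ b := fun w hw => by
    refine spectrum.mem_resolventSet_of_norm_lt_mul (lt_of_le_of_lt ?_ (one_lt_of_notMem hw))
    have : ‖(1 : C(X, ℂ))‖ ≤ 1 := (ContinuousMap.norm_le _ zero_le_one).2 fun x => by simp
    calc ‖b‖ * ‖(1 : C(X, ℂ))‖ ≤ 1 * 1 := by gcongr
      _ = 1 := one_mul 1
  have hfin : ∀ h, P (Θ f h) = P (A (Θ f h)) := by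
    intro h
    let L : C(X, ℂ) →L[ℂ] E := -((P - A).comp ((ContinuousLinearMap.apply ℂ E h).comp
      ((clm Θ hΘ).comp (ContinuousLinearMap.mul ℂ C(X, ℂ) f))))
    have hL : ∀ G, L G = -(P (Θ (f * G) h) - A (Θ (f * G) h)) := fun G => rfl
    have hloc : Loc T (closedBall 0 1) (P (Θ f h) - A (Θ f h)) := by
      refine ⟨fun w => L (resolvent b w), fun w hw => ?_, ?_, fun w hw => ?_⟩
      · exact (L.differentiableAt.comp w
          (spectrum.hasDerivAt_resolvent_const_left (hres w hw)).differentiableAt).differentiableWithinAt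
      · have := (L.continuous.tendsto 0).comp (spectrum.resolvent_tendsto_cobounded (𝕜 := ℂ) b)
        rw [map_zero, Metric.cobounded_eq_cocompact] at this
        exact this
      · have h1 : (algebraMap ℂ C(X, ℂ) w - b) * resolvent b w = 1 :=
          Ring.mul_inverse_cancel _ (hres w hw)
        set q := f * resolvent b w with hq
        have h3 : b * q = w • q - f := by
          rw [Algebra.algebraMap_eq_smul_one] at h1
          have : f = w • q - b * q := by
            calc f = f * ((w • 1 - b) * resolvent b w) := by rw [h1, mul_one]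
              _ = _ := by rw [hq, sub_mul, mul_sub, smul_mul_assoc, mul_smul_comm, one_mul]; ring
          rw [eq_sub_iff_add_eq, add_comm, ← eq_sub_iff_add_eq]
          exact this
        have h4 : a * q = w • q - f := by
          rw [← h3, hq, ← mul_assoc, ← mul_assoc, mul_comm a, mul_comm b, hfb]
        have h5 : Θ b (Θ q h) = w • Θ q h - Θ f h := by
          simpa using congrArg (fun G => Θ G h) h3
        have h6 : Θ a (Θ q h) = w • Θ q h - Θ f h := by
          simpa using congrArg (fun G => Θ G h) h4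
        have h7 := hcomm (Θ q h)
        rw [h5, h6, sub_eq_zero] at h7
        simp only [hL, ← hq]
        rw [map_neg, h7]
        simp only [map_sub, map_smul, smul_neg, smul_sub]
        abel
    have := hno _ hloc
    rwa [map_sub, hPP, sub_eq_zero] at this
  have h1 : ⇑(P * Θ f : E →L[ℂ] E) = ⇑P ∘ ⇑A ∘ ⇑(Θ f) := funext hfin
  rw [h1]
  exact (hAc.comp_clm (Θ f)).clm_comp P

end Pool.Agent.P.MP_f981b0_an.TB
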