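import Pool.Agent.P.MP_f981b0_an.R1.Key
import Pool.Agent.P.MP_f981b0_an.TC.GoodDefs

set_option autoImplicit false

noncomputable section

namespace Pool.Agent.P.MP_f981b0_an.TB

open MeasureTheory Metric Set R1

/-- Bounded nonnegative measurable densities vanishing outside the open unit disc. -/
structure Dens (w : ℂ → ℝ) : Prop where
  meas : Measurable w
  nonneg : ∀ z, 0 ≤ w z
  bdd : ∃ B : ℝ, ∀ z, w z ≤ B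
  supp : ∀ z, 1 ≤ ‖z‖ → w z = 0

/-- Alternative (I), vector form: cheap densities on which any bounded `ℓ²`-valued function has,
after a cut-off that keeps a fixed mass, a uniformly bounded Cauchy transform. -/
def Cheap2 (ρ : ℂ → ℝ) : Prop :=
  ∃ D c : ℝ, 0 ≤ D ∧ 0 < c ∧ ∀ ε : ℝ, 0 < ε → ∃ w : ℂ → ℝ, Dens w ∧ ∫ z, ρ z * w z ≤ ε ∧
    ∀ {ι : Type} (s : Finset ι) (f : ι → ℂ → ℂ), (∀ i, Measurable (f i)) →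
      (∀ z, ∑ i ∈ s, ‖f i z‖ ^ 2 ≤ 1) →
      ∃ h : ℂ → ℝ, Dens h ∧ (∀ z, h z ≤ w z) ∧ c ≤ ∫ z, h z ∧
        ∀ ζ, ∑ i ∈ s, ‖cauchy (fun z => f i z * (h z : ℝ)) ζ‖ ^ 2 ≤ D ^ 2

section Rad

variable {E : Type*} [NormedAddCommGroup E]

/-- The mean over all choices of signs of `‖∑ i ∈ s, ± u i‖ ^ 2`. -/
def rad2 (u : ℕ → E) (s : Finset ℕ) : ℝ :=
  (∑ t ∈ s.powerset, ‖∑ i ∈ t, u i - ∑ i ∈ s \ t, u i‖ ^ 2) / 2 ^ s.card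

/-- The random series `∑ ± u i` converges in mean square (Cauchy criterion). -/
def RadSum (u : ℕ → E) : Prop :=
  ∀ ε : ℝ, 0 < ε → ∃ N : ℕ, ∀ s : Finset ℕ, (∀ i ∈ s, N ≤ i) → rad2 u s ≤ ε

/-- The `L²` norm of the signed sum. -/
def rad (u : ℕ → E) (s : Finset ℕ) : ℝ := √(rad2 u s)

end Rad

variable {X : Type*} [TopologicalSpace X] [CompactSpace X]
variable {E : Type*} [NormedAddCommGroup E] [NormedSpace ℂ E]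

/-- The Cauchy transform of `φ` composed with `a`, as a continuous function on `X`. -/
def cc (a : C(X, ℂ)) (φ : ℂ → ℂ) : C(X, ℂ) :=
  ContinuousMap.mkD (fun x => cauchy φ (a x)) 0

/-- The test vector built from the finite coefficient families `χ d` and `χ e`. -/
def YY (Θ : C(X, ℂ) →ₐ[ℂ] (E →L[ℂ] E)) (a : C(X, ℂ)) (P : E →L[ℂ] E) (u : ℕ → E)
    (s : Finset ℕ) (d e : ℕ → ℂ → ℂ) (χ : ℂ → ℂ) : E :=
  ∑ n ∈ s, (Θ (cc a fun z => χ z * d n z) (P (u n)) + Θ (cc a fun z => χ z * e n z) (u n))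

/-- The field `(d, e)` is admissible with defect `γ`: the weak form of `|Ξ(z)(d, e)| ≤ γ(z)`. -/
structure Adm (Θ : C(X, ℂ) →ₐ[ℂ] (E →L[ℂ] E)) (a : C(X, ℂ)) (P : E →L[ℂ] E) (u : ℕ → E)
    (v : ℕ → StrongDual ℂ E) (s : Finset ℕ) (d e : ℕ → ℂ → ℂ) (γ : ℂ → ℝ) : Prop where
  md : ∀ n, Measurable (d n)
  me : ∀ n, Measurable (e n)
  bd : ∀ z, ∑ n ∈ s, ‖d n z‖ ^ 2 ≤ 4
  be : ∀ z, ∑ n ∈ s, ‖e n z‖ ^ 2 ≤ 4
  d0 : ∀ n, n ∉ s → ∀ z, d n z = 0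
  e0 : ∀ n, n ∉ s → ∀ z, e n z = 0
  int : IntegrableOn γ (ball 0 1)
  nonneg : ∀ z, 0 ≤ γ z
  est : ∀ (t : Finset ℕ) (χ : ℕ → ℂ → ℂ) (g : ℂ → ℝ), (∀ m, Test (χ m)) → Dens g →
    (∀ z, ∑ m ∈ t, ‖χ m z‖ ^ 2 ≤ g z ^ 2) →
    ‖∑ m ∈ t, ((∫ z in ball (0 : ℂ) 1, χ m z * e m z) - v m (YY Θ a P u s d e (χ m)))‖ ≤
        ∫ z in ball (0 : ℂ) 1, g z * γ z ∧
      ‖∑ m ∈ t, v m (YY Θ a P u s d e (χ m) - P (YY Θ a P u s d e (χ m)))‖ ≤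
        ∫ z in ball (0 : ℂ) 1, g z * γ z

/-- Selection of approximate kernel directions. -/
def SelI (Θ : C(X, ℂ) →ₐ[ℂ] (E →L[ℂ] E)) (a : C(X, ℂ)) (P : E →L[ℂ] E) (u : ℕ → E)
    (v : ℕ → StrongDual ℂ E) (ρ : ℂ → ℝ) : Prop :=
  ∀ ε : ℝ, 0 < ε → ∃ (s : Finset ℕ) (d e : ℕ → ℂ → ℂ) (η : ℂ → ℝ),
    IntegrableOn η (ball 0 1) ∧ (∀ z, 0 ≤ η z) ∧ ∫ z in ball (0 : ℂ) 1, η z ≤ ε ∧
    Adm Θ a P u v s d e (fun z => ρ z + η z) ∧ (∀ z, ∑ n ∈ s, ‖e n z‖ ^ 2 = 1) ∧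
    ∀ z, ∑ n ∈ s, ‖d n z‖ ^ 2 ≤ (ρ z + η z) ^ 2

/-- Selection of approximate solutions. -/
def SelII (Θ : C(X, ℂ) →ₐ[ℂ] (E →L[ℂ] E)) (a : C(X, ℂ)) (P : E →L[ℂ] E) (u : ℕ → E)
    (v : ℕ → StrongDual ℂ E) (ρ : ℂ → ℝ) : Prop :=
  ∀ (s0 : Finset ℕ) (c : ℕ → ℂ), ∑ n ∈ s0, ‖c n‖ ^ 2 ≤ 1 → ∀ ε : ℝ, 0 < ε →
    ∃ (s : Finset ℕ) (e : ℕ → ℂ → ℂ) (η : ℂ → ℝ), s0 ⊆ s ∧ ∫ z in ball (0 : ℂ) 1, η z ≤ ε ∧
      Adm Θ a P u v s (fun n z => if n ∈ s0 then (ρ z : ℂ) * c n else 0) e η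

/-- Both selections, for one gauge function `ρ`. -/
def Sel (Θ : C(X, ℂ) →ₐ[ℂ] (E →L[ℂ] E)) (a : C(X, ℂ)) (P : E →L[ℂ] E) (u : ℕ → E)
    (v : ℕ → StrongDual ℂ E) : Prop :=
  ∃ ρ : ℂ → ℝ, Measurable ρ ∧ (∀ z, 0 ≤ ρ z) ∧ (∀ z, ρ z ≤ 1) ∧ SelI Θ a P u v ρ ∧
    SelII Θ a P u v ρ

/-- The standing hypotheses of the operator part: `T = Θ a + ∑ u m ⊗ v m`, and `P` is an
idempotent commuting with `T`. -/
structure Setup (Θ : C(X, ℂ) →ₐ[ℂ] (E →L[ℂ] E)) (a : C(X, ℂ)) (T P : E →L[ℂ] E) (u : ℕ → E)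
    (v : ℕ → StrongDual ℂ E) : Prop where
  refl : Refl E
  cont : Continuous Θ
  hu : RadSum u
  hv : RadSum v
  hK : ∀ (x : E) (e : StrongDual ℂ E), HasSum (fun m => v m x * e (u m)) (e (T x - Θ a x))
  idem : P * P = P
  comm : P * T = T * P

/-- `T` has no eigenvector in the range of `P`. -/
def Inj (T P : E →L[ℂ] E) : Prop := ∀ (w : ℂ) (x : E), P x = x → T x = w • x → x = 0

/-- No nonzero vector in the range of `P` has local spectrum in the closed unit disc. -/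
def NoLoc (T P : E →L[ℂ] E) : Prop := ∀ y : E, Loc T (closedBall 0 1) y → P y = 0

/-- Uniformly bounded second order local resolvents of the vectors `P (u n)` near `0`. -/
def Res2 (T P : E →L[ℂ] E) (u : ℕ → E) (r C : ℝ) : Prop :=
  ∀ w ∈ ball (0 : ℂ) r, ∀ w' ∈ ball (0 : ℂ) r, ∀ (s : Finset ℕ) (c : ℕ → ℂ),
    ∑ n ∈ s, ‖c n‖ ^ 2 ≤ 1 → ∃ x : E, P x = x ∧ ‖x‖ ≤ C ∧
      T (T x - w' • x) - w • (T x - w' • x) = ∑ n ∈ s, c n • P (u n)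

end Pool.Agent.P.MP_f981b0_an.TB
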