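import Pool.Agent.P.MP_f981b0_an.TB.Lim

set_option autoImplicit false

noncomputable section

namespace Pool.Agent.P.MP_f981b0_an.TB

open MeasureTheory Metric Set Filter Topology R1

variable {X : Type*} [TopologicalSpace X] [CompactSpace X]
variable {E : Type*} [NormedAddCommGroup E] [NormedSpace ℂ E]
variable {Θ : C(X, ℂ) →ₐ[ℂ] (E →L[ℂ] E)} {a : C(X, ℂ)} {T P : E →L[ℂ] E} {u : ℕ → E}
  {v : ℕ → StrongDual ℂ E}

theorem dslope_sub_mul {q : ℂ → ℂ} {w : ℂ} (hq : DifferentiableAt ℂ q w) (z : ℂ) :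
    dslope (fun x => (x - w) * q x) w z = q z := by
  rcases eq_or_ne z w with rfl | h
  · rw [dslope_same]
    have := ((hasDerivAt_id' z).sub_const z).fun_mul hq.hasDerivAt
    simpa using this.deriv
  · simpa only [smul_eq_mul] using dslope_sub_smul_of_ne q h

theorem dslope_one (w z : ℂ) : dslope (fun _ : ℂ => (1 : ℂ)) w z = 0 := by
  rcases eq_or_ne z w with rfl | h
  · simp [dslope_same]
  · simp [dslope_of_ne _ h, slope_def_field]

theorem res2_of_bpe [CompleteSpace E] (H : Setup Θ a T P u v)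
    (hinj : Inj T P) (hno : NoLoc T P) {ρ : ℂ → ℝ} (hm : Measurable ρ) (h0 : ∀ z, 0 ≤ ρ z)
    (h1 : ∀ z, ρ z ≤ 1) (hs : SelII Θ a P u v ρ) (hB : BPE ρ) :
    ∃ r C : ℝ, 0 < r ∧ r ≤ 1 ∧ Res2 T P u r C := by
  obtain ⟨r, C, hr, hr1, hC, hrep⟩ := exists_rep hm h0 h1 hB
  obtain ⟨R, hR0, hR⟩ := H.hu.bdd
  obtain ⟨R', hR0', hR'⟩ := (H.hu.map P).bdd
  refine ⟨r, ‖P‖ * (10 * ‖clm Θ H.cont‖ * (R' + R) * (10 * (4 * C * 2))), hr, hr1,
    fun w hw w' hw' s0 c hc => ?_⟩
  obtain ⟨χ, hχ, hχC, hp⟩ := hrep w' hw' w hw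
  choose s e η hs0 hη A using fun k : ℕ => hs s0 c hc (1 / ((k : ℝ) + 1)) (by positivity)
  set d : ℕ → ℂ → ℂ := fun n z => if n ∈ s0 then (ρ z : ℂ) * c n else 0 with hd
  let U : Ultrafilter ℕ := Ultrafilter.of atTop
  have hU : (U : Filter ℕ) ≤ atTop := Ultrafilter.of_le _
  let g : ℂ → ℝ := (ball (0 : ℂ) 1).indicator fun _ => 4 * C
  have hg : Dens g := dens_indicator (by positivity)
  have hle : ∀ {φ : ℂ → ℂ}, Test φ → (∀ z, ‖z‖ < 1 → ‖φ z‖ ≤ 4 * C) → ∀ z, ‖φ z‖ ≤ g z := by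
    intro φ hφ h z
    by_cases hz : z ∈ ball (0 : ℂ) 1
    · simpa only [g, indicator_of_mem hz] using h z (mem_ball_zero_iff.1 hz)
    · simp [g, indicator_of_notMem hz, hφ.supp z (by simpa using hz)]
  have hgC : ∀ z, g z ≤ 4 * C := fun z =>
    indicator_le' (fun _ _ => le_rfl) (fun _ _ => by positivity) z
  have hsub : ∀ {t : ℂ}, t ∈ ball (0 : ℂ) r → ∀ z : ℂ, ‖z‖ < 1 → ‖z - t‖ ≤ 2 := fun ht z hz =>
    (norm_sub_le _ _).trans (by linarith [mem_ball_zero_iff.1 ht])
  have hχ1 := test_sub_mul hχ w'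
  have hχ2 := test_sub_mul hχ1 w
  have hb1 : ∀ z, ‖z‖ < 1 → ‖(z - w') * χ z‖ ≤ 2 * C := fun z hz => by
    rw [norm_mul]
    exact mul_le_mul (hsub hw' z hz) (hχC z) (norm_nonneg _) zero_le_two
  have g0 := hle hχ fun z _ => (hχC z).trans (by linarith)
  have g1 := hle hχ1 fun z hz => (hb1 z hz).trans (by linarith)
  have g2 := hle hχ2 fun z hz => by
    rw [norm_mul]
    exact (mul_le_mul (hsub hw z hz) (hb1 z hz) (norm_nonneg _) zero_le_two).trans_eq (by ring)
  have hcau : ∀ {φ : ℂ → ℂ}, Test φ → (∀ z, ‖φ z‖ ≤ g z) → ∀ (t : Finset ℕ) (b : ℕ → ℂ → ℂ),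
      (∀ n, Test fun z => φ z * b n z) → (∀ z, ∑ n ∈ t, ‖b n z‖ ^ 2 ≤ 4) → ∀ ζ,
      ∑ n ∈ t, ‖cauchy (fun z => φ z * b n z) ζ‖ ^ 2 ≤ (10 * (4 * C * 2)) ^ 2 := by
    intro φ _ hφg t b hb hb4 ζ
    refine sum_sq_cauchy_le t hb (by positivity) (fun z => ?_) ζ
    simp only [norm_mul, mul_pow _ _ 2]
    rw [← Finset.mul_sum, ← mul_pow]
    exact mul_le_mul (pow_le_pow_left₀ (norm_nonneg _) ((hφg z).trans (hgC z)) 2)
      ((hb4 z).trans (by norm_num)) (Finset.sum_nonneg fun _ _ => by positivity) (by positivity)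
  have hI : Tendsto (fun k => ∫ z in ball (0 : ℂ) 1, g z * η k z) U (𝓝 0) := by
    have h2 : Tendsto (fun k : ℕ => 4 * C * (1 / ((k : ℝ) + 1))) U (𝓝 0) := by
      simpa using (tendsto_one_div_add_atTop_nhds_zero_nat.const_mul (4 * C)).mono_left hU
    refine squeeze_zero (fun k => integral_nonneg fun z => mul_nonneg (hg.nonneg z)
      ((A k).nonneg z)) (fun k => ?_) h2
    calc ∫ z in ball (0 : ℂ) 1, g z * η k z ≤ ∫ z in ball (0 : ℂ) 1, 4 * C * η k z :=
          integral_mono (hg.intOn_mul (A k).int) ((A k).int.const_mul _) fun z =>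
            mul_le_mul_of_nonneg_right (hgC z) ((A k).nonneg z)
      _ ≤ _ := by
          rw [integral_const_mul]
          exact mul_le_mul_of_nonneg_left (hη k) (by positivity)
  have hsum : ∀ (φ p : ℂ → ℂ), Hinf p → (∀ z, φ z = p z * χ z) → ∀ k,
      ∑ n ∈ s k, (∫ z in ball (0 : ℂ) 1, φ z * d n z) • P (u n) =
        dslope p w' w • ∑ n ∈ s0, c n • P (u n) := by
    intro φ p hpH hφ k
    rw [Finset.smul_sum, ← Finset.sum_subset (hs0 k) fun n _ hn => by simp [hd, hn]]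
    refine Finset.sum_congr rfl fun n hn => ?_
    rw [smul_smul, ← hp p hpH, ← integral_mul_const]
    congr 2
    funext z
    simp only [hd, if_pos hn, hφ]
    ring
  have L := (lim H hinj hno U A (fun _ => hχ2) (fun _ => hg) (fun _ => g2) (by positivity)
    (fun k => hcau hχ2 g2 _ _ ((A k).test_d hχ2) (A k).bd)
    (fun k => hcau hχ2 g2 _ _ ((A k).test_e hχ2) (A k).be) hI fun l hl => by
      have h2 : Hinf fun z => (z - w) * (z - l)⁻¹ := (hinf_sub_const w).mul' (hinf_inv hl)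
      have h3 := hsum (fun z => (z - w) * ((z - w') * χ z) / (z - l))
        (fun z => (z - w') * ((z - w) * (z - l)⁻¹)) ((hinf_sub_const w').mul' h2) fun z => by ring
      rw [dslope_sub_mul (h2.diff.differentiableAt (isOpen_ball.mem_nhds
        (ball_subset_ball hr1 hw')))] at h3
      simp only [sub_self, zero_mul, zero_smul] at h3
      exact tendsto_const_nhds.congr fun k => (h3 k).symm).1
  set b := ∑ n ∈ s0, c n • P (u n) with hb
  have hPb : P b = b := by simp only [hb, map_sum, map_smul, H.idem_apply]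
  let y0 : ℕ → E := fun k => YY Θ a P u (s k) d (e k) χ
  let y1 : ℕ → E := fun k => YY Θ a P u (s k) d (e k) fun z => (z - w') * χ z
  let y2 : ℕ → E := fun k => YY Θ a P u (s k) d (e k) fun z => (z - w) * ((z - w') * χ z)
  have hRI : Tendsto (fun k => R * ∫ z in ball (0 : ℂ) 1, g z * η k z) U (𝓝 0) := by
    simpa using hI.const_mul R
  have r1 : Tendsto (fun k => T (y0 k) - w' • y0 k - y1 k) U (𝓝 0) := by
    refine squeeze_zero_norm (fun k => ?_) hRI
    have := (A k).res H hR hχ hg g0 w'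
    rwa [hsum χ (fun _ => 1) (hinf_const 1) (fun z => by simp) k, dslope_one, zero_smul,
      add_zero] at this
  have r2 : Tendsto (fun k => T (y1 k) - w • y1 k - y2 k + b) U (𝓝 0) := by
    refine squeeze_zero_norm (fun k => ?_) hRI
    have := (A k).res H hR hχ1 hg g1 w
    rwa [hsum _ (fun z => (z - w') * 1) ((hinf_sub_const w').mul' (hinf_const 1))
      (fun z => by simp) k, dslope_sub_mul (differentiableAt_const _), one_smul] at this
  have hbd : ∀ k, ‖P (y0 k)‖ ≤ ‖P‖ * (10 * ‖clm Θ H.cont‖ * (R' + R) * (10 * (4 * C * 2))) :=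
    fun k => (P.le_opNorm _).trans (mul_le_mul_of_nonneg_left ((A k).norm_YY_le H.cont hR hR' hχ
      (by positivity) (hcau hχ g0 _ _ ((A k).test_d hχ) (A k).bd)
      (hcau hχ g0 _ _ ((A k).test_e hχ) (A k).be)) (norm_nonneg _))
  obtain ⟨x, hx⟩ := H.refl.exists_weak_lim U hbd
  refine ⟨-x, ?_, by rw [norm_neg]; exact norm_le_of_weak hx hbd, ?_⟩
  · rw [map_neg, neg_inj, SeparatingDual.eq_iff_forall_dual_eq (R := ℂ)]
    intro l
    refine tendsto_nhds_unique (hx (l.comp P)) ((hx l).congr fun k => ?_)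
    simp [H.idem_apply]
  · rw [SeparatingDual.eq_iff_forall_dual_eq (R := ℂ)]
    intro l
    let l1 : StrongDual ℂ E := l.comp T - w • l
    let l2 : StrongDual ℂ E := l1.comp T - w' • l1
    have e1 := (((l1.comp P).continuous.tendsto 0).comp r1).add
      ((((l.comp P).continuous.tendsto 0).comp r2).add (L l))
    have e2 : Tendsto (fun k => l2 (P (y0 k)) + l b) U (𝓝 (l2 x + l b)) := (hx l2).add_const _
    have e3 := tendsto_nhds_unique e2 (e1.congr fun k => by
      simp only [Function.comp, l2, l1, ContinuousLinearMap.comp_apply, map_sub, map_add, map_smul,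
        ContinuousLinearMap.sub_apply, ContinuousLinearMap.smul_apply, H.comm_apply, hPb,
        smul_eq_mul, y2]
      ring)
    simp only [map_zero, add_zero, l2, l1, ContinuousLinearMap.comp_apply,
      ContinuousLinearMap.sub_apply, ContinuousLinearMap.smul_apply, smul_eq_mul] at e3
    simp only [map_sub, map_smul, map_neg, smul_eq_mul]
    linear_combination -e3

end Pool.Agent.P.MP_f981b0_an.TB
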