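import Pool.Agent.P.MP_f981b0_an.TB.One
import Pool.Agent.P.MP_f981b0_an.TB.Two
import Pool.Agent.P.MP_f981b0_an.TB.Comp

set_option autoImplicit false

noncomputable section

namespace Pool.Agent.P.MP_f981b0_an.TB

open MeasureTheory Metric Set R1

variable {X : Type*} [TopologicalSpace X] [CompactSpace X]
variable {E : Type*} [NormedAddCommGroup E] [NormedSpace ℂ E]

theorem key_unit [CompleteSpace E] {Θ : C(X, ℂ) →ₐ[ℂ] (E →L[ℂ] E)} {a : C(X, ℂ)}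
    {T P : E →L[ℂ] E} {u : ℕ → E} {v : ℕ → StrongDual ℂ E} (H : Setup Θ a T P u v)
    (hG : TC.GoodOfRoute) (hs : Sel Θ a P u v) (hinj : Inj T P) (hno : NoLoc T P) :
    ∃ δ : ℝ, 0 < δ ∧ ∀ f : C(X, ℂ), (∀ x, δ ≤ ‖a x‖ → f x = 0) →
      IsCompactOperator (P * Θ f : E →L[ℂ] E) := by
  obtain ⟨ρ, hm, h0, h1, hI, hII⟩ := hs
  by_cases hB : BPE ρ
  · obtain ⟨r, C, hr, hr1, h2⟩ := res2_of_bpe H hinj hno hm h0 h1 hII hB
    exact ⟨r / 2, by positivity, fun f hf => compact_of_res2 H hinj hno hr hr1 h2 f hf⟩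
  · exact absurd (cheap2_of_not_bpe hG hm h0 h1 hB) (not_cheap2 H hinj hno hm h0 h1 hI)

end Pool.Agent.P.MP_f981b0_an.TB
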