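import Pool.Agent.P.MP_f981b0_an.TB.Basic

set_option autoImplicit false

noncomputable section

namespace Pool.Agent.P.MP_f981b0_an.TB

open MeasureTheory Metric Set Filter Topology R1

variable {X : Type*} [TopologicalSpace X] [CompactSpace X]
variable {E : Type*} [NormedAddCommGroup E] [NormedSpace ℂ E]
variable {Θ : C(X, ℂ) →ₐ[ℂ] (E →L[ℂ] E)} {a : C(X, ℂ)} {T P : E →L[ℂ] E} {u : ℕ → E}
  {v : ℕ → StrongDual ℂ E}

theorem test_mul_of_sum {χ : ℂ → ℂ} (h : Test χ) {s : Finset ℕ} {d : ℕ → ℂ → ℂ}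
    (md : ∀ n, Measurable (d n)) (bd : ∀ z, ∑ n ∈ s, ‖d n z‖ ^ 2 ≤ 4)
    (d0 : ∀ n, n ∉ s → ∀ z, d n z = 0) (n : ℕ) : Test fun z => χ z * d n z := by
  refine test_mul h (md n) (B := 2) fun z _ => ?_
  by_cases hn : n ∈ s
  · exact norm_le_of_sum_sq (x := fun n => d n z) zero_le_two ((bd z).trans (by norm_num)) hn
  · simp [d0 n hn]

section Adm

variable {s : Finset ℕ} {d e : ℕ → ℂ → ℂ} {γ : ℂ → ℝ}

omit [CompactSpace X] in
theorem Adm.test_d (A : Adm Θ a P u v s d e γ) {χ : ℂ → ℂ} (h : Test χ) (n : ℕ) :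
    Test fun z => χ z * d n z := test_mul_of_sum h A.md A.bd A.d0 n

omit [CompactSpace X] in
theorem Adm.test_e (A : Adm Θ a P u v s d e γ) {χ : ℂ → ℂ} (h : Test χ) (n : ℕ) :
    Test fun z => χ z * e n z := test_mul_of_sum h A.me A.be A.e0 n

omit [CompactSpace X] in
theorem Adm.YY_const_mul (A : Adm Θ a P u v s d e γ) {χ : ℂ → ℂ} (h : Test χ) (c : ℂ) :
    YY Θ a P u s d e (fun z => c * χ z) = c • YY Θ a P u s d e χ := by
  simp only [YY, mul_assoc, cc_const_mul a (A.test_d h _), cc_const_mul a (A.test_e h _), map_smul,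
    ContinuousLinearMap.smul_apply, Finset.smul_sum, smul_add]

omit [CompactSpace X] in
theorem Adm.YY_sub_mul (A : Adm Θ a P u v s d e γ) {χ : ℂ → ℂ} (h : Test χ) (w : ℂ) :
    YY Θ a P u s d e (fun z => (z - w) * χ z) =
      ∑ n ∈ s, (∫ z in ball (0 : ℂ) 1, χ z * d n z) • P (u n) +
        ∑ n ∈ s, (∫ z in ball (0 : ℂ) 1, χ z * e n z) • u n +
        (Θ a (YY Θ a P u s d e χ) - w • YY Θ a P u s d e χ) := by
  simp only [YY, mul_assoc, cc_sub_mul a (A.test_d h _), cc_sub_mul a (A.test_e h _), map_smul,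
    map_add, map_sub, map_mul, map_one, map_sum, ContinuousLinearMap.smul_apply,
    ContinuousLinearMap.add_apply, ContinuousLinearMap.sub_apply, ContinuousLinearMap.mul_apply,
    ContinuousLinearMap.one_apply, Finset.smul_sum, smul_add, ← Finset.sum_add_distrib,
    ← Finset.sum_sub_distrib]
  refine Finset.sum_congr rfl fun n _ => ?_
  abel

omit [CompactSpace X] in
theorem Adm.est' (A : Adm Θ a P u v s d e γ) {χ : ℂ → ℂ} (h : Test χ) {g : ℂ → ℝ} (hg : Dens g)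
    (hχg : ∀ z, ‖χ z‖ ≤ g z) (t : Finset ℕ) (c : ℕ → ℂ) {M : ℝ} (hM : 0 ≤ M)
    (hc : ∑ m ∈ t, ‖c m‖ ^ 2 ≤ M ^ 2) :
    ‖∑ m ∈ t, c m * ((∫ z in ball (0 : ℂ) 1, χ z * e m z) - v m (YY Θ a P u s d e χ))‖ ≤
        M * ∫ z in ball (0 : ℂ) 1, g z * γ z ∧
      ‖∑ m ∈ t, c m * v m (YY Θ a P u s d e χ - P (YY Θ a P u s d e χ))‖ ≤
        M * ∫ z in ball (0 : ℂ) 1, g z * γ z := by
  have h1 := A.est t (fun m z => c m * χ z) (fun z => M * g z) (fun m => test_const_mul h _)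
    (hg.const_mul hM) fun z => by
      simp only [norm_mul, mul_pow]
      rw [← Finset.sum_mul]
      exact mul_le_mul hc (pow_le_pow_left₀ (norm_nonneg _) (hχg z) 2) (by positivity)
        (by positivity)
  simp only [A.YY_const_mul h, mul_assoc, integral_const_mul, map_smul, smul_eq_mul, ← smul_sub,
    ← mul_sub] at h1
  exact h1

theorem Adm.res (H : Setup Θ a T P u v) (A : Adm Θ a P u v s d e γ) {R : ℝ}
    (hR : ∀ t, rad u t ≤ R) {χ : ℂ → ℂ} (h : Test χ) {g : ℂ → ℝ} (hg : Dens g)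
    (hχg : ∀ z, ‖χ z‖ ≤ g z) (w : ℂ) :
    ‖T (YY Θ a P u s d e χ) - w • YY Θ a P u s d e χ - YY Θ a P u s d e (fun z => (z - w) * χ z) +
      ∑ n ∈ s, (∫ z in ball (0 : ℂ) 1, χ z * d n z) • P (u n)‖ ≤
      R * ∫ z in ball (0 : ℂ) 1, g z * γ z := by
  have hR0 : 0 ≤ R := (Real.sqrt_nonneg _).trans (hR ∅)
  have hI : 0 ≤ ∫ z in ball (0 : ℂ) 1, g z * γ z :=
    integral_nonneg fun z => mul_nonneg (hg.nonneg z) (A.nonneg z)
  set y := YY Θ a P u s d e χ with hy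
  have h1 : T y - w • y - YY Θ a P u s d e (fun z => (z - w) * χ z) +
      ∑ n ∈ s, (∫ z in ball (0 : ℂ) 1, χ z * d n z) • P (u n) =
      (T y - Θ a y) - ∑ n ∈ s, (∫ z in ball (0 : ℂ) 1, χ z * e n z) • u n := by
    rw [A.YY_sub_mul h]
    abel
  rw [h1]
  refine NormedSpace.norm_le_dual_bound ℂ _ (by positivity) fun l => ?_
  have h2 : Tendsto (fun t : Finset ℕ => ∑ m ∈ t, v m y * l (u m) -
      l (∑ n ∈ s, (∫ z in ball (0 : ℂ) 1, χ z * e n z) • u n)) atTop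
      (𝓝 (l (T y - Θ a y) - l (∑ n ∈ s, (∫ z in ball (0 : ℂ) 1, χ z * e n z) • u n))) :=
    Tendsto.sub_const (H.hK y l) _
  rw [map_sub]
  refine le_of_tendsto h2.norm ?_
  filter_upwards [eventually_ge_atTop s] with t ht
  have h3 := (A.est' h hg hχg t (fun m => l (u m)) (M := ‖l‖ * R) (by positivity)
    ((sum_sq_dual_le u t l).trans (by
      have := hR t
      have h0 : 0 ≤ rad u t := Real.sqrt_nonneg _
      gcongr))).1
  have h4 : l (∑ n ∈ s, (∫ z in ball (0 : ℂ) 1, χ z * e n z) • u n) =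
      ∑ m ∈ t, l (u m) * ∫ z in ball (0 : ℂ) 1, χ z * e m z := by
    rw [map_sum]
    refine (Finset.sum_congr rfl fun n _ => ?_).trans (Finset.sum_subset ht fun n _ hn => ?_)
    · rw [map_smul, smul_eq_mul, mul_comm]
    · simp [A.e0 n hn]
  rw [h4, ← Finset.sum_sub_distrib, ← norm_neg, ← Finset.sum_neg_distrib]
  refine le_trans (le_of_eq ?_) (h3.trans_eq (by ring))
  congr 1
  refine Finset.sum_congr rfl fun m _ => ?_
  ring

theorem Adm.norm_YY_le (hΘ : Continuous Θ) (A : Adm Θ a P u v s d e γ) {R R' : ℝ}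
    (hR : ∀ t, rad u t ≤ R) (hR' : ∀ t, rad (fun n => P (u n)) t ≤ R') {χ : ℂ → ℂ} (h : Test χ)
    {D : ℝ} (hD : 0 ≤ D) (hd : ∀ ζ, ∑ n ∈ s, ‖cauchy (fun z => χ z * d n z) ζ‖ ^ 2 ≤ D ^ 2)
    (he : ∀ ζ, ∑ n ∈ s, ‖cauchy (fun z => χ z * e n z) ζ‖ ^ 2 ≤ D ^ 2) :
    ‖YY Θ a P u s d e χ‖ ≤ 10 * ‖clm Θ hΘ‖ * (R' + R) * D := by
  rw [YY, Finset.sum_add_distrib]
  have h1 := rad_bound_col Θ hΘ (fun n => P (u n)) s (fun n => cc a fun z => χ z * d n z) hD
    fun x => by simpa only [cc_apply a (A.test_d h _)] using hd (a x)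
  have h2 := rad_bound_col Θ hΘ u s (fun n => cc a fun z => χ z * e n z) hD
    fun x => by simpa only [cc_apply a (A.test_e h _)] using he (a x)
  have h3 := hR s
  have h4 := hR' s
  calc _ ≤ _ := norm_add_le_of_le h1 h2
    _ ≤ 10 * ‖clm Θ hΘ‖ * R' * D + 10 * ‖clm Θ hΘ‖ * R * D := by gcongr
    _ = _ := by ring

theorem Adm.diff_YY (hΘ : Continuous Θ) (A : Adm Θ a P u v s d e γ) {χ : ℂ → ℂ} (h : Test χ) :
    DifferentiableOn ℂ (fun w => YY Θ a P u s d e fun z => χ z / (z - w)) (closedBall 0 1)ᶜ := by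
  have key : ∀ {φ : ℂ → ℂ} (hφ : Test φ) (x : E), DifferentiableOn ℂ
      (fun w => Θ (qq (cau hφ) a w) x) (closedBall 0 1)ᶜ := fun hφ x => by
    obtain ⟨B, hB⟩ := exists_norm_cauchy_le hφ
    exact diff_theta_qq Θ hΘ a (differentiableOn_cauchy hφ) hB x
  refine DifferentiableOn.congr (f := fun w => ∑ n ∈ s, (Θ (qq (cau (A.test_d h n)) a w) (P (u n)) +
    Θ (qq (cau (A.test_e h n)) a w) (u n))) (DifferentiableOn.fun_sum fun n _ =>
      (key _ _).add (key _ _)) fun w hw => ?_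
  simp only [YY, div_mul_eq_mul_div, cc_div a (A.test_d h _) hw, cc_div a (A.test_e h _) hw]

end Adm

theorem Setup.comm_apply (H : Setup Θ a T P u v) (x : E) : P (T x) = T (P x) :=
  congrArg (fun L : E →L[ℂ] E => L x) H.comm

theorem Setup.idem_apply (H : Setup Θ a T P u v) (x : E) : P (P x) = P x :=
  congrArg (fun L : E →L[ℂ] E => L x) H.idem

theorem norm_div_le {χ : ℂ → ℂ} (h : Test χ) {g : ℂ → ℝ} (hg : Dens g) (hχg : ∀ z, ‖χ z‖ ≤ g z)
    {w : ℂ} (hw : w ∉ closedBall (0 : ℂ) 1) (z : ℂ) : ‖χ z / (z - w)‖ ≤ (‖w‖ - 1)⁻¹ * g z := by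
  have hw' := one_lt_of_notMem hw
  by_cases hz : 1 ≤ ‖z‖
  · simp [h.supp z hz, hg.supp z hz]
  · rw [norm_div, ← div_eq_inv_mul]
    exact div_le_div₀ (hg.nonneg z) (hχg z) (by linarith) (norm_sub_ge_of_unit (not_le.1 hz))

/-- The limit lemma. -/
theorem lim [CompleteSpace E] (H : Setup Θ a T P u v) (hinj : Inj T P) (hno : NoLoc T P)
    {ι : Type*} (U : Ultrafilter ι) {s : ι → Finset ℕ} {d e : ι → ℕ → ℂ → ℂ} {γ : ι → ℂ → ℝ}
    (A : ∀ k, Adm Θ a P u v (s k) (d k) (e k) (γ k)) {χ : ι → ℂ → ℂ} {g : ι → ℂ → ℝ}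
    (hχ : ∀ k, Test (χ k)) (hg : ∀ k, Dens (g k)) (hχg : ∀ k z, ‖χ k z‖ ≤ g k z) {D : ℝ}
    (hD : 0 ≤ D) (hd : ∀ k ζ, ∑ n ∈ s k, ‖cauchy (fun z => χ k z * d k n z) ζ‖ ^ 2 ≤ D ^ 2)
    (he : ∀ k ζ, ∑ n ∈ s k, ‖cauchy (fun z => χ k z * e k n z) ζ‖ ^ 2 ≤ D ^ 2)
    (h0 : Tendsto (fun k => ∫ z in ball (0 : ℂ) 1, g k z * γ k z) U (𝓝 0))
    (h1 : ∀ w, w ∉ closedBall (0 : ℂ) 1 → Tendsto (fun k => ∑ n ∈ s k,
      (∫ z in ball (0 : ℂ) 1, χ k z / (z - w) * d k n z) • P (u n)) U (𝓝 0)) :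
    (∀ l : StrongDual ℂ E,
      Tendsto (fun k => l (P (YY Θ a P u (s k) (d k) (e k) (χ k)))) U (𝓝 0)) ∧
    ∀ w, w ∉ closedBall (0 : ℂ) 1 → ∀ l : StrongDual ℂ E, Tendsto (fun k =>
      l (P (YY Θ a P u (s k) (d k) (e k) fun z => χ k z / (z - w)))) U (𝓝 0) := by
  obtain ⟨R, hR0, hR⟩ := H.hu.bdd
  obtain ⟨R', hR0', hR'⟩ := (H.hu.map P).bdd
  obtain ⟨y, G, h2, h3, h4, h5⟩ := H.refl.loc_limit T U (t := 0) (r := 1)
    (g := fun k w => YY Θ a P u (s k) (d k) (e k) fun z => χ k z / (z - w))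
    (y := fun k => YY Θ a P u (s k) (d k) (e k) (χ k))
    (C := 10 * ‖clm Θ H.cont‖ * (R' + R) * (2 * D)) (B := 10 * ‖clm Θ H.cont‖ * (R' + R) * D)
    (fun k => (A k).diff_YY H.cont (hχ k))
    (fun k w hw => by
      have hp := pos_of_notMem hw
      rw [mul_div_assoc]
      refine (A k).norm_YY_le H.cont hR hR' ((hχ k).div hw) (by positivity) (fun ζ => ?_)
        fun ζ => ?_
      · simpa only [div_mul_eq_mul_div] using
          sum_sq_cauchy_div_le (s k) ((A k).test_d (hχ k)) hD (hd k) hw ζ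
      · simpa only [div_mul_eq_mul_div] using
          sum_sq_cauchy_div_le (s k) ((A k).test_e (hχ k)) hD (he k) hw ζ)
    (fun k => (A k).norm_YY_le H.cont hR hR' (hχ k) hD (hd k) (he k))
    (fun w hw => by
      have hw' := one_lt_of_notMem hw
      have hi : 0 ≤ (‖w‖ - 1)⁻¹ := inv_nonneg.2 (by linarith)
      have h6 : Tendsto (fun k => R * ((‖w‖ - 1)⁻¹ * ∫ z in ball (0 : ℂ) 1, g k z * γ k z)) U
          (𝓝 0) := by simpa using (h0.const_mul (‖w‖ - 1)⁻¹).const_mul R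
      have h7 := (squeeze_zero_norm (fun k => ((A k).res H hR ((hχ k).div hw)
        ((hg k).const_mul hi) (norm_div_le (hχ k) (hg k) (hχg k) hw) w).trans_eq (by
          simp only [mul_assoc, integral_const_mul])) h6).sub (h1 w hw)
      rw [sub_zero] at h7
      refine h7.congr fun k => ?_
      have : (fun z => (z - w) * (χ k z / (z - w))) = χ k := by
        funext z
        by_cases hz : z = w
        · rw [(hχ k).supp z (by rw [hz]; exact hw'.le)]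
          simp
        · have := sub_ne_zero.2 hz
          field_simp
      rw [this, add_sub_cancel_right])
  have hy : P y = 0 := hno y h2
  refine ⟨fun l => by simpa [hy] using h4 (l.comp P), fun w hw l => ?_⟩
  have hG : P (G w) = 0 := hinj w _ (H.idem_apply _) (by
    rw [← H.comm_apply, ← map_smul, ← sub_eq_zero, ← map_sub, h3 w hw, hy])
  simpa [hG] using h5 w hw (l.comp P)

end Pool.Agent.P.MP_f981b0_an.TB
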