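import Pool.Agent.P.MP_f981b0_an.TB.SelA

set_option autoImplicit false

noncomputable section

namespace Pool.Agent.P.MP_f981b0_an.TB

open MeasureTheory Metric Set R1 Filter Topology

namespace T4

lemma exists_dense_seq {Y : Type*} [TopologicalSpace Y] [SecondCountableTopology Y] {S : Set Y}
    (hS : S.Nonempty) : ∃ f : ℕ → Y, (∀ k, f k ∈ S) ∧
      ∀ U : Set Y, IsOpen U → ∀ x ∈ S, x ∈ U → ∃ k, f k ∈ U := by
  have : Nonempty S := hS.to_subtype
  refine ⟨fun k => (TopologicalSpace.denseSeq S k).1, fun k => (TopologicalSpace.denseSeq S k).2,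
    fun U hU x hx hxU => ?_⟩
  obtain ⟨k, hk⟩ := (TopologicalSpace.denseRange_denseSeq S).exists_mem_open
    (hU.preimage continuous_subtype_val) ⟨⟨x, hx⟩, hxU⟩
  exact ⟨k, hk⟩

/-- A measurable gauge: the infimum over `k` of the supremum over `t`, cut at `1`. -/
lemma exists_gauge {α κ : Type*} [MeasurableSpace α] [Countable κ] (g : ℕ → κ → α → ℝ)
    (hg : ∀ k t, Measurable (g k t)) :
    ∃ ρ : α → ℝ, Measurable ρ ∧ (∀ z, 0 ≤ ρ z) ∧ (∀ z, ρ z ≤ 1) ∧
      (∀ z k b, 0 ≤ b → (∀ t, g k t z ≤ b) → ρ z ≤ b) ∧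
      ∀ z δ, 0 < δ → ρ z < 1 → ∃ k, ∀ t, g k t z ≤ ρ z + δ := by
  let G : α → ENNReal := fun z => min 1 (⨅ k, ⨆ t, ENNReal.ofReal (g k t z))
  have hG : Measurable G := measurable_const.min
    (Measurable.iInf fun k => Measurable.iSup fun t => (hg k t).ennreal_ofReal)
  have hfin : ∀ z, G z ≠ ⊤ := fun z => ne_top_of_le_ne_top ENNReal.one_ne_top (min_le_left _ _)
  refine ⟨fun z => (G z).toReal, hG.ennreal_toReal, fun z => ENNReal.toReal_nonneg, fun z => ?_,
    fun z k b hb h => ?_, fun z δ hδ h => ?_⟩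
  · exact ENNReal.toReal_le_of_le_ofReal zero_le_one (by simp [G])
  · refine ENNReal.toReal_le_of_le_ofReal hb ((min_le_right _ _).trans (iInf_le_of_le k ?_))
    exact iSup_le fun t => ENNReal.ofReal_le_ofReal (h t)
  · have h1 : G z < ENNReal.ofReal ((G z).toReal + δ) := by
      rw [ENNReal.lt_ofReal_iff_toReal_lt (hfin z)]
      linarith
    have h2 : G z = ⨅ k, ⨆ t, ENNReal.ofReal (g k t z) := by
      refine min_eq_right ?_
      by_contra h3
      have h4 : G z = 1 := min_eq_left (not_le.1 h3).le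
      simp [h4] at h
    rw [h2, iInf_lt_iff] at h1
    obtain ⟨k, hk⟩ := h1
    refine ⟨k, fun t => ?_⟩
    have h5 := (le_iSup (fun t => ENNReal.ofReal (g k t z)) t).trans hk.le
    rw [← h2] at h5
    exact (ENNReal.ofReal_le_ofReal_iff (by positivity)).1 h5

/-- Measurable choice of an index. -/
lemma exists_choice {α : Type*} [MeasurableSpace α] (p : ℕ → α → Prop)
    (hp : ∀ k, MeasurableSet {z | p k z}) :
    ∃ q : α → ℕ, Measurable q ∧ ∀ z, (∃ k, p k z) → p (q z) z := by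
  classical
  have h : ∀ z, ∃ k, p k z ∨ ¬∃ k, p k z := fun z => by
    by_cases h : ∃ k, p k z
    · exact h.imp fun k hk => Or.inl hk
    · exact ⟨0, Or.inr h⟩
  refine ⟨fun z => Nat.find (h z), measurable_find h fun k => ?_,
    fun z hz => (Nat.find_spec (h z)).resolve_right (not_not.2 hz)⟩
  have : MeasurableSet {z | ∃ k, p k z} := by
    rw [ofPred_exists]
    exact MeasurableSet.iUnion hp
  exact (hp k).union this.compl

lemma exists_cut {α : Type*} [MeasurableSpace α] (μ : Measure α) [IsFiniteMeasure μ] {q : α → ℕ}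
    (hq : Measurable q) {δ : ℝ} (hδ : 0 < δ) : ∃ K, μ.real {z | K < q z} ≤ δ := by
  have h1 := tendsto_measure_iInter_atTop (μ := μ) (s := fun K => {z | K < q z})
    (fun K => (measurableSet_lt measurable_const hq).nullMeasurableSet)
    (fun K L h z hz => lt_of_le_of_lt h hz) ⟨0, measure_ne_top _ _⟩
  have h2 : ⋂ K, {z | K < q z} = ∅ := by
    refine eq_empty_of_forall_notMem fun z hz => ?_
    exact lt_irrefl (q z) (mem_iInter.1 hz (q z))
  rw [h2, measure_empty] at h1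
  obtain ⟨K, hK⟩ := (h1.eventually (eventually_le_nhds (ENNReal.ofReal_pos.2 hδ))).exists
  exact ⟨K, ENNReal.toReal_le_of_le_ofReal hδ.le hK⟩

/-- The vector `(1 + B) x` for `x` supported in `[0, N)`. -/
def Fv (N : ℕ) (B : ℕ → ℕ → ℂ) (x : ℕ → ℂ) (m : ℕ) : ℂ :=
  x m + ∑ n ∈ Finset.range N, B m n * x n

lemma Fv_mul (N : ℕ) (B : ℕ → ℕ → ℂ) (c : ℂ) (x : ℕ → ℂ) (m : ℕ) :
    Fv N B (fun n => c * x n) m = c * Fv N B x m := by
  simp only [Fv, mul_add, Finset.mul_sum, mul_left_comm]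

lemma Fv_mono {N M : ℕ} (h : N ≤ M) (B : ℕ → ℕ → ℂ) {x : ℕ → ℂ} (hx : ∀ n, N ≤ n → x n = 0) :
    Fv M B x = Fv N B x := by
  funext m
  rw [Fv, Fv, Finset.sum_subset (Finset.range_subset_range.2 h) fun n _ hn => by
    rw [hx n (by simpa using hn), mul_zero]]

lemma continuous_nv_Fv (N : ℕ) (B : ℕ → ℕ → ℂ) (t : Finset ℕ) (y : ℕ → ℂ) :
    Continuous fun x : ℕ → ℂ => nv t fun m => Fv N B x m - y m := by
  unfold nv Fv
  fun_prop

lemma measurable_Fv {A : ℕ → ℕ → ℂ → ℂ} (hA : ∀ m n, Measurable (A m n)) (N : ℕ) (x : ℕ → ℂ)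
    (m : ℕ) : Measurable fun z => Fv N (fun m n => A m n z) x m := by
  unfold Fv
  fun_prop

lemma nv_Fv_le {N : ℕ} {B : ℕ → ℕ → ℂ} {η : ℝ}
    (hB : ∀ J : Finset (ℕ × ℕ), (∀ j ∈ J, N ≤ j.1) → (nv J fun j => B j.1 j.2) ≤ η)
    {x y : ℕ → ℂ} (hx : ∀ n, N ≤ n → x n = 0) (hy : ∀ n, N ≤ n → y n = 0)
    (hx1 : nv (Finset.range N) x ≤ 1) (t : Finset ℕ) :
    (nv t fun m => Fv N B x m - y m) ≤ (nv (Finset.range N) fun m => Fv N B x m - y m) + η := by
  refine (nv_split t (Finset.range N) _).trans (add_le_add le_rfl ?_)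
  rw [nv_congr (y := fun m => ∑ n ∈ Finset.range N, B m n * x n) fun m hm => by
    have : N ≤ m := by simpa using (Finset.mem_sdiff.1 hm).2
    simp [Fv, hx m this, hy m this]]
  refine (nv_matrix _ _ B x).trans ?_
  have h1 := hB ((t \ Finset.range N) ×ˢ Finset.range N) fun j hj => by
    simpa using (Finset.mem_sdiff.1 (Finset.mem_product.1 hj).1).2
  exact (mul_le_of_le_one_right (nv_nonneg _ _) hx1).trans h1

lemma solve {N : ℕ} {B : ℕ → ℕ → ℂ} {τ : ℝ}
    (hL : ∀ x : ℕ → ℂ, (∀ n, N ≤ n → x n = 0) → nv (Finset.range N) x = 1 →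
      τ ≤ nv (Finset.range N) (Fv N B x)) {c : ℕ → ℂ} (hc : nv (Finset.range N) c ≤ 1) :
    ∃ r : ℕ → ℂ, (∀ n, N ≤ n → r n = 0) ∧ nv (Finset.range N) r ≤ 1 ∧
      ∀ m ∈ Finset.range N, Fv N B r m = (max τ 0 : ℝ) * c m := by
  rcases le_or_gt τ 0 with hτ | hτ
  · exact ⟨fun _ => 0, fun _ _ => rfl, by simp [nv], fun m _ => by simp [Fv, max_eq_right hτ]⟩
  have hL' : ∀ x : ℕ → ℂ, (∀ n, N ≤ n → x n = 0) →
      τ * nv (Finset.range N) x ≤ nv (Finset.range N) (Fv N B x) := by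
    intro x hx
    rcases (nv_nonneg (Finset.range N) x).eq_or_lt with h | h
    · rw [← h, mul_zero]
      exact nv_nonneg _ _
    have hn : ‖((nv (Finset.range N) x : ℝ) : ℂ)⁻¹‖ = (nv (Finset.range N) x)⁻¹ := by
      rw [norm_inv, Complex.norm_real, Real.norm_of_nonneg h.le]
    have := hL (fun n => ((nv (Finset.range N) x : ℝ) : ℂ)⁻¹ * x n) (fun n hn => by simp [hx n hn])
      (by rw [nv_mul, hn, inv_mul_cancel₀ h.ne'])
    rw [nv_congr fun m _ => Fv_mul N B _ x m, nv_mul, hn, ← div_eq_inv_mul, le_div_iff₀ h] at this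
    exact this
  let ex : (Fin N → ℂ) → ℕ → ℂ := fun x n => if h : n < N then x ⟨n, h⟩ else 0
  have ex0 : ∀ x n, N ≤ n → ex x n = 0 := fun x n hn => dif_neg (not_lt.2 hn)
  let L : (Fin N → ℂ) →ₗ[ℂ] (Fin N → ℂ) :=
    LinearMap.id + Matrix.toLin' (Matrix.of fun m n : Fin N => B m n)
  have hLx : ∀ x (m : Fin N), L x m = Fv N B (ex x) m := by
    intro x m
    simp [L, Fv, ex, Matrix.mulVec, dotProduct, Finset.sum_range]
  have hinj : Function.Injective L := by
    rw [← LinearMap.ker_eq_bot, LinearMap.ker_eq_bot']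
    intro x hx
    have h1 := hL' (ex x) (ex0 x)
    rw [nv_congr (x := Fv N B (ex x)) (y := fun _ => 0) fun m hm => by
      rw [← hLx x ⟨m, Finset.mem_range.1 hm⟩, hx]; rfl] at h1
    have h2 : nv (Finset.range N) (ex x) ≤ 0 := by
      have h3 : nv (Finset.range N) (fun _ => (0 : ℂ)) = 0 := by simp [nv]
      rw [h3] at h1
      exact nonpos_of_mul_nonpos_right h1 hτ
    funext m
    have h4 := (norm_le_nv (Finset.mem_range.2 m.2) (ex x)).trans h2
    simpa [ex] using h4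
  obtain ⟨x, hx⟩ := LinearMap.injective_iff_surjective.1 hinj fun m : Fin N => (τ : ℂ) * c m
  have h5 : ∀ m ∈ Finset.range N, Fv N B (ex x) m = (τ : ℂ) * c m := fun m hm => by
    rw [← hLx x ⟨m, Finset.mem_range.1 hm⟩, hx]
  refine ⟨ex x, ex0 x, ?_, by rwa [max_eq_left hτ.le]⟩
  have h6 := hL' (ex x) (ex0 x)
  rw [nv_congr h5, nv_mul, Complex.norm_real, Real.norm_of_nonneg hτ.le] at h6
  exact (le_of_mul_le_mul_left h6 hτ).trans hc

lemma exists_sphere_seq : ∃ (N : ℕ → ℕ) (e : ℕ → ℕ → ℂ), (∀ k n, N k ≤ n → e k n = 0) ∧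
    (∀ k, nv (Finset.range (N k)) (e k) = 1) ∧
    ∀ (M : ℕ) (G : (ℕ → ℂ) → ℝ), Continuous G → ∀ b : ℝ, (∀ k, N k = M → b ≤ G (e k)) →
      ∀ x : ℕ → ℂ, (∀ n, M ≤ n → x n = 0) → nv (Finset.range M) x = 1 → b ≤ G x := by
  obtain ⟨f, hf, hd⟩ := exists_dense_seq (S := {p : ℕ × (ℕ → ℂ) | (∀ n, p.1 ≤ n → p.2 n = 0) ∧
    nv (Finset.range p.1) p.2 = 1}) ⟨(1, fun n => if n = 0 then 1 else 0),
      fun n hn => if_neg (by simp only at hn; omega), by simp [nv]⟩
  refine ⟨fun k => (f k).1, fun k => (f k).2, fun k => (hf k).1, fun k => (hf k).2,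
    fun M G hG b hb x hx hx1 => ?_⟩
  by_contra h
  obtain ⟨k, hk1, hk2⟩ := hd ({M} ×ˢ {y | G y < b}) ((isOpen_discrete _).prod
    (isOpen_lt hG continuous_const)) (M, x) ⟨hx, hx1⟩ ⟨rfl, not_le.1 h⟩
  exact absurd (hb k hk1) (not_le.2 hk2)

lemma intOn_of_bdd {f : ℂ → ℝ} (hf : Measurable f) (h0 : ∀ z, 0 ≤ f z) (h1 : ∀ z, f z ≤ 1) :
    IntegrableOn f (ball (0 : ℂ) 1) :=
  Measure.integrableOn_of_bounded measure_ball_lt_top.ne hf.aestronglyMeasurable (M := 1)
    (Eventually.of_forall fun z => by rw [Real.norm_of_nonneg (h0 z)]; exact h1 z)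

lemma int_const (δ : ℝ) (hδ : 0 ≤ δ) : ∫ _ in ball (0 : ℂ) 1, δ ≤ 4 * δ := by
  rw [setIntegral_const, area_ball _ zero_le_one, smul_eq_mul]
  nlinarith [Real.pi_le_four]

variable {X : Type*} [TopologicalSpace X] [CompactSpace X]
variable {E : Type*} [NormedAddCommGroup E] [NormedSpace ℂ E]
variable {Θ : C(X, ℂ) →ₐ[ℂ] (E →L[ℂ] E)} {a : C(X, ℂ)} {v : ℕ → StrongDual ℂ E} {u : ℕ → E}
  {A : ℕ → ℕ → ℂ → ℂ}

lemma small_mul {C ε x : ℝ} (hC : 0 ≤ C) (hε : 0 < ε) (hx : x ≤ ε / (C + 1)) : C * x ≤ ε := by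
  refine (mul_le_mul_of_nonneg_left hx hC).trans ?_
  rw [mul_div_assoc', div_le_iff₀ (by positivity)]
  nlinarith

/-- Column tails. -/
theorem IsA.col_tail (hΘ : Continuous Θ) (hA : IsA Θ a v u A) (hu : RadSum u) (hv : RadSum v)
    {ε : ℝ} (hε : 0 < ε) : ∃ (n : ℕ) (η : ℂ → ℝ), Measurable η ∧ (∀ z, 0 ≤ η z) ∧
      IntegrableOn η (ball 0 1) ∧ ∫ z in ball (0 : ℂ) 1, η z ≤ ε ∧
      ∀ᵐ z ∂(volume.restrict (ball (0 : ℂ) 1)), ∀ t : Finset ℕ, (nv t fun m => A m n z) ≤ η z := by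
  obtain ⟨R, hR0, hR⟩ := hv.bdd
  have hC : 0 ≤ 100 * ‖clm Θ hΘ‖ * R := by positivity
  obtain ⟨n, hn⟩ := hu.tail (ε := ε / (100 * ‖clm Θ hΘ‖ * R + 1)) (by positivity)
  obtain ⟨η, h1, h2, h3, h4, h5⟩ := majorant (μ := volume.restrict (ball (0 : ℂ) 1))
    (A := fun m => A m n) (fun m => hA.meas m n) (fun m => hA.int m n) univ (B := ε) fun t _ => by
      have h6 := hA.int_nv_le hΘ t {n}
      have h7 := small_mul hC hε (hn {n} (by simp))
      have h8 : 0 ≤ rad u {n} := Real.sqrt_nonneg _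
      simp only [nv, Finset.sum_product, Finset.sum_singleton] at h6
      refine h6.trans (le_trans ?_ h7)
      have := mul_le_mul_of_nonneg_left (hR t) (mul_nonneg (norm_nonneg (clm Θ hΘ)) h8)
      nlinarith
  exact ⟨n, η, h1, h2, h3, h4, by filter_upwards [h5] with z hz t using hz t (by simp)⟩

/-- Row tails. -/
theorem IsA.row_tail (hΘ : Continuous Θ) (hA : IsA Θ a v u A) (hu : RadSum u) (hv : RadSum v)
    {ε : ℝ} (hε : 0 < ε) : ∃ (N : ℕ) (η : ℂ → ℝ), Measurable η ∧ (∀ z, 0 ≤ η z) ∧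
      IntegrableOn η (ball 0 1) ∧ ∫ z in ball (0 : ℂ) 1, η z ≤ ε ∧
      ∀ᵐ z ∂(volume.restrict (ball (0 : ℂ) 1)), ∀ J : Finset (ℕ × ℕ), (∀ j ∈ J, N ≤ j.1) →
        (nv J fun j => A j.1 j.2 z) ≤ η z := by
  obtain ⟨R, hR0, hR⟩ := hu.bdd
  have hC : 0 ≤ 100 * ‖clm Θ hΘ‖ * R := by positivity
  obtain ⟨N, hN⟩ := hv.tail (ε := ε / (100 * ‖clm Θ hΘ‖ * R + 1)) (by positivity)
  have hm : ∀ j : ℕ × ℕ, Measurable (A j.1 j.2) := fun j => hA.meas _ _
  have hi : ∀ j : ℕ × ℕ, IntegrableOn (A j.1 j.2) (ball 0 1) := fun j => hA.int _ _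
  refine ⟨N, majorant (A := fun j : ℕ × ℕ => A j.1 j.2) hm hi {j | N ≤ j.1} fun J hJ => ?_⟩
  refine (integral_mono (integrable_nv _ hm hi) (integrable_nv _ hm hi)
    fun z => nv_mono Finset.subset_product _).trans ((hA.int_nv_le hΘ _ _).trans ?_)
  have h7 := small_mul hC hε (hN (J.image Prod.fst) fun i hi => by
    obtain ⟨j, hj, rfl⟩ := Finset.mem_image.1 hi
    exact hJ j hj)
  have h8 : 0 ≤ rad v (J.image Prod.fst) := Real.sqrt_nonneg _
  have := mul_le_mul_of_nonneg_left (hR (J.image Prod.snd))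
    (mul_nonneg (norm_nonneg (clm Θ hΘ)) h8)
  nlinarith

theorem selI (hΘ : Continuous Θ) (hA : IsA Θ a v u A) (hu : RadSum u) (hv : RadSum v)
    {N : ℕ → ℕ} {e : ℕ → ℕ → ℂ} (he0 : ∀ k n, N k ≤ n → e k n = 0)
    (he1 : ∀ k, nv (Finset.range (N k)) (e k) = 1) {ρ : ℂ → ℝ} (hm : Measurable ρ)
    (h0 : ∀ z, 0 ≤ ρ z) (h1 : ∀ z, ρ z ≤ 1)
    (hU : ∀ z δ, 0 < δ → ρ z < 1 → ∃ k, ∀ t : Finset ℕ,
      nv t (Fv (N k) (fun m n => A m n z) (e k)) ≤ ρ z + δ) : SelI Θ a 1 u v ρ := by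
  intro ε hε
  have hδ : 0 < ε / 6 := by positivity
  obtain ⟨n0, η, mη, η0, iη, hη, hcol⟩ := hA.col_tail hΘ hu hv hδ
  obtain ⟨q, mq, hq⟩ := exists_choice (fun k z => ∀ t : Finset ℕ,
      nv t (Fv (N k) (fun m n => A m n z) (e k)) ≤ ρ z + ε / 6) fun k => by
    rw [ofPred_forall]
    exact MeasurableSet.iInter fun t => measurableSet_le
      (measurable_nv t fun m => measurable_Fv hA.meas _ _ m) (hm.add_const _)
  have : IsFiniteMeasure (volume.restrict (ball (0 : ℂ) 1)) :=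
    isFiniteMeasure_restrict.2 measure_ball_lt_top.ne
  obtain ⟨K, hK⟩ := exists_cut (volume.restrict (ball (0 : ℂ) 1)) mq hδ
  have mB : MeasurableSet {z | K < q z} := measurableSet_lt measurable_const mq
  set M := max (n0 + 1) ((Finset.range (K + 1)).sup N) with hM
  have hn0 : n0 ∈ Finset.range M := Finset.mem_range.2 (lt_max_of_lt_left n0.lt_succ_self)
  have hNM : ∀ k, k ≤ K → N k ≤ M := fun k hk =>
    le_max_of_le_right (Finset.le_sup (Finset.mem_range.2 (Nat.lt_succ_of_le hk)))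
  let x : ℕ → ℂ → ℂ := fun n z =>
    if ρ z < 1 ∧ q z ≤ K then e (q z) n else if n = n0 then 1 else 0
  have mx : ∀ n, Measurable (x n) := fun n =>
    Measurable.ite ((measurableSet_lt hm measurable_const).inter
      (measurableSet_le mq measurable_const))
      ((measurable_from_nat (f := fun k => e k n)).comp mq) measurable_const
  have x1 : ∀ z, ∑ n ∈ Finset.range M, ‖x n z‖ ^ 2 = 1 := by
    intro z
    by_cases h : ρ z < 1 ∧ q z ≤ K
    · simp only [x, if_pos h]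
      rw [← Finset.sum_subset (Finset.range_subset_range.2 (hNM _ h.2)) fun n _ hn => by
        simp [he0 _ n (by simpa using hn)], ← nv_sq, he1, one_pow]
    · simp only [x, if_neg h]
      rw [Finset.sum_eq_single_of_mem n0 hn0 fun n _ hn => by simp [hn]]
      simp
  have x0 : ∀ n, n ∉ Finset.range M → ∀ z, x n z = 0 := by
    intro n hn z
    by_cases h : ρ z < 1 ∧ q z ≤ K
    · simp only [x, if_pos h]
      exact he0 _ n ((hNM _ h.2).trans (by simpa using hn))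
    · simp only [x, if_neg h]
      exact if_neg fun h' : n = n0 => hn (h' ▸ hn0)
  have i1 : IntegrableOn (fun _ : ℂ => ε / 6) (ball (0 : ℂ) 1) := integrable_const _
  have i2 : IntegrableOn ({z | K < q z}.indicator fun _ => (1 : ℝ)) (ball (0 : ℂ) 1) :=
    (integrable_const _).indicator mB
  have p2 : ∀ z, 0 ≤ {z | K < q z}.indicator (fun _ => (1 : ℝ)) z :=
    indicator_nonneg fun _ _ => zero_le_one
  have i3 : IntegrableOn (fun z => ε / 6 + η z) (ball (0 : ℂ) 1) := i1.add iη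
  have i4 : IntegrableOn (fun z => ε / 6 + η z + {z | K < q z}.indicator (fun _ => (1 : ℝ)) z)
    (ball (0 : ℂ) 1) := i3.add i2
  have p4 : ∀ z, 0 ≤ ε / 6 + η z + {z | K < q z}.indicator (fun _ => (1 : ℝ)) z := fun z =>
    add_nonneg (add_nonneg hδ.le (η0 z)) (p2 z)
  refine ⟨Finset.range M, fun _ _ => 0, x, _, i4, p4, ?_, ?_, x1, fun z => ?_⟩
  · rw [integral_add i3 i2, integral_add i1 iη, integral_indicator_const _ mB, smul_eq_mul, mul_one]
    linarith [int_const _ hδ.le]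
  · refine adm_one hA (fun _ => measurable_const) mx (by simp) (fun z => by rw [x1]; norm_num)
      (fun _ _ _ => rfl) x0 ((intOn_of_bdd hm h0 h1).add i4) (fun z => add_nonneg (h0 z) (p4 z)) ?_
    filter_upwards [hcol] with z hz t
    simp only [zero_add]
    by_cases h : ρ z < 1 ∧ q z ≤ K
    · simp only [x, if_pos h]
      have h2 := hq z (hU z _ hδ h.1) t
      rw [← Fv_mono (hNM _ h.2) _ (he0 _)] at h2
      exact h2.trans (by linarith [η0 z, p2 z])
    · simp only [x, if_neg h]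
      refine (nv_add_le _ _ _).trans ?_
      have h2 : (nv t fun m => if m = n0 then (1 : ℂ) else 0) ≤ 1 := by
        rw [nv_le_iff _ _ zero_le_one]
        simp only [apply_ite fun w : ℂ => ‖w‖ ^ 2, norm_one, norm_zero, one_pow, ne_eq,
          OfNat.ofNat_ne_zero, not_false_eq_true, zero_pow, Finset.sum_ite_eq']
        split_ifs <;> norm_num
      have h3 : 1 ≤ ρ z + {z | K < q z}.indicator (fun _ => (1 : ℝ)) z := by
        rcases not_and_or.1 h with h | h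
        · linarith [p2 z, not_lt.1 h]
        · rw [indicator_of_mem (show z ∈ {z | K < q z} from not_le.1 h)]
          linarith [h0 z]
      simp only [mul_ite, mul_one, mul_zero, Finset.sum_ite_eq', if_pos hn0]
      linarith [hz t]
  · simpa using sq_nonneg _

theorem selII (hΘ : Continuous Θ) (hA : IsA Θ a v u A) (hu : RadSum u) (hv : RadSum v)
    {ρ : ℂ → ℝ} (hm : Measurable ρ) (h0 : ∀ z, 0 ≤ ρ z) (h1 : ∀ z, ρ z ≤ 1)
    (hL : ∀ z (M : ℕ) (η : ℝ), 0 ≤ η → (∀ J : Finset (ℕ × ℕ), (∀ j ∈ J, M ≤ j.1) →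
      (nv J fun j => A j.1 j.2 z) ≤ η) → ∀ x : ℕ → ℂ, (∀ n, M ≤ n → x n = 0) →
      nv (Finset.range M) x = 1 → ρ z - η ≤ nv (Finset.range M) (Fv M (fun m n => A m n z) x)) :
    SelII Θ a 1 u v ρ := by
  intro s0 c hc ε hε
  have hδ : 0 < ε / 6 := by positivity
  obtain ⟨N, η, mη, η0, iη, hη, hrow⟩ := hA.row_tail hΘ hu hv hδ
  set M := max N (s0.sup id + 1) with hM
  have hs0 : s0 ⊆ Finset.range M := fun n hn => Finset.mem_range.2
    (lt_max_of_lt_right (Nat.lt_succ_of_le (Finset.le_sup (f := id) hn)))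
  let c' : ℕ → ℂ := fun n => if n ∈ s0 then c n else 0
  have c0 : ∀ n, n ∉ Finset.range M → c' n = 0 := fun n hn => if_neg fun h => hn (hs0 h)
  have c1 : nv (Finset.range M) c' ≤ 1 := by
    rw [nv_le_iff _ _ zero_le_one, ← Finset.sum_subset hs0 fun n _ hn => by simp [c', hn],
      Finset.sum_congr rfl fun n hn => by rw [show c' n = c n from if_pos hn], one_pow]
    exact hc
  have c2 : ∀ b : ℝ, (nv (Finset.range M) fun n => (b : ℂ) * c' n) ≤ |b| := fun b => by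
    rw [nv_mul, Complex.norm_real, Real.norm_eq_abs]
    exact mul_le_of_le_one_right (abs_nonneg _) c1
  have c3 : ∀ z, (nv (Finset.range M) fun n => (ρ z : ℂ) * c' n) ≤ 1 := fun z =>
    (c2 _).trans (by rw [abs_of_nonneg (h0 z)]; exact h1 z)
  obtain ⟨r, hr, hd⟩ := exists_dense_seq (S := {x : ℕ → ℂ | (∀ n, M ≤ n → x n = 0) ∧
    nv (Finset.range M) x ≤ 1}) ⟨0, fun _ _ => rfl, by simp [nv]⟩
  obtain ⟨q, mq, hq⟩ := exists_choice (fun k z => (nv (Finset.range M) fun m =>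
      Fv M (fun m n => A m n z) (r k) m - ρ z * c' m) < η z + ε / 6) fun k =>
    measurableSet_lt (measurable_nv _ fun m => (measurable_Fv hA.meas _ _ m).sub
      ((Complex.measurable_ofReal.comp hm).mul_const _)) (mη.add_const _)
  have i1 : IntegrableOn (fun _ : ℂ => ε / 6) (ball (0 : ℂ) 1) :=
    integrableOn_const measure_ball_lt_top.ne
  have i2 : IntegrableOn (fun z => η z + ε / 6) (ball (0 : ℂ) 1) := iη.add i1
  have ed : (fun (n : ℕ) (z : ℂ) => if n ∈ s0 then (ρ z : ℂ) * c n else 0) =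
      fun n z => (ρ z : ℂ) * c' n := by
    funext n z
    simp [c']
  have md : ∀ n, Measurable fun z => (ρ z : ℂ) * c' n := fun n =>
    (Complex.measurable_ofReal.comp hm).mul_const _
  refine ⟨Finset.range M, fun n z => r (q z) n - ρ z * c' n, fun z => η z + ε / 6 + η z, hs0,
    ?_, ?_⟩
  · rw [integral_add i2 iη, integral_add iη i1]
    linarith [int_const _ hδ.le]
  rw [ed]
  refine adm_one hA md
    (fun n => ((measurable_from_nat (f := fun k => r k n)).comp mq).sub (md n))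
    (fun z => ((nv_le_iff _ _ zero_le_one).1 (c3 z)).trans (by norm_num)) (fun z => ?_)
    (fun n hn z => by rw [c0 n hn, mul_zero])
    (fun n hn z => by rw [c0 n hn, (hr _).1 n (by simpa using hn), mul_zero, sub_zero])
    (i2.add iη) (fun z => by linarith [η0 z]) ?_
  · have h2 := nv_add_le (Finset.range M) (r (q z)) fun n => ((-ρ z : ℝ) : ℂ) * c' n
    have h3 := c2 (-ρ z)
    rw [abs_neg, abs_of_nonneg (h0 z)] at h3
    have h4 : (nv (Finset.range M) fun n => r (q z) n - ρ z * c' n) ≤ 2 := by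
      simp only [Complex.ofReal_neg, neg_mul, ← sub_eq_add_neg] at h2 h3
      linarith [(hr (q z)).2, h1 z]
    exact ((nv_le_iff _ _ zero_le_two).1 h4).trans (by norm_num)
  filter_upwards [hrow] with z hz t
  have hz' : ∀ J : Finset (ℕ × ℕ), (∀ j ∈ J, M ≤ j.1) → (nv J fun j => A j.1 j.2 z) ≤ η z :=
    fun J hJ => hz J fun j hj => (le_max_left _ _).trans (hJ j hj)
  obtain ⟨r0, r1, r2, r3⟩ := solve (hL z M (η z) (η0 z) hz') c1
  have h2 := hq z (hd _ (isOpen_lt (continuous_nv_Fv M (fun m n => A m n z) (Finset.range M)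
    fun m => ρ z * c' m) continuous_const) r0 ⟨r1, r2⟩ (by
      rw [mem_ofPred_eq, nv_congr (y := fun m => ((max (ρ z - η z) 0 - ρ z : ℝ) : ℂ) * c' m)
        fun m hm => by rw [r3 m hm]; push_cast; ring]
      refine (c2 _).trans_lt (lt_of_le_of_lt (abs_le.2 ⟨?_, ?_⟩) (lt_add_of_pos_right _ hδ))
      · linarith [le_max_left (ρ z - η z) 0]
      · have := max_le (show ρ z - η z ≤ ρ z by linarith [η0 z]) (h0 z)
        linarith [η0 z]))
  have h3 := nv_Fv_le (B := fun m n => A m n z) hz' (y := fun m => ρ z * c' m) (hr (q z)).1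
    (fun n hn => by rw [c0 n (by simpa using hn), mul_zero]) (hr (q z)).2 t
  refine le_trans (le_of_eq (nv_congr fun m _ => ?_)) (h3.trans (by linarith))
  simp only [Fv, add_sub_cancel]
  ring

end T4

open T4

variable {X : Type*} [TopologicalSpace X] [CompactSpace X]
variable {E : Type*} [NormedAddCommGroup E] [NormedSpace ℂ E]

theorem sel_one (Θ : C(X, ℂ) →ₐ[ℂ] (E →L[ℂ] E)) (hΘ : Continuous Θ) (a : C(X, ℂ)) {u : ℕ → E}
    {v : ℕ → StrongDual ℂ E} (hu : RadSum u) (hv : RadSum v) : Sel Θ a 1 u v := by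
  obtain ⟨A, hA⟩ := exists_isA Θ hΘ a v u
  obtain ⟨N, e, he0, he1, hd⟩ := exists_sphere_seq
  obtain ⟨ρ, hm, h0, h1, hL, hU⟩ := exists_gauge
    (fun k (t : Finset ℕ) z => nv t (Fv (N k) (fun m n => A m n z) (e k)))
    fun k t => measurable_nv t fun m => measurable_Fv hA.meas _ _ m
  refine ⟨ρ, hm, h0, h1, selI hΘ hA hu hv he0 he1 hm h0 h1 hU,
    selII hΘ hA hu hv hm h0 h1 fun z M η hη hB => ?_⟩
  have hc := continuous_nv_Fv M (fun m n => A m n z) (Finset.range M) 0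
  simp only [Pi.zero_apply, sub_zero] at hc
  refine hd M _ hc _ fun k hk => sub_le_iff_le_add.2 (hL z k _
    (add_nonneg (nv_nonneg _ _) hη) fun t => ?_)
  subst hk
  simpa using nv_Fv_le (B := fun m n => A m n z) hB (y := 0) (he0 k) (fun _ _ => rfl) (he1 k).le t

end Pool.Agent.P.MP_f981b0_an.TB
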