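import Pool.Agent.P.MP_f981b0_an.R1.Main
import Pool.Agent.P.MP_f981b0_an.TB.Key
import Pool.Agent.P.MP_f981b0_an.TB.Sel

set_option autoImplicit false

noncomputable section

namespace Pool.Agent.P.MP_f981b0_an.TB

open MeasureTheory Metric Set Filter Topology R1

variable {X : Type*} [TopologicalSpace X] [CompactSpace X]
variable {E : Type*} [NormedAddCommGroup E] [NormedSpace ℂ E]

/-- The essential support of the calculus. -/
theorem exists_ess [T2Space X] [CompleteSpace E] (Θ : C(X, ℂ) →ₐ[ℂ] (E →L[ℂ] E))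
    (hΘ : Continuous Θ) (a : C(X, ℂ)) : ∃ A : Set ℂ,
      ∀ g : C(ℂ, ℂ), IsCompactOperator (Θ (g.comp a)) ↔ ∀ t ∈ A, g t = 0 := by
  let I : Ideal C(X, ℂ) :=
    { carrier := {G | IsCompactOperator (Θ G)}
      zero_mem' := by
        change IsCompactOperator (Θ 0)
        rw [map_zero]
        exact isCompactOperator_zero
      add_mem' := fun {G H} hG hH => by
        change IsCompactOperator (Θ (G + H))
        rw [map_add]
        exact IsCompactOperator.add hG hH
      smul_mem' := fun c G hG => by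
        change IsCompactOperator (Θ (c * G))
        rw [map_mul]
        exact IsCompactOperator.clm_comp hG (Θ c) }
  have hI : IsClosed (I : Set C(X, ℂ)) := isClosed_setOfPred_isCompactOperator.preimage hΘ
  refine ⟨a '' (ContinuousMap.setOfIdeal I)ᶜ, fun g => ?_⟩
  have h1 : IsCompactOperator (Θ (g.comp a)) ↔ g.comp a ∈ I := Iff.rfl
  rw [h1, forall_mem_image]
  conv_lhs => rw [← ContinuousMap.idealOfSet_ofIdeal_isClosed hI]
  exact ContinuousMap.mem_idealOfSet

variable {Θ : C(X, ℂ) →ₐ[ℂ] (E →L[ℂ] E)} {a : C(X, ℂ)} {T : E →L[ℂ] E} {u : ℕ → E}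
  {v : ℕ → StrongDual ℂ E}

omit [CompactSpace X] in
theorem Setup.affine (H : Setup Θ a T 1 u v) (c t : ℂ) :
    Setup Θ (c • (a - t • 1)) (c • (T - t • 1)) 1 (fun m => c • u m) v where
  refl := H.refl
  cont := H.cont
  hu := H.hu.map (c • (1 : E →L[ℂ] E))
  hv := H.hv
  hK := fun x e => by
    have h1 : (c • (T - t • 1)) x - Θ (c • (a - t • 1)) x = c • (T x - Θ a x) := by
      rw [map_smul, map_sub, map_smul, map_one]
      simp only [smul_apply, sub_apply, smul_sub]
      abel
    rw [h1, map_smul, smul_eq_mul]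
    refine ((H.hK x e).mul_left c).congr_fun fun m => ?_
    rw [map_smul, smul_eq_mul]
    ring
  idem := one_mul _
  comm := by rw [one_mul, mul_one]

theorem RadSum.dual {F : Type*} [NormedAddCommGroup F] [NormedSpace ℂ F] (hu : RadSum u)
    (w : ℕ → StrongDual ℂ F) (L : F → StrongDual ℂ E) (hL : ∀ y, ‖L y‖ ≤ ‖y‖)
    (h : ∀ m y, w m y = L y (u m)) : RadSum w := by
  intro ε hε
  obtain ⟨N, hN⟩ := hu ε hε
  refine ⟨N, fun s hs => le_trans ?_ (hN s hs)⟩
  unfold rad2
  gcongr with t _
  refine ContinuousLinearMap.opNorm_le_bound _ (norm_nonneg _) fun y => ?_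
  have h1 : (∑ i ∈ t, w i - ∑ i ∈ s \ t, w i) y = L y (∑ i ∈ t, u i - ∑ i ∈ s \ t, u i) := by
    simp [h]
  rw [h1, mul_comm]
  exact ((L y).le_opNorm _).trans (mul_le_mul_of_nonneg_right (hL y) (norm_nonneg _))

omit [CompactSpace X] in
theorem Setup.dual (H : Setup Θ a T 1 u v) :
    Setup (dualCalc Θ) a (dualOp T) 1 v fun m => NormedSpace.inclusionInDoubleDual ℂ E (u m) := by
  refine ⟨H.refl.dual, continuous_dualCalc H.cont, H.hv,
    H.hu.dual _ id (fun _ => le_rfl) fun _ _ => rfl,
    fun e Φ => ?_, ContinuousLinearMap.ext fun _ => rfl, ContinuousLinearMap.ext fun _ => rfl⟩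
  obtain ⟨x, rfl⟩ := H.refl Φ
  have h1 := H.hK x e
  rw [map_sub] at h1
  exact h1.congr_fun fun m => mul_comm _ _

omit [CompactSpace X] in
theorem Setup.compact [CompleteSpace E] {P : E →L[ℂ] E} (H : Setup Θ a T P u v) :
    IsCompactOperator (T - Θ a : E →L[ℂ] E) := by
  let F : ℕ → E →L[ℂ] E := fun N => ∑ m ∈ Finset.range N, (v m).smulRight (u m)
  have hF : ∀ N, IsCompactOperator (F N) := fun N => by
    induction N with
    | zero =>
      simp only [F, Finset.range_zero, Finset.sum_empty]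
      exact isCompactOperator_zero
    | succ N ih =>
      simp only [F, Finset.sum_range_succ]
      exact IsCompactOperator.add ih (isCompactOperator_smulRight _ _)
  obtain ⟨R, hR0, hR⟩ := H.hv.bdd
  refine isCompactOperator_of_tendsto (l := atTop) (F := F) ?_ (Eventually.of_forall hF)
  rw [Metric.tendsto_atTop]
  intro ε hε
  obtain ⟨N0, hN0⟩ := H.hu.tail (ε := ε / (2 * (R + 1))) (by positivity)
  refine ⟨N0, fun N hN => ?_⟩
  rw [dist_comm, dist_eq_norm]
  have h1 : ‖T - Θ a - F N‖ ≤ R * (ε / (2 * (R + 1))) := by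
    refine ContinuousLinearMap.opNorm_le_bound _ (by positivity) fun x => ?_
    refine NormedSpace.norm_le_dual_bound ℂ _ (by positivity) fun e => ?_
    have h2 := (H.hK x e).tendsto_sum_nat.sub_const (∑ m ∈ Finset.range N, v m x * e (u m))
    have h3 : e ((T - Θ a - F N) x) =
        e (T x - Θ a x) - ∑ m ∈ Finset.range N, v m x * e (u m) := by
      simp [F]
    rw [h3]
    refine le_of_tendsto h2.norm ?_
    filter_upwards [eventually_ge_atTop N] with M hM
    rw [← Finset.sum_Ico_eq_sub _ hM]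
    have h4 := rad_nonneg u (Finset.Ico N M)
    have h5 := rad_nonneg v (Finset.Ico N M)
    refine (norm_sum_mul_le _ _ _ (by positivity) (by positivity) (sum_sq_apply_le v _ x)
      (sum_sq_dual_le u _ e)).trans ?_
    calc rad v (Finset.Ico N M) * ‖x‖ * (‖e‖ * rad u (Finset.Ico N M))
        ≤ R * ‖x‖ * (‖e‖ * (ε / (2 * (R + 1)))) := by
          gcongr
          · exact hR _
          · exact hN0 _ fun i hi => hN.trans (Finset.mem_Ico.1 hi).1
      _ = _ := by ring
  refine h1.trans_lt ?_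
  rw [← mul_div_assoc, div_lt_iff₀ (by positivity)]
  nlinarith

/-- If no nonzero vector has local spectrum in a disc around `t`, the calculus is compact
near `t`. -/
theorem key_disc [CompleteSpace E] (hG : TC.GoodOfRoute) (H : Setup Θ a T 1 u v)
    (hinj : ∀ (w : ℂ) (x : E), T x = w • x → x = 0) {t : ℂ} {r : ℝ} (hr : 0 < r)
    (hno : ∀ y, Loc T (closedBall t r) y → y = 0) :
    ∃ δ : ℝ, 0 < δ ∧ ∀ f : C(X, ℂ), (∀ x, δ ≤ ‖a x - t‖ → f x = 0) →
      IsCompactOperator (Θ f) := by
  have hr' : (r : ℂ) ≠ 0 := by exact_mod_cast hr.ne'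
  have H' := H.affine (r : ℂ)⁻¹ t
  obtain ⟨δ, hδ, h⟩ := key_unit H' hG (sel_one Θ H.cont _ H'.hu H'.hv) (fun w x _ hx => by
    refine hinj (t + r * w) x ?_
    have h1 := congrArg (fun z => (r : ℂ) • z) hx
    simp only [smul_apply, sub_apply, smul_smul, mul_inv_cancel₀ hr', one_smul,
      one_apply_eq_self] at h1
    rw [add_smul, ← h1]
    abel) fun y hy => hno y (hy.affine hr)
  refine ⟨δ * r, by positivity, fun f hf => ?_⟩
  have h1 := h f fun x hx => hf x (by
    simp only [ContinuousMap.smul_apply, ContinuousMap.sub_apply, ContinuousMap.one_apply,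
      smul_eq_mul, mul_one, norm_mul, norm_inv, Complex.norm_real, Real.norm_of_nonneg hr.le] at hx
    rwa [← div_eq_inv_mul, le_div_iff₀ hr] at hx)
  rwa [one_mul] at h1

theorem good_of_ess [CompleteSpace E] (hG : TC.GoodOfRoute) (H : Setup Θ a T 1 u v)
    (hinj : ∀ (w : ℂ) (x : E), T x = w • x → x = 0) {t : ℂ}
    (ht : ∀ g : C(ℂ, ℂ), IsCompactOperator (Θ (g.comp a)) → g t = 0) : GoodAt T t := by
  intro r hr
  by_contra hcon
  obtain ⟨δ, hδ, h⟩ := key_disc hG H hinj hr (t := t) fun y hy => by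
    by_contra h0
    exact hcon ⟨y, h0, hy⟩
  refine tent_self t hδ (ht _ (h _ fun x hx => tent_zero ?_))
  rwa [mem_ball, dist_eq_norm, not_lt]

theorem hyper_of_compact [CompleteSpace E] {l : ℂ}
    (h : IsCompactOperator (T - l • 1 : E →L[ℂ] E)) (hs : ∀ c : ℂ, T ≠ c • 1) : Hyper T := by
  obtain ⟨M, h2, h3, h4, h5⟩ := Lom.exists_hyperinvariant_of_compact (T - l • 1) h
    fun c hc => hs (c + l) (by rw [add_smul, ← hc, sub_add_cancel])
  refine ⟨M, h2, h3, h4, fun A hA => h5 A ?_⟩
  rw [mul_sub, sub_mul, hA]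
  simp

/-- Perturbations of scalar-type operators on reflexive spaces by series of rank-one operators
with randomly summable factors. -/
theorem main_hyper [CompleteSpace E] [T2Space X] (hG : TC.GoodOfRoute) (H : Setup Θ a T 1 u v)
    (hs : ∀ c : ℂ, T ≠ c • 1) : Hyper T := by
  by_contra hno
  have hinj : ∀ (w : ℂ) (x : E), T x = w • x → x = 0 := fun w x hx => by
    by_contra h0
    exact hno (hyper_of_eigen hs h0 hx)
  have hinj' : ∀ (w : ℂ) (e : StrongDual ℂ E), dualOp T e = w • e → e = 0 := fun w e he => by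
    by_contra h0
    exact hno (hyper_of_dual_eigen hs h0 he)
  obtain ⟨A, hA⟩ := exists_ess Θ H.cont a
  obtain ⟨B, hB⟩ := exists_ess (dualCalc Θ) H.dual.cont a
  obtain ⟨s, hsB⟩ : B.Nonempty := by
    by_contra hcon
    have h1 := (hB 1).2 fun t ht => absurd ⟨t, ht⟩ hcon
    rw [ContinuousMap.one_comp, map_one] at h1
    have h2 : FiniteDimensional ℂ (StrongDual ℂ E) := FiniteDimensional.of_isCompactOperator_id h1
    obtain ⟨e, -, he, μ, hμ⟩ := Lom.exists_eigenvector_of_finiteDimensional (dualOp T) ⊤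
      (fun h => hs 0 (by
        ext x
        rw [zero_smul, zero_apply]
        refine SeparatingDual.eq_zero_of_forall_dual_eq_zero (R := ℂ) fun e => ?_
        have : e ∈ (⊥ : Submodule ℂ (StrongDual ℂ E)) := h ▸ Submodule.mem_top
        rw [Submodule.mem_bot] at this
        simp [this])) (by simp)
    exact he (hinj' μ e hμ)
  obtain ⟨t, htA, hts⟩ : ∃ t ∈ A, t ≠ s := by
    by_contra hcon
    push Not at hcon
    have h1 := (hA (ContinuousMap.id ℂ - s • 1)).2 fun t ht => by simp [hcon t ht]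
    have h2 : (ContinuousMap.id ℂ - s • 1 : C(ℂ, ℂ)).comp a = a - s • 1 := by
      ext x
      simp
    rw [h2, map_sub, map_smul, map_one] at h1
    have h3 : T - s • 1 = (T - Θ a) + (Θ a - s • 1) := by abel
    refine hno (hyper_of_compact (l := s) ?_ hs)
    rw [h3]
    exact IsCompactOperator.add H.compact h1
  exact hno (hyper_of_good hts (good_of_ess hG H hinj fun g hg => (hA g).1 hg t htA)
    (good_of_ess hG H.dual hinj' fun g hg => (hB g).1 hg s hsB))

end Pool.Agent.P.MP_f981b0_an.TB
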