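import Pool.Agent.P.MP_f981b0_an.TB.Lim

set_option autoImplicit false

noncomputable section

namespace Pool.Agent.P.MP_f981b0_an.TB

open MeasureTheory Metric Set Filter Topology R1

variable {X : Type*} [TopologicalSpace X] [CompactSpace X]
variable {E : Type*} [NormedAddCommGroup E] [NormedSpace ℂ E]
variable {Θ : C(X, ℂ) →ₐ[ℂ] (E →L[ℂ] E)} {a : C(X, ℂ)} {T P : E →L[ℂ] E} {u : ℕ → E}
  {v : ℕ → StrongDual ℂ E}

theorem re_inv_ge {z : ℂ} (hz : ‖z‖ < 1) : 1 / 9 ≤ -((z - 2)⁻¹).re := by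
  have h1 : ‖z - 2‖ ≤ 3 := (norm_sub_le _ _).trans (by simp; linarith)
  have h2 : z.re < 1 := (Complex.re_le_norm z).trans_lt hz
  have h3 : 1 ≤ ‖z - 2‖ := by
    have := norm_sub_ge_of_unit (w := 2) hz
    rw [Complex.norm_ofNat] at this
    linarith
  rw [Complex.inv_re, Complex.normSq_eq_norm_sq, ← neg_div, le_div_iff₀ (by positivity)]
  simp only [Complex.sub_re, Complex.re_ofNat]
  nlinarith

theorem lower_bound {k : ℂ → ℝ} (hk : Dens k) :
    (∫ z in ball (0 : ℂ) 1, k z) / 9 ≤ ‖∫ z in ball (0 : ℂ) 1, (k z : ℂ) / (z - 2)‖ := by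
  have ht : Test fun z => (k z : ℂ) := by
    simpa using hk.test (f := fun _ => 1) measurable_const (by simp)
  have hi := test_intOn (ht.div (w := 2) (by simp))
  refine le_trans ?_ ((neg_le_abs _).trans (Complex.abs_re_le_norm _))
  have h1 : (∫ z in ball (0 : ℂ) 1, (k z : ℂ) / (z - 2)).re =
      ∫ z in ball (0 : ℂ) 1, ((k z : ℂ) / (z - 2)).re := (integral_re hi).symm
  rw [h1, ← integral_neg, ← integral_div]
  refine setIntegral_mono_on (hk.integrable.integrableOn.div_const _) hi.re.neg measurableSet_ball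
    fun z hz => ?_
  have := re_inv_ge (mem_ball_zero_iff.1 hz)
  rw [div_eq_mul_inv (k z : ℂ), Complex.re_ofReal_mul]
  nlinarith [hk.nonneg z]

theorem step (H : Setup Θ a T P u v) {ρ : ℂ → ℝ} (hm : Measurable ρ) (h0 : ∀ z, 0 ≤ ρ z)
    (h1 : ∀ z, ρ z ≤ 1) (hs : SelI Θ a P u v ρ) (hc : Cheap2 ρ) :
    ∃ (D c : ℝ) (N : ℕ), 0 ≤ D ∧ 0 < c ∧ ∀ ε : ℝ, 0 < ε →
      ∃ (s : Finset ℕ) (d e : ℕ → ℂ → ℂ) (γ : ℂ → ℝ) (χ : ℂ → ℂ) (g : ℂ → ℝ) (i : ℕ),
        Adm Θ a P u v s d e γ ∧ Test χ ∧ Dens g ∧ (∀ z, ‖χ z‖ ≤ g z) ∧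
        (∀ ζ, ∑ n ∈ s, ‖cauchy (fun z => χ z * d n z) ζ‖ ^ 2 ≤ D ^ 2) ∧
        (∀ ζ, ∑ n ∈ s, ‖cauchy (fun z => χ z * e n z) ζ‖ ^ 2 ≤ D ^ 2) ∧
        ∫ z in ball (0 : ℂ) 1, g z * γ z ≤ ε ∧ (∀ z, ∑ n ∈ s, ‖d n z‖ ^ 2 ≤ γ z ^ 2) ∧
        i ∈ Finset.range N ∧ c ≤ ‖∫ z in ball (0 : ℂ) 1, χ z / (z - 2) * e i z‖ := by
  obtain ⟨D, c, hD, hc0, hc⟩ := hc
  obtain ⟨R, hR0, hR⟩ := H.hu.bdd
  obtain ⟨R', hR0', hR'⟩ := (H.hu.map P).bdd
  set K := 10 * ‖clm Θ H.cont‖ * (R' + R) * D with hK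
  have hK0 : 0 ≤ K := by positivity
  obtain ⟨N, hN⟩ := H.hv.tail (ε := c / (12 * (K + 1))) (by positivity)
  refine ⟨D, c / (2 * (N + 1)) / 3 / 9, N, hD, by positivity, fun ε' hε' => ?_⟩
  set ε := min ε' (c / 12) with hε
  have hε0 : 0 < ε := lt_min hε' (by positivity)
  obtain ⟨w, hw, hρw, hw'⟩ := hc (ε / 2) (by positivity)
  obtain ⟨B, hB⟩ := hw.bdd
  have hB0 : 0 ≤ B := (hw.nonneg 0).trans (hB 0)
  obtain ⟨s, d, e, η, hηi, hη0, hη, A, he1, hd⟩ := hs (ε / (2 * (B + 1))) (by positivity)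
  have hme := A.me
  have hmd := A.md
  obtain ⟨h, hh, hhw, hch, hC⟩ := hw' (s ×ˢ s.disjSum s)
    (fun p z => (starRingEnd ℂ) (e p.1 z) / 3 * Sum.elim (fun n => d n z) (fun n => e n z) p.2)
    (by
      rintro ⟨m, n | n⟩
      · exact ((Complex.continuous_conj.measurable.comp (hme m)).div_const _).mul (hmd n)
      · exact ((Complex.continuous_conj.measurable.comp (hme m)).div_const _).mul (hme n))
    (fun z => by
      simp only [Finset.sum_product, Finset.sum_disjSum, Sum.elim_inl, Sum.elim_inr, norm_mul,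
        mul_pow, ← Finset.mul_sum, ← Finset.sum_mul, norm_div, Complex.norm_conj,
        div_pow, ← Finset.sum_div, he1 z, Complex.norm_ofNat]
      linarith [A.bd z])
  have hen : ∀ m z, ‖e m z‖ ≤ 1 := fun m z => by
    by_cases hm : m ∈ s
    · exact norm_le_of_sum_sq (x := fun n => e n z) zero_le_one (by rw [he1 z]; simp) hm
    · simp [A.e0 m hm]
  let χ : ℕ → ℂ → ℂ := fun m z => (starRingEnd ℂ) (e m z) / 3 * (h z : ℝ)
  have hχ : ∀ m, Test (χ m) := fun m =>
    hh.test ((Complex.continuous_conj.measurable.comp (hme m)).div_const _) fun z => by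
      rw [norm_div, Complex.norm_conj, Complex.norm_ofNat]
      linarith [hen m z]
  have hχn : ∀ m z, ‖χ m z‖ = ‖e m z‖ / 3 * h z := fun m z => by
    simp only [χ, norm_mul, norm_div, Complex.norm_conj, Complex.norm_ofNat, Complex.norm_real,
      Real.norm_of_nonneg (hh.nonneg z)]
  have hC' : ∀ ζ, ∑ m ∈ s, (∑ n ∈ s, ‖cauchy (fun z => χ m z * d n z) ζ‖ ^ 2 +
      ∑ n ∈ s, ‖cauchy (fun z => χ m z * e n z) ζ‖ ^ 2) ≤ D ^ 2 := fun ζ => by
    have := hC ζ
    simp only [Finset.sum_product, Finset.sum_disjSum, Sum.elim_inl, Sum.elim_inr] at this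
    simpa only [χ, mul_right_comm _ ((h _ : ℝ) : ℂ)] using this
  have hCd : ∀ t ⊆ s, ∀ ζ, ∑ m ∈ t, ∑ n ∈ s, ‖cauchy (fun z => χ m z * d n z) ζ‖ ^ 2 ≤ D ^ 2 :=
    fun t ht ζ => le_trans ((Finset.sum_le_sum_of_subset_of_nonneg ht fun _ _ _ =>
      Finset.sum_nonneg fun _ _ => by positivity).trans (Finset.sum_le_sum fun _ _ =>
        le_add_of_nonneg_right (Finset.sum_nonneg fun _ _ => by positivity))) (hC' ζ)
  have hCe : ∀ t ⊆ s, ∀ ζ, ∑ m ∈ t, ∑ n ∈ s, ‖cauchy (fun z => χ m z * e n z) ζ‖ ^ 2 ≤ D ^ 2 :=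
    fun t ht ζ => le_trans ((Finset.sum_le_sum_of_subset_of_nonneg ht fun _ _ _ =>
      Finset.sum_nonneg fun _ _ => by positivity).trans (Finset.sum_le_sum fun _ _ =>
        le_add_of_nonneg_left (Finset.sum_nonneg fun _ _ => by positivity))) (hC' ζ)
  have hρi : IntegrableOn ρ (ball (0 : ℂ) 1) :=
    Measure.integrableOn_of_bounded (M := 1) measure_ball_lt_top.ne hm.aestronglyMeasurable
      (Eventually.of_forall fun z => by rw [Real.norm_of_nonneg (h0 z)]; exact h1 z)
  have hcost : ∫ z in ball (0 : ℂ) 1, h z * (ρ z + η z) ≤ ε := by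
    have e1 : ∫ z in ball (0 : ℂ) 1, w z * ρ z = ∫ z, ρ z * w z := by
      simp only [mul_comm (w _)]
      exact setIntegral_eq_integral_of_forall_compl_eq_zero fun z hz => by
        rw [hw.supp z (by simpa using hz), mul_zero]
    calc ∫ z in ball (0 : ℂ) 1, h z * (ρ z + η z)
        ≤ ∫ z in ball (0 : ℂ) 1, (w z * ρ z + B * η z) :=
          integral_mono (hh.intOn_mul A.int) ((hw.intOn_mul hρi).add (hηi.const_mul B)) fun z => by
            have := mul_le_mul_of_nonneg_right (hhw z) (h0 z)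
            have := mul_le_mul_of_nonneg_right ((hhw z).trans (hB z)) (hη0 z)
            simp only
            linarith
      _ = (∫ z, ρ z * w z) + B * ∫ z in ball (0 : ℂ) 1, η z := by
          rw [integral_add (hw.intOn_mul hρi) (hηi.const_mul B), integral_const_mul, e1]
      _ ≤ ε / 2 + (B + 1) * (ε / (2 * (B + 1))) := by
          have : 0 ≤ ∫ z in ball (0 : ℂ) 1, η z := integral_nonneg hη0
          gcongr
          linarith
      _ = ε := by
          field_simp
          ring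
  have hk : ∀ m, Dens fun z => ‖e m z‖ ^ 2 / 3 * h z := fun m => by
    obtain ⟨B', hB'⟩ := hh.bdd
    have := hh.meas
    refine ⟨by fun_prop, fun z => mul_nonneg (by positivity) (hh.nonneg z), ⟨B', fun z => ?_⟩,
      fun z hz => by simp [hh.supp z hz]⟩
    refine le_trans (mul_le_of_le_one_left (hh.nonneg z) ?_) (hB' z)
    nlinarith [hen m z, norm_nonneg (e m z)]
  have hχe : ∀ m z, χ m z * e m z = ((‖e m z‖ ^ 2 / 3 * h z : ℝ) : ℂ) := fun m z => by
    have := Complex.conj_mul' (e m z)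
    push_cast
    simp only [χ]
    linear_combination (h z : ℂ) / 3 * this
  let F : ℕ → ℝ := fun m => ∫ z in ball (0 : ℂ) 1, ‖e m z‖ ^ 2 / 3 * h z
  have hF : ∀ m, ∫ z in ball (0 : ℂ) 1, χ m z * e m z = (F m : ℂ) := fun m => by
    simp only [hχe]
    exact integral_ofReal
  have hFs : c / 3 ≤ ∑ m ∈ s, F m := by
    rw [← integral_finsetSum _ fun m _ => (hk m).integrable.integrableOn]
    simp only [← Finset.sum_mul, ← Finset.sum_div, he1]
    rw [integral_const_mul, setIntegral_eq_integral_of_forall_compl_eq_zero fun z hz =>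
      hh.supp z (by simpa using hz)]
    linarith
  have htail : ∑ m ∈ s.filter fun m => ¬ m < N, F m ≤ c / 6 := by
    set t := s.filter fun m => ¬ m < N with ht
    have hts : t ⊆ s := Finset.filter_subset _ _
    have e1 := (A.est t χ h hχ hh fun z => by
      simp only [hχn, mul_pow, div_pow, ← Finset.sum_mul, ← Finset.sum_div]
      refine mul_le_of_le_one_left (by positivity) ?_
      have := (Finset.sum_le_sum_of_subset_of_nonneg (f := fun m => ‖e m z‖ ^ 2) hts
        fun _ _ _ => by positivity).trans_eq (he1 z)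
      linarith).1
    have e2 := rad_bound Θ H.cont v (fun n => P (u n)) t s
      (fun m n => cc a fun z => χ m z * d n z) hD
      fun x => by simpa only [cc_apply a (A.test_d (hχ _) _)] using hCd t hts (a x)
    have e3 := rad_bound Θ H.cont v u t s
      (fun m n => cc a fun z => χ m z * e n z) hD
      fun x => by simpa only [cc_apply a (A.test_e (hχ _) _)] using hCe t hts (a x)
    have e4 := hN t fun i hi => not_lt.1 (Finset.mem_filter.1 hi).2
    have e5 : ‖∑ m ∈ t, v m (YY Θ a P u s d e (χ m))‖ ≤ c / 12 := by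
      simp only [YY, map_sum, map_add, Finset.sum_add_distrib]
      have := hR s
      have := hR' s
      have : 0 ≤ rad u s := Real.sqrt_nonneg _
      have : 0 ≤ rad (fun n => P (u n)) s := Real.sqrt_nonneg _
      calc _ ≤ _ := norm_add_le_of_le e2 e3
        _ ≤ 10 * ‖clm Θ H.cont‖ * (c / (12 * (K + 1))) * R' * D +
            10 * ‖clm Θ H.cont‖ * (c / (12 * (K + 1))) * R * D := by gcongr
        _ = c / 12 * (K / (K + 1)) := by
            rw [hK]
            field_simp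
        _ ≤ c / 12 := mul_le_of_le_one_right (by positivity)
            ((div_le_one (by positivity)).2 (by linarith))
    simp only [hF, Finset.sum_sub_distrib] at e1
    have e6 := (norm_sub_norm_le _ _).trans (e1.trans hcost)
    rw [← Complex.ofReal_sum, Complex.norm_real] at e6
    have := le_abs_self (∑ m ∈ t, F m)
    have : ε ≤ c / 12 := min_le_right _ _
    rw [Real.norm_eq_abs] at e6
    linarith
  obtain ⟨i, hi, hFi⟩ : ∃ i ∈ s.filter fun m => m < N, c / (2 * (N + 1)) / 3 ≤ F i := by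
    by_contra hcon
    push Not at hcon
    have e1 := Finset.sum_le_card_nsmul _ _ _ fun i hi => (hcon i hi).le
    have e2 : ((s.filter fun m => m < N).card : ℝ) ≤ N := by
      have : (s.filter fun m => m < N) ⊆ Finset.range N := fun i hi =>
        Finset.mem_range.2 (Finset.mem_filter.1 hi).2
      exact_mod_cast (Finset.card_le_card this).trans_eq (Finset.card_range N)
    have e3 := Finset.sum_filter_add_sum_filter_not s (fun m => m < N) F
    rw [nsmul_eq_mul] at e1
    have e4 : ((s.filter fun m => m < N).card : ℝ) * (c / (2 * (N + 1)) / 3) < c / 6 := by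
      calc _ ≤ (N : ℝ) * (c / (2 * (N + 1)) / 3) := by gcongr
        _ = c / 6 * (N / (N + 1)) := by
            field_simp
            ring
        _ < c / 6 := mul_lt_of_lt_one_right (by positivity)
            ((div_lt_one (by positivity)).2 (by linarith))
    linarith
  obtain ⟨his, hiN⟩ := Finset.mem_filter.1 hi
  refine ⟨s, d, e, _, χ i, h, i, A, hχ i, hh, fun z => ?_, fun ζ => ?_, fun ζ => ?_,
    hcost.trans (min_le_left _ _), hd, Finset.mem_range.2 hiN, ?_⟩
  · rw [hχn]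
    exact mul_le_of_le_one_left (hh.nonneg z) (by linarith [hen i z])
  · simpa using hCd {i} (by simpa using his) ζ
  · simpa using hCe {i} (by simpa using his) ζ
  · simp only [div_mul_eq_mul_div (χ i _), hχe]
    exact le_trans (by gcongr) (lower_bound (hk i))

theorem not_cheap2 [CompleteSpace E] (H : Setup Θ a T P u v)
    (hinj : Inj T P) (hno : NoLoc T P) {ρ : ℂ → ℝ} (hm : Measurable ρ) (h0 : ∀ z, 0 ≤ ρ z)
    (h1 : ∀ z, ρ z ≤ 1) (hs : SelI Θ a P u v ρ) : ¬ Cheap2 ρ := by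
  intro hc
  obtain ⟨D, c, N, hD, hc0, hst⟩ := step H hm h0 h1 hs hc
  obtain ⟨R', hR0', hR'⟩ := (H.hu.map P).bdd
  choose s d e γ χ g i A hχ hg hχg hd he hcost hdγ hi hlow using
    fun k : ℕ => hst (1 / ((k : ℝ) + 1)) (by positivity)
  let U : Ultrafilter ℕ := Ultrafilter.of atTop
  have hU : (U : Filter ℕ) ≤ atTop := Ultrafilter.of_le _
  have hI : Tendsto (fun k => ∫ z in ball (0 : ℂ) 1, g k z * γ k z) U (𝓝 0) :=
    squeeze_zero (fun k => integral_nonneg fun z => mul_nonneg ((hg k).nonneg z)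
      ((A k).nonneg z)) hcost (tendsto_one_div_add_atTop_nhds_zero_nat.mono_left hU)
  have h2 : (2 : ℂ) ∉ closedBall (0 : ℂ) 1 := by simp
  have L := (lim H hinj hno U A hχ hg hχg hD hd he hI fun w hw => by
    have hw' := one_lt_of_notMem hw
    have hi : 0 ≤ (‖w‖ - 1)⁻¹ := inv_nonneg.2 (by linarith)
    have h6 : Tendsto (fun k => (‖w‖ - 1)⁻¹ * (∫ z in ball (0 : ℂ) 1, g k z * γ k z) * R') U
        (𝓝 0) := by simpa using (hI.const_mul (‖w‖ - 1)⁻¹).mul_const R'
    refine squeeze_zero_norm (fun k => ?_) h6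
    have hI0 : 0 ≤ ∫ z in ball (0 : ℂ) 1, g k z * γ k z :=
      integral_nonneg fun z => mul_nonneg ((hg k).nonneg z) ((A k).nonneg z)
    refine (norm_sum_smul_le (fun n => P (u n)) (s k) _ (M := (‖w‖ - 1)⁻¹ *
      ∫ z in ball (0 : ℂ) 1, g k z * γ k z) (by positivity) ?_).trans
      (mul_le_mul_of_nonneg_left (hR' _) (by positivity))
    refine sum_sq_le_of_dual _ _ (by positivity) fun b hb => ?_
    simp only [← integral_const_mul]
    rw [← integral_finsetSum _ fun n _ =>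
      (test_intOn ((A k).test_d ((hχ k).div hw) n)).const_mul _]
    refine norm_integral_le_of_norm_le (((hg k).intOn_mul (A k).int).const_mul _)
      (Eventually.of_forall fun z => ?_)
    have e1 : ∑ n ∈ s k, b n * (χ k z / (z - w) * d k n z) =
        χ k z / (z - w) * ∑ n ∈ s k, b n * d k n z := by
      rw [Finset.mul_sum]
      exact Finset.sum_congr rfl fun n _ => by ring
    rw [e1, norm_mul, ← mul_assoc]
    refine mul_le_mul (norm_div_le (hχ k) (hg k) (hχg k) hw z) ?_ (norm_nonneg _)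
      (mul_nonneg hi ((hg k).nonneg z))
    simpa using norm_sum_mul_le (s k) b (fun n => d k n z) zero_le_one ((A k).nonneg z)
      (by simpa using hb) (hdγ k z)).2 2 h2
  obtain ⟨j, -, hj⟩ : ∃ j ∈ (Finset.range N : Set ℕ), ∀ᶠ k in U, i k = j :=
    (Ultrafilter.eventually_exists_mem_iff (Finset.finite_toSet _)).1
      (Eventually.of_forall fun k => ⟨i k, hi k, rfl⟩)
  have hI2 : Tendsto (fun k => 1 * ∫ z in ball (0 : ℂ) 1, (‖(2 : ℂ)‖ - 1)⁻¹ * g k z * γ k z) U
      (𝓝 0) := by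
    simp only [mul_assoc, integral_const_mul, one_mul]
    simpa using hI.const_mul (‖(2 : ℂ)‖ - 1)⁻¹
  have E := fun k => (A k).est' ((hχ k).div h2) ((hg k).const_mul (c := (‖(2 : ℂ)‖ - 1)⁻¹)
    (by norm_num)) (norm_div_le (hχ k) (hg k) (hχg k) h2) {j} (fun _ => 1) zero_le_one (by simp)
  have e1 := squeeze_zero_norm (fun k => (E k).1) hI2
  have e2 := squeeze_zero_norm (fun k => (E k).2) hI2
  have e3 := ((e1.add e2).add (L (v j))).norm
  simp only [Finset.sum_singleton, one_mul, map_sub, sub_add_sub_cancel, sub_add_cancel, add_zero,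
    norm_zero] at e3
  have e4 := ge_of_tendsto e3 (hj.mono fun k hk => by simpa only [← hk] using hlow k)
  linarith

end Pool.Agent.P.MP_f981b0_an.TB
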