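import Pool.Agent.P.MP_f981b0_an.R1.Calc

set_option autoImplicit false

noncomputable section

namespace Pool.Agent.P.MP_f981b0_an.TB.RC

open Finset R1

/-- The sign attached to a subset. -/
def sg (a : Finset ℕ) (m : ℕ) : ℝ := if m ∈ a then 1 else -1

theorem sg_sq (a : Finset ℕ) (m : ℕ) : sg a m * sg a m = 1 := by
  unfold sg; split_ifs <;> norm_num

theorem sg_insert_self (a : Finset ℕ) (m : ℕ) : sg (insert m a) m = 1 := by
  simp [sg]

theorem sg_insert_ne (a : Finset ℕ) {m k : ℕ} (h : k ≠ m) : sg (insert m a) k = sg a k := by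
  simp [sg, h]

theorem sg_notMem {a : Finset ℕ} {m : ℕ} (h : m ∉ a) : sg a m = -1 := by
  simp [sg, h]

/-- The signed sum. -/
def ss {F : Type*} [AddCommGroup F] [Module ℝ F] (c : ℕ → F) (t a : Finset ℕ) : F :=
  ∑ m ∈ t, sg a m • c m

section

variable {F : Type*} [AddCommGroup F] [Module ℝ F]

theorem ss_insert_neg (c : ℕ → F) {t a : Finset ℕ} {m : ℕ} (hm : m ∉ t) (ha : a ∈ t.powerset) :
    ss c (insert m t) a = ss c t a - c m := by
  have hma : m ∉ a := fun h => hm (mem_powerset.1 ha h)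
  unfold ss
  rw [sum_insert hm, sg_notMem hma]
  simp only [neg_smul, one_smul]
  abel

theorem ss_insert_pos (c : ℕ → F) {t : Finset ℕ} (a : Finset ℕ) {m : ℕ} (hm : m ∉ t) :
    ss c (insert m t) (insert m a) = ss c t a + c m := by
  unfold ss
  rw [sum_insert hm, sg_insert_self, one_smul, add_comm]
  congr 1
  refine sum_congr rfl fun k hk => ?_
  rw [sg_insert_ne a (m := m) (k := k) (fun h => hm (h ▸ hk))]

/-- Recursion for sums over sign patterns. -/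
theorem sum_ss_insert (c : ℕ → F) {t : Finset ℕ} {m : ℕ} (hm : m ∉ t) (φ : F → ℝ) :
    ∑ a ∈ (insert m t).powerset, φ (ss c (insert m t) a) =
      ∑ a ∈ t.powerset, (φ (ss c t a - c m) + φ (ss c t a + c m)) := by
  rw [sum_powerset_insert hm, sum_add_distrib]
  congr 1
  · exact sum_congr rfl fun a ha => by rw [ss_insert_neg c hm ha]
  · exact sum_congr rfl fun a _ => by rw [ss_insert_pos c a hm]

end

section Hilbert

variable {H : Type*} [NormedAddCommGroup H] [InnerProductSpace ℝ H]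

theorem second_moment (c : ℕ → H) (t : Finset ℕ) :
    ∑ a ∈ t.powerset, ‖ss c t a‖ ^ 2 = 2 ^ t.card * ∑ m ∈ t, ‖c m‖ ^ 2 := by
  classical
  induction t using Finset.induction_on with
  | empty => simp [ss]
  | insert m t hm ih =>
    rw [sum_ss_insert c hm (fun z => ‖z‖ ^ 2), sum_insert hm, card_insert_of_notMem hm]
    have h1 : ∀ a ∈ t.powerset, ‖ss c t a - c m‖ ^ 2 + ‖ss c t a + c m‖ ^ 2 =
        2 * ‖ss c t a‖ ^ 2 + 2 * ‖c m‖ ^ 2 := fun a _ => by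
      rw [norm_sub_sq_real, norm_add_sq_real]; ring
    rw [sum_congr rfl h1, sum_add_distrib, ← mul_sum, ih, sum_const, card_powerset]
    simp only [nsmul_eq_mul, Nat.cast_pow, Nat.cast_ofNat]
    ring

theorem fourth_moment (c : ℕ → H) (t : Finset ℕ) :
    ∑ a ∈ t.powerset, ‖ss c t a‖ ^ 4 ≤ 3 * 2 ^ t.card * (∑ m ∈ t, ‖c m‖ ^ 2) ^ 2 := by
  classical
  induction t using Finset.induction_on with
  | empty => simp [ss]
  | insert m t hm ih =>
    rw [sum_ss_insert c hm (fun z => ‖z‖ ^ 4), sum_insert hm, card_insert_of_notMem hm]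
    have h1 : ∀ a ∈ t.powerset, ‖ss c t a - c m‖ ^ 4 + ‖ss c t a + c m‖ ^ 4 ≤
        2 * ‖ss c t a‖ ^ 4 + 12 * ‖c m‖ ^ 2 * ‖ss c t a‖ ^ 2 + 2 * ‖c m‖ ^ 4 := fun a _ => by
      have e1 : ‖ss c t a - c m‖ ^ 4 = (‖ss c t a - c m‖ ^ 2) ^ 2 := by ring
      have e2 : ‖ss c t a + c m‖ ^ 4 = (‖ss c t a + c m‖ ^ 2) ^ 2 := by ring
      rw [e1, e2, norm_sub_sq_real, norm_add_sq_real]
      have h := abs_real_inner_le_norm (ss c t a) (c m)
      have h2 : inner ℝ (ss c t a) (c m) ^ 2 ≤ (‖ss c t a‖ * ‖c m‖) ^ 2 := by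
        rw [← sq_abs]; gcongr
      nlinarith
    refine (sum_le_sum h1).trans ?_
    rw [sum_add_distrib, sum_add_distrib, ← mul_sum, ← mul_sum, second_moment, sum_const,
      card_powerset]
    simp only [nsmul_eq_mul, Nat.cast_pow, Nat.cast_ofNat]
    have hp : (0 : ℝ) < 2 ^ t.card := by positivity
    have hA : 0 ≤ ∑ m ∈ t, ‖c m‖ ^ 2 := sum_nonneg fun _ _ => by positivity
    have hc : 0 ≤ ‖c m‖ ^ 4 := by positivity
    have e : ‖c m‖ ^ 4 = (‖c m‖ ^ 2) ^ 2 := by ring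
    rw [pow_succ (2 : ℝ) t.card]
    rw [e] at hc ⊢
    nlinarith [mul_nonneg hp.le hc]

end Hilbert

theorem orth {t : Finset ℕ} {m k : ℕ} (hm : m ∈ t) (hk : k ∈ t) :
    ∑ a ∈ t.powerset, sg a m * sg a k = if m = k then 2 ^ t.card else 0 := by
  classical
  split_ifs with h
  · subst h
    simp [sg_sq]
  · have ht : t = insert m (t.erase m) := (insert_erase hm).symm
    rw [ht, sum_powerset_insert (notMem_erase m t), ← sum_add_distrib]
    refine sum_eq_zero fun a ha => ?_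
    have hma : m ∉ a := fun h' => notMem_erase m t (mem_powerset.1 ha h')
    rw [sg_notMem hma, sg_insert_self, sg_insert_ne a (Ne.symm h)]
    ring

theorem ss_complex (c : ℕ → ℂ) (t a : Finset ℕ) : ss c t a = ∑ m ∈ t, (sg a m : ℂ) * c m := by
  simp [ss]

/-- Bessel inequality for the signs. -/
theorem bessel (t : Finset ℕ) (y : Finset ℕ → ℂ) :
    ∑ m ∈ t, ‖∑ a ∈ t.powerset, (sg a m : ℂ) * y a‖ ^ 2 ≤
      2 ^ t.card * ∑ a ∈ t.powerset, ‖y a‖ ^ 2 := by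
  set c : ℕ → ℂ := fun m => ∑ a ∈ t.powerset, (sg a m : ℂ) * y a with hc
  set A : ℝ := ∑ m ∈ t, ‖c m‖ ^ 2 with hA
  have hA0 : 0 ≤ A := sum_nonneg fun _ _ => by positivity
  have h1 : (A : ℂ) = ∑ a ∈ t.powerset, y a * ss (fun m => (starRingEnd ℂ) (c m)) t a := by
    simp only [ss_complex, mul_sum]
    rw [sum_comm, hA]
    push_cast
    refine sum_congr rfl fun m _ => ?_
    rw [← Complex.mul_conj']
    simp only [hc]
    rw [sum_mul]
    refine sum_congr rfl fun a _ => ?_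
    ring
  have h2 : A ≤ ∑ a ∈ t.powerset, ‖y a‖ * ‖ss (fun m => (starRingEnd ℂ) (c m)) t a‖ := by
    have : A = ‖(A : ℂ)‖ := by simp [abs_of_nonneg hA0]
    rw [this, h1]
    refine (norm_sum_le _ _).trans (le_of_eq ?_)
    exact sum_congr rfl fun a _ => norm_mul _ _
  have h3 := sum_mul_sq_le_sq_mul_sq t.powerset (fun a => ‖y a‖)
    (fun a => ‖ss (fun m => (starRingEnd ℂ) (c m)) t a‖)
  rw [second_moment] at h3
  simp only [Complex.norm_conj] at h3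
  rw [← hA] at h3
  have h4 : A ^ 2 ≤ (∑ a ∈ t.powerset, ‖y a‖ ^ 2) * (2 ^ t.card * A) :=
    (pow_le_pow_left₀ hA0 h2 2).trans h3
  rcases hA0.eq_or_lt with h0 | hpos
  · rw [← h0]; positivity
  · have : A * A ≤ (2 ^ t.card * ∑ a ∈ t.powerset, ‖y a‖ ^ 2) * A := by nlinarith
    exact le_of_mul_le_mul_right this hpos

theorem bessel2 (t s : Finset ℕ) (y : Finset ℕ → Finset ℕ → ℂ) :
    ∑ m ∈ t, ∑ n ∈ s, ‖∑ a ∈ t.powerset, ∑ b ∈ s.powerset, (sg a m : ℂ) * (sg b n : ℂ) * y a b‖ ^ 2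
      ≤ 2 ^ t.card * 2 ^ s.card * ∑ a ∈ t.powerset, ∑ b ∈ s.powerset, ‖y a b‖ ^ 2 := by
  rw [sum_comm]
  calc ∑ n ∈ s, ∑ m ∈ t,
        ‖∑ a ∈ t.powerset, ∑ b ∈ s.powerset, (sg a m : ℂ) * (sg b n : ℂ) * y a b‖ ^ 2
      = ∑ n ∈ s, ∑ m ∈ t,
        ‖∑ a ∈ t.powerset, (sg a m : ℂ) * ∑ b ∈ s.powerset, (sg b n : ℂ) * y a b‖ ^ 2 := by
        simp only [mul_sum, mul_assoc]
    _ ≤ ∑ n ∈ s, 2 ^ t.card * ∑ a ∈ t.powerset, ‖∑ b ∈ s.powerset, (sg b n : ℂ) * y a b‖ ^ 2 :=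
        sum_le_sum fun n _ => bessel t _
    _ = 2 ^ t.card * ∑ a ∈ t.powerset, ∑ n ∈ s, ‖∑ b ∈ s.powerset, (sg b n : ℂ) * y a b‖ ^ 2 := by
        rw [← mul_sum, sum_comm]
    _ ≤ 2 ^ t.card * ∑ a ∈ t.powerset, 2 ^ s.card * ∑ b ∈ s.powerset, ‖y a b‖ ^ 2 := by
        gcongr with a _
        exact bessel s _
    _ = _ := by rw [← mul_sum, mul_assoc]

/-- Fourth moment of the double chaos. -/
theorem fourth2 (t s : Finset ℕ) (h : ℕ → ℕ → ℂ) :
    ∑ a ∈ t.powerset, ∑ b ∈ s.powerset,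
        ‖∑ m ∈ t, ∑ n ∈ s, (sg a m : ℂ) * (sg b n : ℂ) * h m n‖ ^ 4 ≤
      9 * (2 ^ t.card * 2 ^ s.card) * (∑ m ∈ t, ∑ n ∈ s, ‖h m n‖ ^ 2) ^ 2 := by
  rw [sum_comm]
  let c : ℕ → EuclideanSpace ℂ t := fun n => WithLp.toLp 2 fun m => h m n
  let _ : InnerProductSpace ℝ (EuclideanSpace ℂ t) := InnerProductSpace.complexToReal
  have hc : ∀ n, ‖c n‖ ^ 2 = ∑ m ∈ t, ‖h m n‖ ^ 2 := fun n => by
    rw [EuclideanSpace.norm_sq_eq]
    exact sum_coe_sort t fun m => ‖h m n‖ ^ 2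
  have hs : ∀ b, ‖ss c s b‖ ^ 2 = ∑ m ∈ t, ‖ss (h m) s b‖ ^ 2 := fun b => by
    rw [EuclideanSpace.norm_sq_eq, ← sum_coe_sort t fun m => ‖ss (h m) s b‖ ^ 2]
    refine sum_congr rfl fun m _ => ?_
    congr 2
    simp [ss, c]
  have h4 := fourth_moment c s
  calc ∑ b ∈ s.powerset, ∑ a ∈ t.powerset,
        ‖∑ m ∈ t, ∑ n ∈ s, (sg a m : ℂ) * (sg b n : ℂ) * h m n‖ ^ 4
      = ∑ b ∈ s.powerset, ∑ a ∈ t.powerset, ‖ss (fun m => ss (h m) s b) t a‖ ^ 4 := by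
        simp only [ss_complex, mul_sum, mul_assoc]
    _ ≤ ∑ b ∈ s.powerset, 3 * 2 ^ t.card * (∑ m ∈ t, ‖ss (h m) s b‖ ^ 2) ^ 2 :=
        sum_le_sum fun b _ => fourth_moment _ t
    _ = 3 * 2 ^ t.card * ∑ b ∈ s.powerset, ‖ss c s b‖ ^ 4 := by
        rw [mul_sum]
        refine sum_congr rfl fun b _ => ?_
        rw [← hs]; ring
    _ ≤ 3 * 2 ^ t.card * (3 * 2 ^ s.card * (∑ n ∈ s, ‖c n‖ ^ 2) ^ 2) := by gcongr
    _ = _ := by
        simp only [hc]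
        rw [sum_comm]
        ring

theorem sq_le_sq_aux {a b : ℝ} (h : a ^ 2 ≤ b ^ 2) (hb : 0 ≤ b) : a ≤ b :=
  le_trans (le_abs_self a) (abs_le_of_sq_le_sq h hb)

/-- Radial truncation. -/
def tr (M : ℝ) (z : ℂ) : ℂ := z * ((M / max ‖z‖ M : ℝ) : ℂ)

theorem continuous_tr {M : ℝ} (hM : 0 < M) : Continuous (tr M) := by
  unfold tr
  refine continuous_id.mul (Complex.continuous_ofReal.comp (continuous_const.div
    (continuous_norm.max continuous_const) fun z => ?_))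
  exact (hM.trans_le (le_max_right _ _)).ne'

theorem norm_tr_le {M : ℝ} (hM : 0 < M) (z : ℂ) : ‖tr M z‖ ≤ M := by
  have hp : 0 < max ‖z‖ M := hM.trans_le (le_max_right _ _)
  unfold tr
  rw [norm_mul, Complex.norm_real, Real.norm_of_nonneg (by positivity), mul_div_assoc',
    div_le_iff₀ hp]
  nlinarith [le_max_left ‖z‖ M]

theorem norm_sub_tr_le {M : ℝ} (hM : 0 < M) (z : ℂ) : ‖z - tr M z‖ ≤ ‖z‖ ^ 2 / (4 * M) := by
  unfold tr
  rcases le_total ‖z‖ M with h | h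
  · rw [max_eq_right h, div_self hM.ne']
    simp only [Complex.ofReal_one, mul_one, sub_self, norm_zero]
    positivity
  · have hz : 0 < ‖z‖ := hM.trans_le h
    rw [max_eq_left h]
    have e : z - z * ((M / ‖z‖ : ℝ) : ℂ) = z * ((1 - M / ‖z‖ : ℝ) : ℂ) := by push_cast; ring
    have h1 : 0 ≤ 1 - M / ‖z‖ := by
      rw [sub_nonneg, div_le_one hz]; exact h
    rw [e, norm_mul, Complex.norm_real, Real.norm_of_nonneg h1, mul_sub, mul_one,
      mul_div_cancel₀ _ hz.ne', le_div_iff₀ (by positivity)]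
    nlinarith [sq_nonneg (‖z‖ - 2 * M)]

section Main

variable {X : Type*} [TopologicalSpace X] [CompactSpace X]
variable {E : Type*} [NormedAddCommGroup E] [NormedSpace ℂ E]

/-- The signed sum in a complex space. -/
def sc (c : ℕ → E) (t a : Finset ℕ) : E := ∑ m ∈ t, (sg a m : ℂ) • c m

/-- Root mean square of the signed sums. -/
def rms (c : ℕ → E) (t : Finset ℕ) : ℝ :=
  √((∑ a ∈ t.powerset, ‖sc c t a‖ ^ 2) / 2 ^ t.card)

theorem rms_nonneg (c : ℕ → E) (t : Finset ℕ) : 0 ≤ rms c t := Real.sqrt_nonneg _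

theorem rms_sq (c : ℕ → E) (t : Finset ℕ) :
    2 ^ t.card * rms c t ^ 2 = ∑ a ∈ t.powerset, ‖sc c t a‖ ^ 2 := by
  have hp : (0 : ℝ) < 2 ^ t.card := by positivity
  unfold rms
  rw [Real.sq_sqrt (div_nonneg (sum_nonneg fun _ _ => by positivity) hp.le)]
  field_simp

theorem sum_norm_le_rms (c : ℕ → E) (t : Finset ℕ) :
    ∑ a ∈ t.powerset, ‖sc c t a‖ ≤ 2 ^ t.card * rms c t := by
  have h := sum_mul_sq_le_sq_mul_sq t.powerset (fun _ => (1 : ℝ)) (fun a => ‖sc c t a‖)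
  simp only [one_mul, one_pow, sum_const, card_powerset, nsmul_eq_mul, mul_one, Nat.cast_pow,
    Nat.cast_ofNat] at h
  rw [← rms_sq] at h
  have h0 := rms_nonneg c t
  refine sq_le_sq_aux ?_ (by positivity)
  calc (∑ a ∈ t.powerset, ‖sc c t a‖) ^ 2 ≤ _ := h
    _ = _ := by ring

variable (Θ : C(X, ℂ) →ₐ[ℂ] (E →L[ℂ] E))

/-- The bilinear form. -/
def form (v : ℕ → StrongDual ℂ E) (u : ℕ → E) (t s : Finset ℕ) (h : ℕ → ℕ → C(X, ℂ)) : ℂ :=
  ∑ m ∈ t, ∑ n ∈ s, v m (Θ (h m n) (u n))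

omit [CompactSpace X] in
theorem form_avg (v : ℕ → StrongDual ℂ E) (u : ℕ → E) (t s : Finset ℕ)
    (Y : Finset ℕ → Finset ℕ → C(X, ℂ)) :
    form Θ v u t s (fun m n => ∑ a ∈ t.powerset, ∑ b ∈ s.powerset,
        ((sg a m : ℂ) * (sg b n : ℂ)) • Y a b) =
      ∑ a ∈ t.powerset, ∑ b ∈ s.powerset, sc v t a (Θ (Y a b) (sc u s b)) := by
  unfold form sc
  simp only [map_sum, map_smul, _root_.sum_apply, smul_apply,
    smul_eq_mul, mul_sum]
  calc ∑ m ∈ t, ∑ n ∈ s, ∑ a ∈ t.powerset, ∑ b ∈ s.powerset,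
        (sg a m : ℂ) * (sg b n : ℂ) * v m (Θ (Y a b) (u n))
      = ∑ m ∈ t, ∑ a ∈ t.powerset, ∑ n ∈ s, ∑ b ∈ s.powerset,
        (sg a m : ℂ) * (sg b n : ℂ) * v m (Θ (Y a b) (u n)) :=
        sum_congr rfl fun m _ => sum_comm
    _ = ∑ a ∈ t.powerset, ∑ m ∈ t, ∑ n ∈ s, ∑ b ∈ s.powerset,
        (sg a m : ℂ) * (sg b n : ℂ) * v m (Θ (Y a b) (u n)) := sum_comm
    _ = ∑ a ∈ t.powerset, ∑ m ∈ t, ∑ b ∈ s.powerset, ∑ n ∈ s,
        (sg a m : ℂ) * (sg b n : ℂ) * v m (Θ (Y a b) (u n)) :=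
        sum_congr rfl fun a _ => sum_congr rfl fun m _ => sum_comm
    _ = ∑ a ∈ t.powerset, ∑ b ∈ s.powerset, ∑ m ∈ t, ∑ n ∈ s,
        (sg a m : ℂ) * (sg b n : ℂ) * v m (Θ (Y a b) (u n)) :=
        sum_congr rfl fun a _ => sum_comm
    _ = _ := by
        refine sum_congr rfl fun a _ => sum_congr rfl fun b _ => ?_
        rw [sum_comm]
        refine sum_congr rfl fun n _ => sum_congr rfl fun m _ => ?_
        ring

theorem inversion (t s : Finset ℕ) (h : ℕ → ℕ → ℂ) {m n : ℕ} (hm : m ∈ t) (hn : n ∈ s) :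
    ∑ a ∈ t.powerset, ∑ b ∈ s.powerset, (sg a m : ℂ) * (sg b n : ℂ) *
        ∑ k ∈ t, ∑ l ∈ s, (sg a k : ℂ) * (sg b l : ℂ) * h k l =
      2 ^ t.card * 2 ^ s.card * h m n := by
  have o1 : ∀ k ∈ t, ∑ a ∈ t.powerset, (sg a m : ℂ) * (sg a k : ℂ) =
      if m = k then 2 ^ t.card else 0 := fun k hk => by
    have := congrArg (fun r : ℝ => (r : ℂ)) (orth hm hk)
    push_cast at this
    rw [this]; split_ifs <;> simp
  have o2 : ∀ l ∈ s, ∑ b ∈ s.powerset, (sg b n : ℂ) * (sg b l : ℂ) =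
      if n = l then 2 ^ s.card else 0 := fun l hl => by
    have := congrArg (fun r : ℝ => (r : ℂ)) (orth hn hl)
    push_cast at this
    rw [this]; split_ifs <;> simp
  calc _ = ∑ k ∈ t, ∑ l ∈ s, (∑ a ∈ t.powerset, (sg a m : ℂ) * (sg a k : ℂ)) *
        (∑ b ∈ s.powerset, (sg b n : ℂ) * (sg b l : ℂ)) * h k l := by
        simp only [mul_sum, sum_mul]
        calc _ = ∑ a ∈ t.powerset, ∑ k ∈ t, ∑ b ∈ s.powerset, ∑ l ∈ s,
              (sg a m : ℂ) * (sg b n : ℂ) * ((sg a k : ℂ) * (sg b l : ℂ) * h k l) :=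
              sum_congr rfl fun a _ => sum_comm
          _ = ∑ k ∈ t, ∑ a ∈ t.powerset, ∑ b ∈ s.powerset, ∑ l ∈ s,
              (sg a m : ℂ) * (sg b n : ℂ) * ((sg a k : ℂ) * (sg b l : ℂ) * h k l) := sum_comm
          _ = ∑ k ∈ t, ∑ a ∈ t.powerset, ∑ l ∈ s, ∑ b ∈ s.powerset,
              (sg a m : ℂ) * (sg b n : ℂ) * ((sg a k : ℂ) * (sg b l : ℂ) * h k l) :=
              sum_congr rfl fun k _ => sum_congr rfl fun a _ => sum_comm
          _ = ∑ k ∈ t, ∑ l ∈ s, ∑ a ∈ t.powerset, ∑ b ∈ s.powerset,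
              (sg a m : ℂ) * (sg b n : ℂ) * ((sg a k : ℂ) * (sg b l : ℂ) * h k l) :=
              sum_congr rfl fun k _ => sum_comm
          _ = _ := by
              refine sum_congr rfl fun k _ => sum_congr rfl fun l _ => ?_
              rw [sum_comm]
              refine sum_congr rfl fun b _ => sum_congr rfl fun a _ => ?_
              ring
    _ = ∑ k ∈ t, ∑ l ∈ s, (if m = k then (2 : ℂ) ^ t.card else 0) *
        (if n = l then (2 : ℂ) ^ s.card else 0) * h k l := by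
        refine sum_congr rfl fun k hk => sum_congr rfl fun l hl => ?_
        rw [o1 k hk, o2 l hl]
    _ = _ := by
        simp [ite_mul, mul_ite, hm, hn]

/-- One step of the truncation argument. -/
theorem step (hΘ : Continuous Θ) (v : ℕ → StrongDual ℂ E) (u : ℕ → E) (t s : Finset ℕ)
    (h : ℕ → ℕ → C(X, ℂ)) {M : ℝ} (hM0 : 0 < M)
    (hM : ∀ x, ∑ m ∈ t, ∑ n ∈ s, ‖h m n x‖ ^ 2 ≤ M ^ 2) :
    ∃ h' : ℕ → ℕ → C(X, ℂ), (∀ x, ∑ m ∈ t, ∑ n ∈ s, ‖h' m n x‖ ^ 2 ≤ (M / 2) ^ 2) ∧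
      ‖form Θ v u t s h‖ ≤ ‖form Θ v u t s h'‖ +
        3 / 2 * (‖clm Θ hΘ‖ * rms v t * rms u s) * M := by
  set N : ℝ := 2 ^ t.card * 2 ^ s.card with hN
  have hN0 : 0 < N := by positivity
  have hM1 : 0 < 3 / 2 * M := by positivity
  let Z : Finset ℕ → Finset ℕ → C(X, ℂ) := fun a b =>
    ∑ k ∈ t, ∑ l ∈ s, ((sg a k : ℂ) * (sg b l : ℂ)) • h k l
  have hZ : ∀ a b x, Z a b x = ∑ k ∈ t, ∑ l ∈ s, (sg a k : ℂ) * (sg b l : ℂ) * h k l x := by
    intro a b x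
    simp [Z]
  let T : Finset ℕ → Finset ℕ → C(X, ℂ) := fun a b =>
    (⟨tr (3 / 2 * M), continuous_tr hM1⟩ : C(ℂ, ℂ)).comp (Z a b)
  have hT : ∀ a b x, T a b x = tr (3 / 2 * M) (Z a b x) := fun a b x => rfl
  let g : ℕ → ℕ → C(X, ℂ) := fun m n => ∑ a ∈ t.powerset, ∑ b ∈ s.powerset,
    ((sg a m : ℂ) * (sg b n : ℂ)) • T a b
  refine ⟨fun m n => h m n - ((N⁻¹ : ℝ) : ℂ) • g m n, fun x => ?_, ?_⟩
  · have e : ∀ m ∈ t, ∀ n ∈ s, (h m n - ((N⁻¹ : ℝ) : ℂ) • g m n) x =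
        ((N⁻¹ : ℝ) : ℂ) * ∑ a ∈ t.powerset, ∑ b ∈ s.powerset,
          (sg a m : ℂ) * (sg b n : ℂ) * (Z a b x - tr (3 / 2 * M) (Z a b x)) := by
      intro m hm n hn
      have hi := inversion t s (fun k l => h k l x) hm hn
      simp only [mul_sub, sum_sub_distrib]
      simp only [← hZ] at hi
      rw [hi]
      have hNc : ((N⁻¹ : ℝ) : ℂ) * (2 ^ t.card * 2 ^ s.card * h m n x) = h m n x := by
        rw [hN]; push_cast; field_simp
      rw [hNc]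
      simp [g, hT]
    have hb := bessel2 t s fun a b => Z a b x - tr (3 / 2 * M) (Z a b x)
    have h4 := fourth2 t s fun k l => h k l x
    simp only [← hZ] at h4
    have h5 : ∑ a ∈ t.powerset, ∑ b ∈ s.powerset, ‖Z a b x - tr (3 / 2 * M) (Z a b x)‖ ^ 2 ≤
        ∑ a ∈ t.powerset, ∑ b ∈ s.powerset, ‖Z a b x‖ ^ 4 / (36 * M ^ 2) := by
      refine sum_le_sum fun a _ => sum_le_sum fun b _ => ?_
      calc _ ≤ (‖Z a b x‖ ^ 2 / (4 * (3 / 2 * M))) ^ 2 := by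
            gcongr; exact norm_sub_tr_le hM1 _
        _ = _ := by field_simp; ring
    simp only [← sum_div] at h5
    have hA0 : 0 ≤ ∑ m ∈ t, ∑ n ∈ s, ‖h m n x‖ ^ 2 :=
      sum_nonneg fun _ _ => sum_nonneg fun _ _ => by positivity
    have h6 : (∑ m ∈ t, ∑ n ∈ s, ‖h m n x‖ ^ 2) ^ 2 ≤ (M ^ 2) ^ 2 := by gcongr; exact hM x
    calc ∑ m ∈ t, ∑ n ∈ s, ‖(h m n - ((N⁻¹ : ℝ) : ℂ) • g m n) x‖ ^ 2
        = N⁻¹ ^ 2 * ∑ m ∈ t, ∑ n ∈ s, ‖∑ a ∈ t.powerset, ∑ b ∈ s.powerset,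
          (sg a m : ℂ) * (sg b n : ℂ) * (Z a b x - tr (3 / 2 * M) (Z a b x))‖ ^ 2 := by
          simp only [mul_sum (a := N⁻¹ ^ 2)]
          refine sum_congr rfl fun m hm => sum_congr rfl fun n hn => ?_
          rw [e m hm n hn, norm_mul, mul_pow, Complex.norm_real, Real.norm_of_nonneg (by positivity)]
      _ ≤ N⁻¹ ^ 2 * (N * ((9 * N * (M ^ 2) ^ 2) / (36 * M ^ 2))) := by
          gcongr
          refine hb.trans ?_
          rw [← hN]
          gcongr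
          refine h5.trans ?_
          gcongr
          refine h4.trans ?_
          rw [← hN]
          gcongr
      _ = (M / 2) ^ 2 := by field_simp; ring
  · have e1 : form Θ v u t s h = form Θ v u t s (fun m n => h m n - ((N⁻¹ : ℝ) : ℂ) • g m n) +
        ((N⁻¹ : ℝ) : ℂ) * form Θ v u t s g := by
      unfold form
      simp only [map_sub, map_smul, sub_apply, smul_apply,
        smul_eq_mul, sum_sub_distrib, mul_sum]
      ring
    rw [e1]
    refine (norm_add_le _ _).trans (add_le_add le_rfl ?_)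
    rw [norm_mul, Complex.norm_real, Real.norm_of_nonneg (by positivity), form_avg]
    have hTn : ∀ a b, ‖T a b‖ ≤ 3 / 2 * M := fun a b =>
      (ContinuousMap.norm_le _ hM1.le).2 fun x => norm_tr_le hM1 _
    have h1 : ‖∑ a ∈ t.powerset, ∑ b ∈ s.powerset, sc v t a (Θ (T a b) (sc u s b))‖ ≤
        ∑ a ∈ t.powerset, ∑ b ∈ s.powerset,
          (‖clm Θ hΘ‖ * (3 / 2 * M)) * (‖sc v t a‖ * ‖sc u s b‖) := by
      refine (norm_sum_le _ _).trans (sum_le_sum fun a _ =>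
        (norm_sum_le _ _).trans (sum_le_sum fun b _ => ?_))
      calc _ ≤ ‖sc v t a‖ * ‖Θ (T a b) (sc u s b)‖ := (sc v t a).le_opNorm _
        _ ≤ ‖sc v t a‖ * (‖clm Θ hΘ‖ * (3 / 2 * M) * ‖sc u s b‖) := by
            gcongr
            refine (norm_apply_le Θ hΘ _ _).trans ?_
            gcongr
            exact hTn a b
        _ = _ := by ring
    simp only [← mul_sum] at h1
    rw [← sum_mul] at h1
    have h2 := sum_norm_le_rms v t
    have h3 := sum_norm_le_rms u s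
    have h2' := rms_nonneg v t
    have h3' : 0 ≤ ∑ b ∈ s.powerset, ‖sc u s b‖ := sum_nonneg fun _ _ => norm_nonneg _
    calc _ ≤ N⁻¹ * ((‖clm Θ hΘ‖ * (3 / 2 * M)) *
          ((2 ^ t.card * rms v t) * (2 ^ s.card * rms u s))) := by
          gcongr
          refine h1.trans ?_
          gcongr
      _ = _ := by rw [hN]; field_simp

theorem crude (hΘ : Continuous Θ) (v : ℕ → StrongDual ℂ E) (u : ℕ → E) (t s : Finset ℕ)
    (h : ℕ → ℕ → C(X, ℂ)) {M : ℝ} (hM0 : 0 ≤ M)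
    (hM : ∀ x, ∑ m ∈ t, ∑ n ∈ s, ‖h m n x‖ ^ 2 ≤ M ^ 2) :
    ‖form Θ v u t s h‖ ≤ (∑ m ∈ t, ∑ n ∈ s, ‖v m‖ * ‖clm Θ hΘ‖ * ‖u n‖) * M := by
  unfold form
  simp only [sum_mul]
  refine (norm_sum_le _ _).trans (sum_le_sum fun m hm =>
    (norm_sum_le _ _).trans (sum_le_sum fun n hn => ?_))
  have hh : ‖h m n‖ ≤ M := by
    refine (ContinuousMap.norm_le _ hM0).2 fun x => sq_le_sq_aux (le_trans ?_ (hM x)) hM0
    calc ‖h m n x‖ ^ 2 ≤ ∑ n ∈ s, ‖h m n x‖ ^ 2 :=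
          single_le_sum (f := fun n => ‖h m n x‖ ^ 2) (fun _ _ => by positivity) hn
      _ ≤ _ := single_le_sum (f := fun m => ∑ n ∈ s, ‖h m n x‖ ^ 2)
          (fun _ _ => sum_nonneg fun _ _ => by positivity) hm
  calc _ ≤ ‖v m‖ * ‖Θ (h m n) (u n)‖ := (v m).le_opNorm _
    _ ≤ ‖v m‖ * (‖clm Θ hΘ‖ * M * ‖u n‖) := by
        gcongr
        refine (norm_apply_le Θ hΘ _ _).trans ?_
        gcongr
    _ = _ := by ring

theorem form_bound (hΘ : Continuous Θ) (v : ℕ → StrongDual ℂ E) (u : ℕ → E) (t s : Finset ℕ)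
    (h : ℕ → ℕ → C(X, ℂ)) {M : ℝ} (hM0 : 0 ≤ M)
    (hM : ∀ x, ∑ m ∈ t, ∑ n ∈ s, ‖h m n x‖ ^ 2 ≤ M ^ 2) :
    ‖form Θ v u t s h‖ ≤ 3 * (‖clm Θ hΘ‖ * rms v t * rms u s) * M := by
  set C : ℝ := ∑ m ∈ t, ∑ n ∈ s, ‖v m‖ * ‖clm Θ hΘ‖ * ‖u n‖ with hC
  set R : ℝ := ‖clm Θ hΘ‖ * rms v t * rms u s with hR
  have hR0 : 0 ≤ R := mul_nonneg (mul_nonneg (clm Θ hΘ).opNorm_nonneg (rms_nonneg _ _)) (rms_nonneg _ _)
  rcases hM0.eq_or_lt with h0 | hpos
  · have := crude Θ hΘ v u t s h hM0 hM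
    rw [← h0] at this ⊢
    simpa using this
  have key : ∀ k : ℕ, ∀ (M : ℝ) (h : ℕ → ℕ → C(X, ℂ)), 0 < M →
      (∀ x, ∑ m ∈ t, ∑ n ∈ s, ‖h m n x‖ ^ 2 ≤ M ^ 2) →
      ‖form Θ v u t s h‖ ≤ 3 * R * M + C * M * (1 / 2) ^ k := by
    intro k
    induction k with
    | zero =>
      intro M h hM0 hM
      have := crude Θ hΘ v u t s h hM0.le hM
      have h2 : 0 ≤ 3 * R * M := by positivity
      simp only [pow_zero, mul_one]
      linarith
    | succ k ih =>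
      intro M h hM0 hM
      obtain ⟨h', h1, h2⟩ := step Θ hΘ v u t s h hM0 hM
      have := ih (M / 2) h' (by positivity) h1
      rw [pow_succ]
      rw [← hR] at h2
      linarith
  have hl : Filter.Tendsto (fun k : ℕ => 3 * R * M + C * M * (1 / 2 : ℝ) ^ k) Filter.atTop
      (nhds (3 * R * M + C * M * 0)) :=
    tendsto_const_nhds.add
      ((tendsto_pow_atTop_nhds_zero_of_lt_one (by norm_num) (by norm_num)).const_mul _)
  have := ge_of_tendsto' hl fun k => key k M h hpos hM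
  simpa using this

end Main

end Pool.Agent.P.MP_f981b0_an.TB.RC
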