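import Pool.Agent.P.MP_f981b0_an.TB.Defs
import Pool.Agent.P.MP_f981b0_an.TB.RadCore

set_option autoImplicit false

noncomputable section

namespace Pool.Agent.P.MP_f981b0_an.TB

open MeasureTheory Metric Set R1

variable {X : Type*} [TopologicalSpace X] [CompactSpace X]
variable {E : Type*} [NormedAddCommGroup E] [NormedSpace ℂ E]

theorem sc_eq_sub (u : ℕ → E) {s a : Finset ℕ} (ha : a ∈ s.powerset) :
    RC.sc u s a = ∑ i ∈ a, u i - ∑ i ∈ s \ a, u i := by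
  have hs := Finset.mem_powerset.1 ha
  unfold RC.sc
  rw [← Finset.sum_sdiff hs, add_comm, sub_eq_add_neg, ← Finset.sum_neg_distrib]
  congr 1
  · refine Finset.sum_congr rfl fun i hi => ?_
    simp [RC.sg, hi]
  · refine Finset.sum_congr rfl fun i hi => ?_
    simp [RC.sg, (Finset.mem_sdiff.1 hi).2]

theorem rad2_eq (u : ℕ → E) (s : Finset ℕ) :
    rad2 u s = (∑ a ∈ s.powerset, ‖RC.sc u s a‖ ^ 2) / 2 ^ s.card := by
  unfold rad2
  congr 1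
  exact Finset.sum_congr rfl fun a ha => by rw [sc_eq_sub u ha]

theorem rad_eq_rms (u : ℕ → E) (s : Finset ℕ) : rad u s = RC.rms u s := by
  unfold rad RC.rms
  rw [rad2_eq]

omit [NormedSpace ℂ E] in
theorem rad2_nonneg (u : ℕ → E) (s : Finset ℕ) : 0 ≤ rad2 u s :=
  div_nonneg (Finset.sum_nonneg fun _ _ => by positivity) (by positivity)

omit [NormedSpace ℂ E] in
theorem rad_nonneg (u : ℕ → E) (s : Finset ℕ) : 0 ≤ rad u s := Real.sqrt_nonneg _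

omit [NormedSpace ℂ E] in
theorem rad_sq (u : ℕ → E) (s : Finset ℕ) : rad u s ^ 2 = rad2 u s :=
  Real.sq_sqrt (rad2_nonneg u s)

theorem sc_eq_ss (u : ℕ → E) (s a : Finset ℕ) : RC.sc u s a = RC.ss u s a := by
  unfold RC.sc RC.ss
  exact Finset.sum_congr rfl fun i _ => Complex.coe_smul _ _

theorem rad_single (y : E) : rad (fun _ => y) {0} = ‖y‖ := by
  unfold rad rad2
  have h : ({0} : Finset ℕ).powerset = {∅, {0}} := by decide
  rw [h, Finset.sum_pair (by decide)]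
  simp only [Finset.sum_empty, Finset.sdiff_empty, Finset.sum_singleton, zero_sub, norm_neg,
    Finset.sdiff_self, sub_zero, Finset.card_singleton, pow_one]
  rw [show (‖y‖ ^ 2 + ‖y‖ ^ 2) / 2 = ‖y‖ ^ 2 by ring, Real.sqrt_sq (norm_nonneg y)]

theorem rad_bound (Θ : C(X, ℂ) →ₐ[ℂ] (E →L[ℂ] E)) (hΘ : Continuous Θ)
    (v : ℕ → StrongDual ℂ E) (u : ℕ → E) (t s : Finset ℕ) (h : ℕ → ℕ → C(X, ℂ)) {M : ℝ}
    (hM0 : 0 ≤ M) (hM : ∀ x, ∑ m ∈ t, ∑ n ∈ s, ‖h m n x‖ ^ 2 ≤ M ^ 2) :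
    ‖∑ m ∈ t, ∑ n ∈ s, v m (Θ (h m n) (u n))‖ ≤
      10 * ‖clm Θ hΘ‖ * rad v t * rad u s * M := by
  have h1 := RC.form_bound Θ hΘ v u t s h hM0 hM
  rw [← rad_eq_rms, ← rad_eq_rms] at h1
  refine le_trans h1 ?_
  have h2 : 0 ≤ ‖clm Θ hΘ‖ * rad v t * rad u s * M :=
    mul_nonneg (mul_nonneg (mul_nonneg (clm Θ hΘ).opNorm_nonneg (rad_nonneg _ _))
      (rad_nonneg _ _)) hM0
  nlinarith

theorem rad_bound_col (Θ : C(X, ℂ) →ₐ[ℂ] (E →L[ℂ] E)) (hΘ : Continuous Θ)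
    (u : ℕ → E) (s : Finset ℕ) (f : ℕ → C(X, ℂ)) {M : ℝ}
    (hM0 : 0 ≤ M) (hM : ∀ x, ∑ n ∈ s, ‖f n x‖ ^ 2 ≤ M ^ 2) :
    ‖∑ n ∈ s, Θ (f n) (u n)‖ ≤ 10 * ‖clm Θ hΘ‖ * rad u s * M := by
  obtain ⟨e, he1, he⟩ := exists_dual_vector'' ℂ (∑ n ∈ s, Θ (f n) (u n))
  have h1 := rad_bound Θ hΘ (fun _ => e) u {0} s (fun _ n => f n) hM0 (by simpa using hM)
  rw [rad_single, Finset.sum_singleton, ← map_sum, he] at h1
  simp only [Complex.coe_algebraMap, Complex.norm_real, norm_norm] at h1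
  refine h1.trans ?_
  have h2 : 0 ≤ 10 * ‖clm Θ hΘ‖ * rad u s * M :=
    mul_nonneg (mul_nonneg (mul_nonneg (by norm_num) (clm Θ hΘ).opNorm_nonneg)
      (rad_nonneg _ _)) hM0
  calc 10 * ‖clm Θ hΘ‖ * ‖e‖ * rad u s * M = ‖e‖ * (10 * ‖clm Θ hΘ‖ * rad u s * M) := by ring
    _ ≤ 1 * (10 * ‖clm Θ hΘ‖ * rad u s * M) := by gcongr
    _ = _ := one_mul _

theorem rad_bound_row (Θ : C(X, ℂ) →ₐ[ℂ] (E →L[ℂ] E)) (hΘ : Continuous Θ)
    (v : ℕ → StrongDual ℂ E) (y : E) (t : Finset ℕ) (f : ℕ → C(X, ℂ)) {M : ℝ}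
    (hM0 : 0 ≤ M) (hM : ∀ x, ∑ m ∈ t, ‖f m x‖ ^ 2 ≤ M ^ 2) :
    ‖∑ m ∈ t, v m (Θ (f m) y)‖ ≤ 10 * ‖clm Θ hΘ‖ * rad v t * ‖y‖ * M := by
  have h1 := rad_bound Θ hΘ v (fun _ => y) t {0} (fun m _ => f m) hM0 (by simpa using hM)
  rw [rad_single] at h1
  simpa only [Finset.sum_singleton] using h1

theorem rad2_map_le {F : Type*} [NormedAddCommGroup F] [NormedSpace ℂ F] (u : ℕ → E)
    (L : E →L[ℂ] F) (s : Finset ℕ) : rad2 (fun n => L (u n)) s ≤ ‖L‖ ^ 2 * rad2 u s := by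
  unfold rad2
  rw [← mul_div_assoc, Finset.mul_sum]
  gcongr with a _
  rw [← map_sum, ← map_sum, ← map_sub, ← mul_pow]
  gcongr
  exact L.le_opNorm _

theorem rad2_hilbert {H : Type*} [NormedAddCommGroup H] [InnerProductSpace ℂ H] (u : ℕ → H)
    (s : Finset ℕ) : rad2 u s = ∑ n ∈ s, ‖u n‖ ^ 2 := by
  let _ : InnerProductSpace ℝ H := InnerProductSpace.complexToReal
  rw [rad2_eq]
  have h := RC.second_moment u s
  simp only [sc_eq_ss]
  rw [div_eq_iff (by positivity), mul_comm]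
  exact h

theorem sum_sq_dual_le (u : ℕ → E) (s : Finset ℕ) (e : StrongDual ℂ E) :
    ∑ n ∈ s, ‖e (u n)‖ ^ 2 ≤ (‖e‖ * rad u s) ^ 2 := by
  rw [← rad2_hilbert (fun n => e (u n)) s, mul_pow, rad_sq]
  exact rad2_map_le u e s

theorem sum_sq_apply_le (v : ℕ → StrongDual ℂ E) (t : Finset ℕ) (x : E) :
    ∑ m ∈ t, ‖v m x‖ ^ 2 ≤ (rad v t * ‖x‖) ^ 2 := by
  have h := sum_sq_dual_le v t (NormedSpace.inclusionInDoubleDual ℂ E x)
  simp only [NormedSpace.dual_def] at h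
  refine h.trans ?_
  rw [mul_comm (rad v t)]
  have := rad_nonneg v t
  gcongr
  exact NormedSpace.double_dual_bound ℂ E x

theorem rad2_insert_le (u : ℕ → E) {s : Finset ℕ} {m : ℕ} (hm : m ∉ s) :
    rad2 u (insert m s) ≤ 2 * rad2 u s + 2 * ‖u m‖ ^ 2 := by
  rw [rad2_eq, rad2_eq]
  simp only [sc_eq_ss]
  rw [RC.sum_ss_insert u hm (fun z => ‖z‖ ^ 2), Finset.card_insert_of_notMem hm]
  have h1 : ∀ a ∈ s.powerset, ‖RC.ss u s a - u m‖ ^ 2 + ‖RC.ss u s a + u m‖ ^ 2 ≤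
      4 * ‖RC.ss u s a‖ ^ 2 + 4 * ‖u m‖ ^ 2 := fun a _ => by
    have e1 : ‖RC.ss u s a - u m‖ ^ 2 ≤ (‖RC.ss u s a‖ + ‖u m‖) ^ 2 := by
      gcongr; exact norm_sub_le _ _
    have e2 : ‖RC.ss u s a + u m‖ ^ 2 ≤ (‖RC.ss u s a‖ + ‖u m‖) ^ 2 := by
      gcongr; exact norm_add_le _ _
    nlinarith [sq_nonneg (‖RC.ss u s a‖ - ‖u m‖)]
  have h2 := Finset.sum_le_sum h1
  rw [Finset.sum_add_distrib (f := fun a => 4 * ‖RC.ss u s a‖ ^ 2), ← Finset.mul_sum,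
    Finset.sum_const, Finset.card_powerset] at h2
  simp only [nsmul_eq_mul, Nat.cast_pow, Nat.cast_ofNat] at h2
  have hp : (0 : ℝ) < 2 ^ s.card := by positivity
  rw [div_le_iff₀ (by positivity)]
  refine h2.trans (le_of_eq ?_)
  rw [pow_succ (2 : ℝ) s.card]
  field_simp
  ring

theorem RadSum.bdd {u : ℕ → E} (hu : RadSum u) : ∃ R : ℝ, 0 ≤ R ∧ ∀ s, rad u s ≤ R := by
  have key : ∀ N : ℕ, (∃ B : ℝ, ∀ s : Finset ℕ, (∀ i ∈ s, N ≤ i) → rad2 u s ≤ B) →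
      ∃ B : ℝ, ∀ s : Finset ℕ, rad2 u s ≤ B := by
    intro N
    induction N with
    | zero => rintro ⟨B, hB⟩; exact ⟨B, fun s => hB s fun i _ => Nat.zero_le i⟩
    | succ N ih =>
      rintro ⟨B, hB⟩
      refine ih ⟨2 * B + 2 * ‖u N‖ ^ 2, fun s hs => ?_⟩
      have hB0 : 0 ≤ B := (rad2_nonneg u ∅).trans (hB ∅ (by simp))
      by_cases hN : N ∈ s
      · rw [← Finset.insert_erase hN]
        refine (rad2_insert_le u (Finset.notMem_erase N s)).trans ?_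
        have := hB (s.erase N) fun i hi => by
          have h1 := Finset.mem_erase.1 hi
          have h2 := hs i h1.2
          have h3 := h1.1
          omega
        linarith
      · have := hB s fun i hi => by
          have h2 := hs i hi
          have h3 : i ≠ N := fun h => hN (h ▸ hi)
          omega
        nlinarith [sq_nonneg ‖u N‖]
  obtain ⟨N, hN⟩ := hu 1 one_pos
  obtain ⟨B, hB⟩ := key N ⟨1, hN⟩
  exact ⟨√B, Real.sqrt_nonneg _, fun s => Real.sqrt_le_sqrt (hB s)⟩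

theorem RadSum.tail {u : ℕ → E} (hu : RadSum u) {ε : ℝ} (hε : 0 < ε) :
    ∃ N : ℕ, ∀ s : Finset ℕ, (∀ i ∈ s, N ≤ i) → rad u s ≤ ε := by
  obtain ⟨N, hN⟩ := hu (ε ^ 2) (by positivity)
  refine ⟨N, fun s hs => ?_⟩
  calc rad u s ≤ √(ε ^ 2) := Real.sqrt_le_sqrt (hN s hs)
    _ = ε := Real.sqrt_sq hε.le

theorem RadSum.map {F : Type*} [NormedAddCommGroup F] [NormedSpace ℂ F] {u : ℕ → E}
    (hu : RadSum u) (L : E →L[ℂ] F) : RadSum fun n => L (u n) := by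
  intro ε hε
  obtain ⟨N, hN⟩ := hu (ε / (‖L‖ ^ 2 + 1)) (by positivity)
  refine ⟨N, fun s hs => (rad2_map_le u L s).trans ?_⟩
  calc ‖L‖ ^ 2 * rad2 u s ≤ (‖L‖ ^ 2 + 1) * (ε / (‖L‖ ^ 2 + 1)) := by
        gcongr
        · exact rad2_nonneg u s
        · linarith
        · exact hN s hs
    _ = ε := by field_simp

theorem tail_of_summable {f : ℕ → ℝ} (hf : Summable f) {ε : ℝ} (hε : 0 < ε) :
    ∃ N : ℕ, ∀ s : Finset ℕ, (∀ i ∈ s, N ≤ i) → ∑ i ∈ s, f i ≤ ε := by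
  obtain ⟨T, hT⟩ := summable_iff_vanishing_norm.1 hf ε hε
  refine ⟨T.sup id + 1, fun s hs => ?_⟩
  have hd : Disjoint s T := Finset.disjoint_left.2 fun i hi hiT => by
    have h1 := hs i hi
    have h2 : i ≤ T.sup id := Finset.le_sup (f := id) hiT
    omega
  exact (le_abs_self _).trans (hT s hd).le

omit [NormedSpace ℂ E] in
theorem rad2_le_sum_sq (u : ℕ → E) (s : Finset ℕ) : rad2 u s ≤ (∑ n ∈ s, ‖u n‖) ^ 2 := by
  unfold rad2
  rw [div_le_iff₀ (by positivity)]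
  calc _ ≤ ∑ _a ∈ s.powerset, (∑ n ∈ s, ‖u n‖) ^ 2 := by
        refine Finset.sum_le_sum fun a ha => ?_
        gcongr
        rw [← Finset.sum_sdiff (Finset.mem_powerset.1 ha), add_comm]
        exact (norm_sub_le _ _).trans (add_le_add (norm_sum_le _ _) (norm_sum_le _ _))
    _ = _ := by
        rw [Finset.sum_const, Finset.card_powerset]
        simp only [nsmul_eq_mul, Nat.cast_pow, Nat.cast_ofNat]
        ring

theorem radSum_of_summable_norm {u : ℕ → E} (hu : Summable fun n => ‖u n‖) : RadSum u := by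
  intro ε hε
  obtain ⟨N, hN⟩ := tail_of_summable hu (Real.sqrt_pos.2 hε)
  refine ⟨N, fun s hs => (rad2_le_sum_sq u s).trans ?_⟩
  calc (∑ n ∈ s, ‖u n‖) ^ 2 ≤ √ε ^ 2 := by
        gcongr
        exact hN s hs
    _ = ε := Real.sq_sqrt hε.le

theorem radSum_of_hilbert {H : Type*} [NormedAddCommGroup H] [InnerProductSpace ℂ H]
    {u : ℕ → H} (hu : Summable fun n => ‖u n‖ ^ 2) : RadSum u := by
  intro ε hε
  obtain ⟨N, hN⟩ := tail_of_summable hu hε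
  exact ⟨N, fun s hs => by rw [rad2_hilbert]; exact hN s hs⟩

theorem rad2_innerSL {H : Type*} [NormedAddCommGroup H] [InnerProductSpace ℂ H]
    (u : ℕ → H) (s : Finset ℕ) : rad2 (fun n => innerSL ℂ (u n)) s = rad2 u s := by
  unfold rad2
  congr 1
  refine Finset.sum_congr rfl fun a _ => ?_
  rw [← map_sum, ← map_sum, ← map_sub, innerSL_apply_norm]

theorem radSum_innerSL {H : Type*} [NormedAddCommGroup H] [InnerProductSpace ℂ H]
    {u : ℕ → H} (hu : Summable fun n => ‖u n‖ ^ 2) : RadSum fun n => innerSL ℂ (u n) := by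
  intro ε hε
  obtain ⟨N, hN⟩ := radSum_of_hilbert hu ε hε
  exact ⟨N, fun s hs => by rw [rad2_innerSL]; exact hN s hs⟩

end Pool.Agent.P.MP_f981b0_an.TB
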