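import Pool.Agent.P.MP_f981b0_an.TB.Rad

set_option autoImplicit false

noncomputable section

namespace Pool.Agent.P.MP_f981b0_an.TB.T4

open MeasureTheory Metric Set R1 Filter

section nv

variable {ι κ : Type*}

/-- The Euclidean norm of the finite family `x i`, `i ∈ t`. -/
def nv (t : Finset ι) (x : ι → ℂ) : ℝ := √(∑ i ∈ t, ‖x i‖ ^ 2)

lemma nv_nonneg (t : Finset ι) (x : ι → ℂ) : 0 ≤ nv t x := Real.sqrt_nonneg _

lemma nv_sq (t : Finset ι) (x : ι → ℂ) : nv t x ^ 2 = ∑ i ∈ t, ‖x i‖ ^ 2 :=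
  Real.sq_sqrt (Finset.sum_nonneg fun _ _ => by positivity)

lemma nv_le_iff (t : Finset ι) (x : ι → ℂ) {b : ℝ} (hb : 0 ≤ b) :
    nv t x ≤ b ↔ ∑ i ∈ t, ‖x i‖ ^ 2 ≤ b ^ 2 := Real.sqrt_le_left hb

lemma nv_eq (t : Finset ι) (x : ι → ℂ) :
    nv t x = ‖(WithLp.toLp 2 fun i : t => x i : EuclideanSpace ℂ t)‖ := by
  rw [EuclideanSpace.norm_eq, nv]
  congr 1
  exact (Finset.sum_coe_sort t fun i => ‖x i‖ ^ 2).symm

lemma nv_add_le (t : Finset ι) (x y : ι → ℂ) :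
    nv t (fun i => x i + y i) ≤ nv t x + nv t y := by
  simp only [nv_eq]
  exact norm_add_le (WithLp.toLp 2 fun i : t => x i : EuclideanSpace ℂ t)
    (WithLp.toLp 2 fun i : t => y i)

lemma nv_mul (t : Finset ι) (c : ℂ) (x : ι → ℂ) :
    nv t (fun i => c * x i) = ‖c‖ * nv t x := by
  simp only [nv_eq]
  exact norm_smul c (WithLp.toLp 2 fun i : t => x i : EuclideanSpace ℂ t)

lemma nv_congr {t : Finset ι} {x y : ι → ℂ} (h : ∀ i ∈ t, x i = y i) : nv t x = nv t y := by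
  unfold nv
  rw [Finset.sum_congr rfl fun i hi => by rw [h i hi]]

lemma nv_mono {t t' : Finset ι} (h : t ⊆ t') (x : ι → ℂ) : nv t x ≤ nv t' x :=
  Real.sqrt_le_sqrt (Finset.sum_le_sum_of_subset_of_nonneg h fun _ _ _ => by positivity)

lemma nv_split [DecidableEq ι] (t s : Finset ι) (x : ι → ℂ) :
    nv t x ≤ nv s x + nv (t \ s) x := by
  rw [nv_le_iff _ _ (add_nonneg (nv_nonneg _ _) (nv_nonneg _ _))]
  have h1 : ∑ i ∈ t, ‖x i‖ ^ 2 ≤ ∑ i ∈ s ∪ (t \ s), ‖x i‖ ^ 2 :=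
    Finset.sum_le_sum_of_subset_of_nonneg (by intro i hi; by_cases h : i ∈ s <;> simp [h, hi])
      fun _ _ _ => by positivity
  rw [Finset.sum_union Finset.disjoint_sdiff, ← nv_sq s, ← nv_sq (t \ s)] at h1
  nlinarith [mul_nonneg (nv_nonneg s x) (nv_nonneg (t \ s) x)]

lemma norm_sum_mul_le (t : Finset ι) (x y : ι → ℂ) :
    ‖∑ i ∈ t, x i * y i‖ ≤ nv t x * nv t y := by
  refine (norm_sum_le _ _).trans ?_
  simp only [norm_mul]
  exact Real.sum_mul_le_sqrt_mul_sqrt t (fun i => ‖x i‖) fun i => ‖y i‖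

lemma nv_prod (t : Finset ι) (s : Finset κ) (B : ι → κ → ℂ) :
    nv (t ×ˢ s) (fun j => B j.1 j.2) = √(∑ m ∈ t, ∑ n ∈ s, ‖B m n‖ ^ 2) := by
  rw [nv, Finset.sum_product]

lemma nv_matrix (t : Finset ι) (s : Finset κ) (B : ι → κ → ℂ) (x : κ → ℂ) :
    nv t (fun m => ∑ n ∈ s, B m n * x n) ≤ nv (t ×ˢ s) (fun j => B j.1 j.2) * nv s x := by
  rw [nv_le_iff _ _ (mul_nonneg (nv_nonneg _ _) (nv_nonneg _ _)), mul_pow, nv_sq (t ×ˢ s),
    Finset.sum_product, Finset.sum_mul]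
  refine Finset.sum_le_sum fun m _ => ?_
  rw [← nv_sq, ← mul_pow]
  exact pow_le_pow_left₀ (norm_nonneg _) (norm_sum_mul_le s (B m) x) 2

lemma norm_le_nv {t : Finset ι} {i : ι} (hi : i ∈ t) (x : ι → ℂ) : ‖x i‖ ≤ nv t x := by
  refine Real.le_sqrt_of_sq_le ?_
  exact Finset.single_le_sum (f := fun i => ‖x i‖ ^ 2) (fun _ _ => by positivity) hi

lemma measurable_nv {α : Type*} [MeasurableSpace α] (t : Finset ι) {x : ι → α → ℂ}
    (h : ∀ i, Measurable (x i)) : Measurable fun z => nv t fun i => x i z := by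
  unfold nv
  fun_prop

lemma nv_le_sum (t : Finset ι) (x : ι → ℂ) : nv t x ≤ ∑ i ∈ t, ‖x i‖ := by
  rw [nv_le_iff _ _ (Finset.sum_nonneg fun _ _ => norm_nonneg _)]
  exact Finset.sum_sq_le_sq_sum_of_nonneg fun _ _ => norm_nonneg _

lemma integrable_nv {α : Type*} [MeasurableSpace α] {μ : Measure α} (t : Finset ι)
    {x : ι → α → ℂ} (h : ∀ i, Measurable (x i)) (hi : ∀ i, Integrable (x i) μ) :
    Integrable (fun z => nv t fun i => x i z) μ := by
  refine (integrable_finsetSum t fun i _ => (hi i).norm).mono'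
    (measurable_nv t h).aestronglyMeasurable (Eventually.of_forall fun z => ?_)
  rw [Real.norm_of_nonneg (nv_nonneg _ _)]
  exact nv_le_sum t _

/-- Majorant lemma: a uniform `L¹` bound for the finite Euclidean norms gives one integrable
majorant. -/
theorem majorant {α : Type*} [MeasurableSpace α] {μ : Measure α} [Countable ι]
    {A : ι → α → ℂ} (hm : ∀ j, Measurable (A j)) (hi : ∀ j, Integrable (A j) μ) (T : Set ι)
    {B : ℝ} (hB : ∀ J : Finset ι, (∀ j ∈ J, j ∈ T) → ∫ z, (nv J fun j => A j z) ∂μ ≤ B) :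
    ∃ η : α → ℝ, Measurable η ∧ (∀ z, 0 ≤ η z) ∧ Integrable η μ ∧ ∫ z, η z ∂μ ≤ B ∧
      ∀ᵐ z ∂μ, ∀ J : Finset ι, (∀ j ∈ J, j ∈ T) → (nv J fun j => A j z) ≤ η z := by
  classical
  have hB0 : 0 ≤ B := by simpa [nv] using hB ∅ (by simp)
  let I := {J : Finset ι // ∀ j ∈ J, j ∈ T}
  let f : I → α → ENNReal := fun J z => ENNReal.ofReal (nv J.1 fun j => A j z)
  have hf : ∀ J, Measurable (f J) := fun J => (measurable_nv J.1 hm).ennreal_ofReal
  have hd : Directed (· ≤ ·) f := by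
    intro J J'
    refine ⟨⟨J.1 ∪ J'.1, fun j hj => (Finset.mem_union.1 hj).elim (J.2 j) (J'.2 j)⟩,
      fun z => ENNReal.ofReal_le_ofReal (nv_mono Finset.subset_union_left _),
      fun z => ENNReal.ofReal_le_ofReal (nv_mono Finset.subset_union_right _)⟩
  have hg : Measurable fun z => ⨆ J, f J z := Measurable.iSup hf
  have hle : ∫⁻ z, ⨆ J, f J z ∂μ ≤ ENNReal.ofReal B := by
    rw [lintegral_iSup_directed_of_measurable hf hd]
    refine iSup_le fun J => ?_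
    rw [← ofReal_integral_eq_lintegral_ofReal (integrable_nv J.1 hm hi)
      (Eventually.of_forall fun z => nv_nonneg _ _)]
    exact ENNReal.ofReal_le_ofReal (hB J.1 J.2)
  have hfin : ∫⁻ z, ⨆ J, f J z ∂μ ≠ ⊤ := ne_top_of_le_ne_top ENNReal.ofReal_ne_top hle
  refine ⟨fun z => (⨆ J, f J z).toReal, hg.ennreal_toReal, fun z => ENNReal.toReal_nonneg,
    integrable_toReal_of_lintegral_ne_top hg.aemeasurable hfin, ?_, ?_⟩
  · rw [integral_toReal hg.aemeasurable (ae_lt_top hg hfin)]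
    exact ENNReal.toReal_le_of_le_ofReal hB0 hle
  · filter_upwards [ae_lt_top hg hfin] with z hz J hJ
    rw [← ENNReal.ofReal_le_iff_le_toReal hz.ne]
    exact le_iSup (fun J => f J z) ⟨J, hJ⟩

lemma nv_cauchy_le (J : Finset ι) {φ : ι → ℂ → ℂ} (hφ : ∀ j, Test (φ j))
    (h1 : ∀ z, (nv J fun j => φ j z) ≤ 1) (ζ : ℂ) : (nv J fun j => cauchy (φ j) ζ) ≤ 10 := by
  set c : ι → ℂ := fun j => (starRingEnd ℂ) (cauchy (φ j) ζ) with hc
  set Q := nv J fun j => cauchy (φ j) ζ with hQ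
  have hQ0 : 0 ≤ Q := nv_nonneg _ _
  have hcQ : nv J c = Q := by simp [nv, hc, hQ]
  have e1 : ((Q ^ 2 : ℝ) : ℂ) = ∫ z, ∑ j ∈ J, c j * (φ j z / (z - ζ)) := by
    rw [integral_finsetSum _ fun j _ => (integrable_cauchy (hφ j) ζ).const_mul _, hQ, nv_sq]
    push_cast
    refine Finset.sum_congr rfl fun j _ => ?_
    rw [integral_const_mul, hc]
    exact (Complex.conj_mul' _).symm
  have e2 : ‖∫ z, ∑ j ∈ J, c j * (φ j z / (z - ζ))‖ ≤ Q * (10 * 1) := by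
    refine (((dom_ball 0 ζ one_pos).const_mul hQ0).mono (fun z => ?_) le_rfl).norm_integral_le
    by_cases hz : z ∈ ball (0 : ℂ) 1
    · rw [indicator_of_mem hz]
      have : ∑ j ∈ J, c j * (φ j z / (z - ζ)) = (∑ j ∈ J, c j * φ j z) * (z - ζ)⁻¹ := by
        rw [Finset.sum_mul]
        exact Finset.sum_congr rfl fun j _ => by ring
      rw [this, norm_mul, norm_inv]
      refine mul_le_mul_of_nonneg_right ((norm_sum_mul_le J c _).trans ?_) (by positivity)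
      rw [hcQ]
      exact mul_le_of_le_one_right hQ0 (h1 z)
    · rw [indicator_of_notMem hz, Finset.sum_eq_zero fun j _ => by
        rw [(hφ j).supp z (by simpa using hz)]; simp]
      simp
  rw [← e1, Complex.norm_real, Real.norm_of_nonneg (by positivity)] at e2
  nlinarith

end nv

variable {X : Type*} [TopologicalSpace X] [CompactSpace X]
variable {E : Type*} [NormedAddCommGroup E] [NormedSpace ℂ E]

omit [CompactSpace X] in
lemma cc_apply (a : C(X, ℂ)) {φ : ℂ → ℂ} (hφ : Test φ) (x : X) : cc a φ x = cauchy φ (a x) :=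
  ContinuousMap.mkD_apply_of_continuous ((continuous_cauchy hφ).comp a.continuous)

/-- `A m n` is the matrix Cauchy transform attached to the pair of sequences `v`, `u`. -/
structure IsA (Θ : C(X, ℂ) →ₐ[ℂ] (E →L[ℂ] E)) (a : C(X, ℂ)) (v : ℕ → StrongDual ℂ E)
    (u : ℕ → E) (A : ℕ → ℕ → ℂ → ℂ) : Prop where
  meas : ∀ m n, Measurable (A m n)
  int : ∀ m n, IntegrableOn (A m n) (ball 0 1)
  eq : ∀ m n φ, Test φ → ∫ z in ball (0 : ℂ) 1, φ z * A m n z = -v m (Θ (cc a φ) (u n))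

theorem exists_isA (Θ : C(X, ℂ) →ₐ[ℂ] (E →L[ℂ] E)) (hΘ : Continuous Θ) (a : C(X, ℂ))
    (v : ℕ → StrongDual ℂ E) (u : ℕ → E) : ∃ A, IsA Θ a v u A := by
  have key : ∀ m n, ∃ A : ℂ → ℂ, Measurable A ∧ IntegrableOn A (ball 0 1) ∧
      ∀ φ, Test φ → ∫ z in ball (0 : ℂ) 1, φ z * A z = -v m (Θ (cc a φ) (u n)) := by
    intro m n
    obtain ⟨F, hF, hF'⟩ := exists_F
      ((v m).comp ((ContinuousLinearMap.apply ℂ E (u n)).comp (clm Θ hΘ))) a
    have i1 : IntegrableOn (fun _ : ℂ => (1 : ℂ)) (ball (0 : ℂ) 1) :=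
      integrableOn_const measure_ball_lt_top.ne
    have hG : IntegrableOn (fun z => F z - 1) (ball (0 : ℂ) 1) := hF.sub i1
    refine ⟨hG.1.mk _, hG.1.stronglyMeasurable_mk.measurable, hG.congr hG.1.ae_eq_mk,
      fun φ hφ => ?_⟩
    obtain ⟨B, hB⟩ := hφ.bdd
    have hb : ∀ k : ℂ → ℂ, IntegrableOn k (ball (0 : ℂ) 1) →
        IntegrableOn (fun z => φ z * k z) (ball (0 : ℂ) 1) := fun k hk =>
      hk.bdd_mul hφ.meas.aestronglyMeasurable (Eventually.of_forall hB)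
    have h1 := hF' φ hφ (cc a φ) (cc_apply a hφ)
    have h2 : ∫ z in ball (0 : ℂ) 1, φ z * hG.1.mk _ z =
        ∫ z in ball (0 : ℂ) 1, (φ z * F z - φ z * 1) := by
      refine integral_congr_ae ?_
      filter_upwards [hG.1.ae_eq_mk] with z hz
      rw [← hz, mul_sub]
    rw [h2, integral_sub (hb _ hF) (hb _ i1), h1]
    simp
  choose A h1 h2 h3 using key
  exact ⟨A, h1, h2, h3⟩

theorem IsA.int_nv_le {Θ : C(X, ℂ) →ₐ[ℂ] (E →L[ℂ] E)} (hΘ : Continuous Θ) {a : C(X, ℂ)}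
    {v : ℕ → StrongDual ℂ E} {u : ℕ → E} {A : ℕ → ℕ → ℂ → ℂ} (hA : IsA Θ a v u A)
    (t s : Finset ℕ) :
    ∫ z in ball (0 : ℂ) 1, (nv (t ×ˢ s) fun j => A j.1 j.2 z) ≤
      10 * ‖clm Θ hΘ‖ * rad v t * rad u s * 10 := by
  set S : ℂ → ℝ := fun z => nv (t ×ˢ s) fun j => A j.1 j.2 z with hS
  have mS : Measurable S := measurable_nv _ fun j => hA.meas j.1 j.2
  have S0 : ∀ z, 0 ≤ S z := fun z => nv_nonneg _ _
  let φ : ℕ × ℕ → ℂ → ℂ := fun j => if j ∈ t ×ˢ s then (ball (0 : ℂ) 1).indicator fun z =>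
    ((S z : ℂ))⁻¹ * (starRingEnd ℂ) (A j.1 j.2 z) else 0
  have h1 : ∀ z, (nv (t ×ˢ s) fun j => φ j z) ≤ 1 := by
    intro z
    by_cases hz : z ∈ ball (0 : ℂ) 1
    · rw [nv_congr (y := fun j => ((S z : ℂ))⁻¹ * (starRingEnd ℂ) (A j.1 j.2 z))
        (fun j hj => by simp only [φ, if_pos hj, indicator_of_mem hz]), nv_mul]
      have : (nv (t ×ˢ s) fun j => (starRingEnd ℂ) (A j.1 j.2 z)) = S z := by simp [nv, hS]
      rw [this, norm_inv, Complex.norm_real, Real.norm_of_nonneg (S0 z)]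
      exact inv_mul_le_one_of_le₀ le_rfl (S0 z)
    · rw [nv_congr (y := fun _ => 0) fun j hj => by
        simp only [φ, if_pos hj, indicator_of_notMem hz]]
      simp [nv]
  have hφ : ∀ j, Test (φ j) := by
    intro j
    by_cases hj : j ∈ t ×ˢ s
    · refine ⟨?_, ⟨1, fun z => (norm_le_nv hj fun j => φ j z).trans (h1 z)⟩, fun z hz => ?_⟩
      · simp only [φ, if_pos hj]
        have := hA.meas j.1 j.2
        refine Measurable.indicator ?_ measurableSet_ball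
        exact (Complex.measurable_ofReal.comp mS).inv.mul
          (Complex.continuous_conj.measurable.comp this)
      · simp only [φ, if_pos hj]
        exact indicator_of_notMem (by simpa using hz) _
    · simp only [φ, if_neg hj]
      exact ⟨measurable_zero, ⟨0, by simp⟩, fun _ _ => rfl⟩
  have hb : ∀ j : ℕ × ℕ, IntegrableOn (fun z => φ j z * A j.1 j.2 z) (ball (0 : ℂ) 1) := by
    intro j
    obtain ⟨B, hB⟩ := (hφ j).bdd
    exact (hA.int j.1 j.2).bdd_mul (hφ j).meas.aestronglyMeasurable (Eventually.of_forall hB)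
  have e1 : ((∫ z in ball (0 : ℂ) 1, S z : ℝ) : ℂ) =
      -∑ m ∈ t, ∑ n ∈ s, v m (Θ (cc a (φ (m, n))) (u n)) := by
    rw [← Finset.sum_product' (f := fun m n => v m (Θ (cc a (φ (m, n))) (u n))),
      ← Finset.sum_neg_distrib,
      Finset.sum_congr rfl fun j _ => (hA.eq j.1 j.2 (φ j) (hφ j)).symm,
      ← integral_finsetSum _ fun j _ => hb j, ← integral_complex_ofReal]
    refine setIntegral_congr_fun measurableSet_ball fun z hz => ?_
    have : ∑ j ∈ t ×ˢ s, φ j z * A j.1 j.2 z = ((S z : ℂ))⁻¹ * ((S z ^ 2 : ℝ) : ℂ) := by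
      rw [hS]
      simp only [nv_sq]
      push_cast
      rw [Finset.mul_sum]
      refine Finset.sum_congr rfl fun j hj => ?_
      simp only [φ, if_pos hj, indicator_of_mem hz, mul_assoc, Complex.conj_mul', hS]
    simp only [this]
    push_cast
    rcases eq_or_ne (S z : ℂ) 0 with h | h
    · simp [h]
    · field_simp
  have e2 := rad_bound Θ hΘ v u t s (fun m n => cc a (φ (m, n))) (M := 10) (by norm_num) fun x => by
    rw [← Finset.sum_product' (f := fun m n => ‖cc a (φ (m, n)) x‖ ^ 2)]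
    have := (nv_le_iff _ _ (by norm_num)).1 (nv_cauchy_le (t ×ˢ s) hφ h1 (a x))
    simpa only [cc_apply a (hφ _)] using this
  rw [← norm_neg, ← e1, Complex.norm_real] at e2
  exact (le_abs_self _).trans e2

lemma test_mul {χ d : ℂ → ℂ} (hχ : Test χ) (md : Measurable d) {B : ℝ} (bd : ∀ z, ‖d z‖ ≤ B) :
    Test fun z => χ z * d z := by
  obtain ⟨C, hC⟩ := hχ.bdd
  refine ⟨hχ.meas.mul md, ⟨C * B, fun z => ?_⟩, fun z hz => by simp [hχ.supp z hz]⟩
  rw [norm_mul]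
  exact mul_le_mul (hC z) (bd z) (norm_nonneg _) ((norm_nonneg _).trans (hC z))

lemma Test.intOn_mul {χ k : ℂ → ℂ} (hχ : Test χ) (hk : IntegrableOn k (ball (0 : ℂ) 1)) :
    IntegrableOn (fun z => χ z * k z) (ball (0 : ℂ) 1) := by
  obtain ⟨B, hB⟩ := hχ.bdd
  exact hk.bdd_mul hχ.meas.aestronglyMeasurable (Eventually.of_forall hB)

lemma norm_le_two {s : Finset ℕ} {d : ℕ → ℂ → ℂ} (bd : ∀ z, ∑ n ∈ s, ‖d n z‖ ^ 2 ≤ 4)
    (d0 : ∀ n, n ∉ s → ∀ z, d n z = 0) (n : ℕ) (z : ℂ) : ‖d n z‖ ≤ 2 := by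
  by_cases hn : n ∈ s
  · exact (norm_le_nv hn fun n => d n z).trans
      ((nv_le_iff _ _ zero_le_two).2 ((bd z).trans (by norm_num)))
  · simp [d0 n hn z]

omit [CompactSpace X] in
lemma IsA.row {Θ : C(X, ℂ) →ₐ[ℂ] (E →L[ℂ] E)} {a : C(X, ℂ)} {v : ℕ → StrongDual ℂ E}
    {u u' : ℕ → E} {A A' : ℕ → ℕ → ℂ → ℂ} (hA : IsA Θ a v u A) (hA' : IsA Θ a v u' A')
    (s : Finset ℕ) {d e : ℕ → ℂ → ℂ} (md : ∀ n, Measurable (d n)) (me : ∀ n, Measurable (e n))
    (bd : ∀ n z, ‖d n z‖ ≤ 2) (be : ∀ n z, ‖e n z‖ ≤ 2) {χ : ℂ → ℂ} (hχ : Test χ) (m : ℕ) :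
    IntegrableOn (fun z => χ z * ∑ n ∈ s, (A m n z * d n z + A' m n z * e n z))
        (ball (0 : ℂ) 1) ∧
      ∫ z in ball (0 : ℂ) 1, χ z * ∑ n ∈ s, (A m n z * d n z + A' m n z * e n z) =
        -v m (∑ n ∈ s, (Θ (cc a fun z => χ z * d n z) (u n) +
          Θ (cc a fun z => χ z * e n z) (u' n))) := by
  have t1 : ∀ n, Test fun z => χ z * d n z := fun n => test_mul hχ (md n) (bd n)
  have t2 : ∀ n, Test fun z => χ z * e n z := fun n => test_mul hχ (me n) (be n)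
  have e1 : (fun z => χ z * ∑ n ∈ s, (A m n z * d n z + A' m n z * e n z)) =
      fun z => ∑ n ∈ s, ((χ z * d n z) * A m n z + (χ z * e n z) * A' m n z) := by
    funext z
    rw [Finset.mul_sum]
    exact Finset.sum_congr rfl fun n _ => by ring
  have i1 := fun n => Test.intOn_mul (t1 n) (hA.int m n)
  have i2 := fun n => Test.intOn_mul (t2 n) (hA'.int m n)
  have i3 : ∀ n, IntegrableOn (fun z => (χ z * d n z) * A m n z + (χ z * e n z) * A' m n z)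
      (ball (0 : ℂ) 1) := fun n => (i1 n).add (i2 n)
  rw [e1]
  refine ⟨integrable_finsetSum _ fun n _ => i3 n, ?_⟩
  rw [integral_finsetSum _ fun n _ => i3 n, map_sum, ← Finset.sum_neg_distrib]
  refine Finset.sum_congr rfl fun n _ => ?_
  rw [integral_add (i1 n) (i2 n), hA.eq m n _ (t1 n), hA'.eq m n _ (t2 n), map_add]
  ring

lemma norm_sum_integral_le (t : Finset ℕ) {χ W : ℕ → ℂ → ℂ} {g γ : ℂ → ℝ} (hg : Dens g)
    (hχ : ∀ z, ∑ m ∈ t, ‖χ m z‖ ^ 2 ≤ g z ^ 2) (hγ : IntegrableOn γ (ball 0 1))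
    (hi : ∀ m, IntegrableOn (fun z => χ m z * W m z) (ball (0 : ℂ) 1))
    (hW : ∀ᵐ z ∂(volume.restrict (ball (0 : ℂ) 1)), (nv t fun m => W m z) ≤ γ z) :
    ‖∑ m ∈ t, ∫ z in ball (0 : ℂ) 1, χ m z * W m z‖ ≤ ∫ z in ball (0 : ℂ) 1, g z * γ z := by
  obtain ⟨B, hB⟩ := hg.bdd
  rw [← integral_finsetSum _ fun m _ => hi m]
  refine norm_integral_le_of_norm_le (hγ.bdd_mul (c := B) hg.meas.aestronglyMeasurable
    (Eventually.of_forall fun z => by rw [Real.norm_of_nonneg (hg.nonneg z)]; exact hB z)) ?_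
  filter_upwards [hW] with z hz
  exact (norm_sum_mul_le t _ _).trans (mul_le_mul ((nv_le_iff _ _ (hg.nonneg z)).2 (hχ z)) hz
    (nv_nonneg _ _) (hg.nonneg z))

/-- An almost everywhere pointwise bound for the matrix function gives admissibility. -/
theorem adm_of_pointwise {Θ : C(X, ℂ) →ₐ[ℂ] (E →L[ℂ] E)} {a : C(X, ℂ)} {P : E →L[ℂ] E}
    {u : ℕ → E} {v : ℕ → StrongDual ℂ E} {A1 A2 B1 B2 : ℕ → ℕ → ℂ → ℂ}
    (h1 : IsA Θ a v (fun n => P (u n)) A1) (h2 : IsA Θ a v u A2)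
    (h3 : IsA Θ a (fun m => (v m).comp (1 - P)) (fun n => P (u n)) B1)
    (h4 : IsA Θ a (fun m => (v m).comp (1 - P)) u B2)
    {s : Finset ℕ} {d e : ℕ → ℂ → ℂ} {γ : ℂ → ℝ}
    (md : ∀ n, Measurable (d n)) (me : ∀ n, Measurable (e n))
    (bd : ∀ z, ∑ n ∈ s, ‖d n z‖ ^ 2 ≤ 4) (be : ∀ z, ∑ n ∈ s, ‖e n z‖ ^ 2 ≤ 4)
    (d0 : ∀ n, n ∉ s → ∀ z, d n z = 0) (e0 : ∀ n, n ∉ s → ∀ z, e n z = 0)
    (hγ : IntegrableOn γ (ball 0 1)) (γ0 : ∀ z, 0 ≤ γ z)
    (hp : ∀ᵐ z ∂(volume.restrict (ball (0 : ℂ) 1)), ∀ t : Finset ℕ,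
      (nv t fun m => e m z + ∑ n ∈ s, (A1 m n z * d n z + A2 m n z * e n z)) ≤ γ z ∧
      (nv t fun m => ∑ n ∈ s, (B1 m n z * d n z + B2 m n z * e n z)) ≤ γ z) :
    Adm Θ a P u v s d e γ := by
  refine ⟨md, me, bd, be, d0, e0, hγ, γ0, fun t χ g hχ hg hχg => ⟨?_, ?_⟩⟩
  · have r := fun m => h1.row h2 s md me (norm_le_two bd d0) (norm_le_two be e0) (hχ m) m
    have ie : ∀ m, IntegrableOn (fun z => χ m z * e m z) (ball (0 : ℂ) 1) := fun m => by
      simpa using Test.intOn_mul (test_mul (hχ m) (me m) (norm_le_two be e0 m))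
        (integrableOn_const (C := (1 : ℂ)) measure_ball_lt_top.ne)
    have := norm_sum_integral_le t (W := fun m z => e m z +
      ∑ n ∈ s, (A1 m n z * d n z + A2 m n z * e n z)) hg hχg hγ
      (fun m => by simp only [mul_add]; exact (ie m).add (r m).1)
      (by filter_upwards [hp] with z hz using (hz t).1)
    refine le_trans (le_of_eq ?_) this
    congr 1
    refine Finset.sum_congr rfl fun m _ => ?_
    simp only [mul_add]
    rw [integral_add (ie m) (r m).1, (r m).2, YY, sub_eq_add_neg]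
  · have r := fun m => h3.row h4 s md me (norm_le_two bd d0) (norm_le_two be e0) (hχ m) m
    have := norm_sum_integral_le t (W := fun m z =>
      ∑ n ∈ s, (B1 m n z * d n z + B2 m n z * e n z)) hg hχg hγ (fun m => (r m).1)
      (by filter_upwards [hp] with z hz using (hz t).2)
    refine le_trans (le_of_eq ?_) this
    rw [← norm_neg, ← Finset.sum_neg_distrib]
    congr 1
    refine Finset.sum_congr rfl fun m _ => ?_
    rw [(r m).2]
    rfl

/-- The case `P = 1`. -/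
theorem adm_one {Θ : C(X, ℂ) →ₐ[ℂ] (E →L[ℂ] E)} {a : C(X, ℂ)}
    {u : ℕ → E} {v : ℕ → StrongDual ℂ E} {A : ℕ → ℕ → ℂ → ℂ} (h : IsA Θ a v u A)
    {s : Finset ℕ} {d e : ℕ → ℂ → ℂ} {γ : ℂ → ℝ}
    (md : ∀ n, Measurable (d n)) (me : ∀ n, Measurable (e n))
    (bd : ∀ z, ∑ n ∈ s, ‖d n z‖ ^ 2 ≤ 4) (be : ∀ z, ∑ n ∈ s, ‖e n z‖ ^ 2 ≤ 4)
    (d0 : ∀ n, n ∉ s → ∀ z, d n z = 0) (e0 : ∀ n, n ∉ s → ∀ z, e n z = 0)
    (hγ : IntegrableOn γ (ball 0 1)) (γ0 : ∀ z, 0 ≤ γ z)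
    (hp : ∀ᵐ z ∂(volume.restrict (ball (0 : ℂ) 1)), ∀ t : Finset ℕ,
      (nv t fun m => e m z + ∑ n ∈ s, A m n z * (d n z + e n z)) ≤ γ z) :
    Adm Θ a 1 u v s d e γ := by
  have h0 : ∀ u' : ℕ → E, IsA Θ a (fun m => (v m).comp ((1 : E →L[ℂ] E) - 1)) u' fun _ _ _ => 0 :=
    fun u' =>
    ⟨fun _ _ => measurable_const, fun _ _ => integrableOn_zero, fun _ _ _ _ => by simp⟩
  refine adm_of_pointwise (A1 := A) (A2 := A) h h (h0 _) (h0 _) md me bd be d0 e0 hγ γ0 ?_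
  filter_upwards [hp] with z hz t
  exact ⟨by simpa only [mul_add] using hz t, by simpa [nv] using γ0 z⟩

end Pool.Agent.P.MP_f981b0_an.TB.T4
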